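import Pool.Agent.SVR.Sft

/-!
# The number of patterns in a box (MP_7034eb_an)
-/

set_option autoImplicit false

namespace SVR

open Finset

variable {S : Type} {W : S → S → S → S → ℕ} {M : ℕ}

/-- the pattern of a periodic configuration of spins and labels -/
def pat0 (hW' : ∀ a b c d, 1 ≤ W a b c d) (hM : ∀ a b c d, W a b c d ≤ M) {N : ℕ}
    (q : T0 W M N) (i j : Fin N) : Sy W M :=
  mk hW' hM (q.1.1 i j) (q.1.1 (cyc N i) j) (q.1.1 i (cyc N j)) (q.1.1 (cyc N i) (cyc N j))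
    (q.1.2 (i, j)).1

/-- the set of patterns -/
def BS (W : S → S → S → S → ℕ) (M N : ℕ) : Set (Fin N → Fin N → Sy W M) :=
  {p | ∃ x ∈ SIE.Sys2 (RH (W := W) (M := M)) RV, ∀ i j : Fin N,
    p i j = x ((i : ℕ) : ℤ) ((j : ℕ) : ℤ)}

theorem boxCount_eq (N : ℕ) : SIE.boxCount (RH (W := W) (M := M)) RV N = Nat.card (BS W M N) := by
  rw [Nat.card_coe_set_eq]
  rfl

/-- reduction of an integer modulo `N` -/
def ic (N : ℕ) (hN : 1 ≤ N) (m : ℤ) : Fin N := ⟨(m % N).toNat, by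
  have h1 := Int.emod_nonneg m (show (N : ℤ) ≠ 0 by omega)
  have h2 := Int.emod_lt_of_pos m (show (0 : ℤ) < N by omega)
  omega⟩

theorem ic_succ (N : ℕ) (hN : 1 ≤ N) (m : ℤ) : ic N hN (m + 1) = cyc N (ic N hN m) := by
  apply Fin.ext
  have h1 := Int.emod_nonneg m (show (N : ℤ) ≠ 0 by omega)
  show ((m + 1) % N).toNat = ((m % N).toNat + 1) % N
  have h3 : (m + 1) % (N : ℤ) = ((((m % N).toNat + 1) % N : ℕ) : ℤ) := by
    push_cast
    rw [Int.toNat_of_nonneg h1, Int.emod_add_emod]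
  rw [h3, Int.toNat_natCast]

theorem ic_val (N : ℕ) (hN : 1 ≤ N) (i : Fin N) : ic N hN ((i : ℕ) : ℤ) = i := by
  apply Fin.ext
  show (((i : ℕ) : ℤ) % N).toNat = i
  rw [Int.emod_eq_of_lt (by omega) (by exact_mod_cast i.2), Int.toNat_natCast]

theorem pat0_mem (hW' : ∀ a b c d, 1 ≤ W a b c d) (hM : ∀ a b c d, W a b c d ≤ M) {N : ℕ}
    (hN : 1 ≤ N) (q : T0 W M N) : pat0 hW' hM q ∈ BS W M N := by
  refine ⟨_, sys_of hW' hM (fun m n => q.1.1 (ic N hN m) (ic N hN n))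
    (fun m n => (q.1.2 (ic N hN m, ic N hN n)).1), fun i j => ?_⟩
  simp only [ic_succ, ic_val]
  rfl

theorem pat0_inj (hW' : ∀ a b c d, 1 ≤ W a b c d) (hM : ∀ a b c d, W a b c d ≤ M) {N : ℕ} :
    Function.Injective (pat0 hW' hM (N := N)) := by
  intro q q' h
  have h1 : q.1.1 = q'.1.1 := by
    funext i j
    have := congrArg (fun p => p.1.1.1) (congrFun (congrFun h i) j)
    simpa [pat0, mk] using this
  have h2 : q.1.2 = q'.1.2 := by
    funext p
    have h3 := congrArg (fun p => p.1.2.1) (congrFun (congrFun h p.1) p.2)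
    have h4 := q.2 p
    have h5 := q'.2 p
    simp only [pat0, mk] at h3
    rw [dif_pos h4, dif_pos h5] at h3
    exact Fin.ext h3
  exact Subtype.ext (Prod.ext h1 h2)

theorem box_ge [Fintype S] [DecidableEq S] (hW' : ∀ a b c d, 1 ≤ W a b c d)
    (hM : ∀ a b c d, W a b c d ≤ M) {N : ℕ} (hN : 1 ≤ N) :
    spin (cyc N) (fun a b c d => (W a b c d : ℝ)) ≤
      (SIE.boxCount (RH (W := W) (M := M)) RV N : ℝ) := by
  rw [boxCount_eq, ← card_T0 hM, ← Nat.card_eq_fintype_card]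
  exact_mod_cast Nat.card_le_card_of_injective (fun q : T0 W M N => (⟨pat0 hW' hM q,
    pat0_mem hW' hM hN q⟩ : BS W M N)) (fun q q' h => pat0_inj hW' hM (congrArg Subtype.val h))

/-- the code of a pattern -/
def code (hW' : ∀ a b c d, 1 ≤ W a b c d) (hM : ∀ a b c d, W a b c d ≤ M) (k : ℕ)
    (p : Fin (k + 1) → Fin (k + 1) → Sy W M) :
    T0 W M (k + 1) × (Fin (k + 1) → Sy W M) × (Fin (k + 1) → Sy W M) :=
  (⟨(fun i j => (p i j).1.1.1, fun r =>
    (mk hW' hM (p r.1 r.2).1.1.1 (p (cyc (k + 1) r.1) r.2).1.1.1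
      (p r.1 (cyc (k + 1) r.2)).1.1.1 (p (cyc (k + 1) r.1) (cyc (k + 1) r.2)).1.1.1
      (p r.1 r.2).1.2.1).1.2), fun r => (mk hW' hM (p r.1 r.2).1.1.1
      (p (cyc (k + 1) r.1) r.2).1.1.1 (p r.1 (cyc (k + 1) r.2)).1.1.1
      (p (cyc (k + 1) r.1) (cyc (k + 1) r.2)).1.1.1 (p r.1 r.2).1.2.1).2⟩,
    fun j => p (Fin.last k) j, fun i => p i (Fin.last k))

theorem code_inj (hW' : ∀ a b c d, 1 ≤ W a b c d) (hM : ∀ a b c d, W a b c d ≤ M) (k : ℕ) :
    Set.InjOn (code hW' hM k) (BS W M (k + 1)) := by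
  have key : ∀ p ∈ BS W M (k + 1), ∀ i j : Fin (k + 1), i.1 + 1 < k + 1 → j.1 + 1 < k + 1 →
      p i j = mk hW' hM (p i j).1.1.1 (p (cyc (k + 1) i) j).1.1.1
      (p i (cyc (k + 1) j)).1.1.1 (p (cyc (k + 1) i) (cyc (k + 1) j)).1.1.1
      (p i j).1.2.1 := by
    rintro p ⟨x, hx, hp⟩ i j hi hj
    obtain ⟨e1, e2, e3⟩ := sys_spins hx ((i : ℕ) : ℤ) ((j : ℕ) : ℤ)
    have c1 : ((cyc (k + 1) i : ℕ) : ℤ) = ((i : ℕ) : ℤ) + 1 := by
      have : (cyc (k + 1) i).1 = i.1 + 1 := Nat.mod_eq_of_lt hi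
      rw [this]; push_cast; rfl
    have c2 : ((cyc (k + 1) j : ℕ) : ℤ) = ((j : ℕ) : ℤ) + 1 := by
      have : (cyc (k + 1) j).1 = j.1 + 1 := Nat.mod_eq_of_lt hj
      rw [this]; push_cast; rfl
    rw [hp i j, hp (cyc (k + 1) i) j, hp i (cyc (k + 1) j), hp (cyc (k + 1) i) (cyc (k + 1) j),
      c1, c2, ← e1, ← e2, ← e3]
    exact (mk_self hW' hM _).symm
  intro p hp p' hp' h
  have h1 := congrArg (fun t => t.1.1.1) h
  have h2 := congrArg (fun t => t.1.1.2) h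
  have h3 := congrArg (fun t => t.2.1) h
  have h4 := congrArg (fun t => t.2.2) h
  simp only [code] at h1 h2 h3 h4
  have s1 : ∀ i j, (p i j).1.1.1 = (p' i j).1.1.1 := fun i j => congrFun (congrFun h1 i) j
  funext i j
  by_cases hi : i.1 + 1 < k + 1
  · by_cases hj : j.1 + 1 < k + 1
    · have k1 := key p hp i j hi hj
      have k2 := key p' hp' i j hi hj
      have k3 := congrFun h2 (i, j)
      simp only at k3
      rw [k1, k2]
      apply Subtype.ext
      apply Prod.ext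
      · simp only [mk, s1]
      · exact k3
    · have : j = Fin.last k := Fin.ext (by have := j.2; simp; omega)
      rw [this]
      exact congrFun h4 i
  · have : i = Fin.last k := Fin.ext (by have := i.2; simp; omega)
    rw [this]
    exact congrFun h3 j

theorem box_le [Fintype S] [DecidableEq S] (hW' : ∀ a b c d, 1 ≤ W a b c d)
    (hM : ∀ a b c d, W a b c d ≤ M) (k : ℕ) :
    (SIE.boxCount (RH (W := W) (M := M)) RV (k + 1) : ℝ) ≤
      ((Fintype.card (Sy W M) : ℝ) ^ 2) ^ (k + 1) *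
        spin (cyc (k + 1)) (fun a b c d => (W a b c d : ℝ)) := by
  rw [boxCount_eq, ← card_T0 hM]
  have h := Nat.card_le_card_of_injective (fun p : BS W M (k + 1) => code hW' hM k p.1)
    (fun p p' h => Subtype.ext (code_inj hW' hM k p.2 p'.2 h))
  have h2 : Nat.card (BS W M (k + 1)) ≤
      (Fintype.card (Sy W M) ^ 2) ^ (k + 1) * Fintype.card (T0 W M (k + 1)) := by
    refine h.trans (le_of_eq ?_)
    rw [Nat.card_eq_fintype_card, Fintype.card_prod, Fintype.card_prod, Fintype.card_fun,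
      Fintype.card_fin]
    ring
  exact_mod_cast h2

end SVR
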