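import Pool.Agent.SVR.Spin

/-!
# Real face weights as eigenvalues of integer matrices (MP_7034eb_an)
-/

set_option autoImplicit false

namespace SVR

open Finset

theorem sum_cons {α : Type} [Fintype α] (n : ℕ) (F : (Fin (n + 1) → α) → ℝ) :
    ∑ v, F v = ∑ a, ∑ f, F (Fin.cons a f) := by
  rw [← Fintype.sum_prod_type', ← Equiv.sum_comp (Fin.consEquiv (fun _ => α))]
  rfl

/-- the open chain -/
theorem chain_open {q : ℕ} (φ : Fin (q + 1) → ℝ) (k : ℕ)
    (B : Fin k → Matrix (Fin (q + 1)) (Fin (q + 1)) ℕ) (β : Fin k → ℝ)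
    (hB : ∀ i a, ∑ b, (B i a b : ℝ) * φ b = β i * φ a) (g : Fin (q + 1) → ℝ) :
    ∑ v : Fin (k + 1) → Fin (q + 1), g (v 0) * (∏ i : Fin k, (B i (v i.castSucc) (v i.succ) : ℝ)) *
      φ (v (Fin.last k)) = (∏ i, β i) * ∑ a, g a * φ a := by
  induction k generalizing g with
  | zero =>
    rw [sum_cons]
    simp
  | succ k ih =>
    rw [sum_cons]
    have h1 : ∀ a, ∑ f : Fin (k + 1) → Fin (q + 1),
        g ((Fin.cons a f : Fin (k + 1 + 1) → Fin (q + 1)) 0) *
        (∏ i : Fin (k + 1), (B i ((Fin.cons a f : Fin (k + 1 + 1) → Fin (q + 1)) i.castSucc)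
          ((Fin.cons a f : Fin (k + 1 + 1) → Fin (q + 1)) i.succ) : ℝ)) *
        φ ((Fin.cons a f : Fin (k + 1 + 1) → Fin (q + 1)) (Fin.last (k + 1))) =
        g a * ∑ f : Fin (k + 1) → Fin (q + 1), (B 0 a (f 0) : ℝ) *
          (∏ i : Fin k, (B i.succ (f i.castSucc) (f i.succ) : ℝ)) * φ (f (Fin.last k)) := by
      intro a
      rw [Finset.mul_sum]
      refine Finset.sum_congr rfl fun f _ => ?_
      rw [Fin.prod_univ_succ]
      have e1 : (Fin.cons a f : Fin (k + 1 + 1) → Fin (q + 1)) (Fin.last (k + 1)) =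
          f (Fin.last k) := by
        rw [← Fin.succ_last, Fin.cons_succ]
      rw [e1]
      simp only [Fin.cons_zero, Fin.castSucc_zero, Fin.cons_succ, ← Fin.succ_castSucc]
      ring
    simp only [h1]
    have h2 : ∀ a, ∑ f : Fin (k + 1) → Fin (q + 1), (B 0 a (f 0) : ℝ) *
          (∏ i : Fin k, (B i.succ (f i.castSucc) (f i.succ) : ℝ)) * φ (f (Fin.last k)) =
          (∏ i : Fin k, β i.succ) * (β 0 * φ a) := by
      intro a
      rw [ih (fun i => B i.succ) (fun i => β i.succ) (fun i a => hB i.succ a)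
        (fun b => (B 0 a b : ℝ)), hB 0 a]
    simp only [h2]
    rw [Fin.prod_univ_succ, Finset.mul_sum]
    refine Finset.sum_congr rfl fun a _ => ?_
    ring

theorem cyc_castSucc {k : ℕ} (i : Fin k) : cyc (k + 1) i.castSucc = i.succ := by
  apply Fin.ext
  show (i.1 + 1) % (k + 1) = i.1 + 1
  exact Nat.mod_eq_of_lt (by have := i.2; omega)

theorem cyc_last (k : ℕ) : cyc (k + 1) (Fin.last k) = 0 := by
  apply Fin.ext
  show (k + 1) % (k + 1) = 0
  exact Nat.mod_self _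

/-- the closed chain -/
theorem chain_cyc {q : ℕ} (φ : Fin (q + 1) → ℝ) (hφ : ∀ a, 0 < φ a) (k : ℕ)
    (B : Fin (k + 1) → Matrix (Fin (q + 1)) (Fin (q + 1)) ℕ) (β : Fin (k + 1) → ℝ)
    (hB : ∀ i a, ∑ b, (B i a b : ℝ) * φ b = β i * φ a) (hB1 : ∀ i a b, 1 ≤ B i a b)
    (c : ℝ) (hc : ∀ i a b, c * (β i * φ a) ≤ φ b) :
    ∑ v : Fin (k + 1) → Fin (q + 1), ∏ i, (B i (v i) (v (cyc (k + 1) i)) : ℝ) ≤
      ((q : ℝ) + 1) * ∏ i, β i ∧
    c * (((q : ℝ) + 1) * ∏ i, β i) ≤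
      ∑ v : Fin (k + 1) → Fin (q + 1), ∏ i, (B i (v i) (v (cyc (k + 1) i)) : ℝ) := by
  have key := chain_open φ k (fun i => B i.castSucc) (fun i => β i.castSucc)
    (fun i a => hB i.castSucc a) (fun a => β (Fin.last k) * (φ a)⁻¹)
  have e1 : ∑ a, β (Fin.last k) * (φ a)⁻¹ * φ a = ((q : ℝ) + 1) * β (Fin.last k) := by
    have : ∀ a, β (Fin.last k) * (φ a)⁻¹ * φ a = β (Fin.last k) := fun a => by
      have := (hφ a).ne'
      field_simp
    simp [this]
  have e2 : ((q : ℝ) + 1) * ∏ i, β i =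
      (∏ i : Fin k, β i.castSucc) * (((q : ℝ) + 1) * β (Fin.last k)) := by
    rw [Fin.prod_univ_castSucc]; ring
  rw [e2, ← e1, ← key, Finset.mul_sum]
  have hprod : ∀ v : Fin (k + 1) → Fin (q + 1),
      0 ≤ ∏ i : Fin k, (B i.castSucc (v i.castSucc) (v i.succ) : ℝ) := fun v =>
    Finset.prod_nonneg fun i _ => Nat.cast_nonneg _
  constructor
  · refine Finset.sum_le_sum fun v _ => ?_
    rw [Fin.prod_univ_castSucc, cyc_last]
    simp only [cyc_castSucc]
    have h1 : (B (Fin.last k) (v (Fin.last k)) (v 0) : ℝ) ≤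
        β (Fin.last k) * (φ (v 0))⁻¹ * φ (v (Fin.last k)) := by
      have h2 : (B (Fin.last k) (v (Fin.last k)) (v 0) : ℝ) * φ (v 0) ≤
          β (Fin.last k) * φ (v (Fin.last k)) := by
        rw [← hB]
        exact Finset.single_le_sum (f := fun b =>
          (B (Fin.last k) (v (Fin.last k)) b : ℝ) * φ b)
          (fun b _ => mul_nonneg (Nat.cast_nonneg _) (hφ b).le) (mem_univ (v 0))
      have h3 := hφ (v 0)
      rw [mul_right_comm, ← div_eq_mul_inv, le_div_iff₀ h3]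
      exact h2
    calc _ ≤ (∏ i : Fin k, (B i.castSucc (v i.castSucc) (v i.succ) : ℝ)) *
        (β (Fin.last k) * (φ (v 0))⁻¹ * φ (v (Fin.last k))) :=
          mul_le_mul_of_nonneg_left h1 (hprod v)
      _ = _ := by ring
  · refine Finset.sum_le_sum fun v _ => ?_
    rw [Fin.prod_univ_castSucc, cyc_last]
    simp only [cyc_castSucc]
    have h1 : c * (β (Fin.last k) * (φ (v 0))⁻¹ * φ (v (Fin.last k))) ≤
        (B (Fin.last k) (v (Fin.last k)) (v 0) : ℝ) := by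
      have h2 : (1 : ℝ) ≤ (B (Fin.last k) (v (Fin.last k)) (v 0) : ℝ) := by
        exact_mod_cast hB1 _ _ _
      refine le_trans ?_ h2
      have h3 := hφ (v 0)
      have h4 := hc (Fin.last k) (v (Fin.last k)) (v 0)
      have h5 : c * (β (Fin.last k) * (φ (v 0))⁻¹ * φ (v (Fin.last k))) =
          c * (β (Fin.last k) * φ (v (Fin.last k))) / φ (v 0) := by
        field_simp
      rw [h5, div_le_one h3]
      exact h4
    calc _ = (∏ i : Fin k, (B i.castSucc (v i.castSucc) (v i.succ) : ℝ)) *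
        (c * (β (Fin.last k) * (φ (v 0))⁻¹ * φ (v (Fin.last k)))) := by ring
      _ ≤ _ := mul_le_mul_of_nonneg_left h1 (hprod v)

/-- the integer face weights of the extended spins `(s, v)` -/
def WB {S : Type} {q : ℕ} (B : S → S → S → S → Matrix (Fin (q + 1)) (Fin (q + 1)) ℕ)
    (a b c d : S × Fin (q + 1)) : ℕ := B a.1 b.1 c.1 d.1 a.2 b.2

theorem spin_WB {S : Type} [Fintype S] {q : ℕ}
    (B : S → S → S → S → Matrix (Fin (q + 1)) (Fin (q + 1)) ℕ) (n : ℕ) :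
    spin (cyc n) (fun a b c d => (WB B a b c d : ℝ)) =
      ∑ s : Fin n → Fin n → S, ∏ j : Fin n, ∑ u : Fin n → Fin (q + 1), ∏ i : Fin n,
        (B (s i j) (s (cyc n i) j) (s i (cyc n j)) (s (cyc n i) (cyc n j)) (u i)
          (u (cyc n i)) : ℝ) := by
  unfold spin
  let e : (Fin n → Fin n → S) × (Fin n → Fin n → Fin (q + 1)) ≃
      (Fin n → Fin n → S × Fin (q + 1)) :=
    { toFun := fun t i j => (t.1 i j, t.2 j i)
      invFun := fun s => (fun i j => (s i j).1, fun j i => (s i j).2)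
      left_inv := fun t => rfl
      right_inv := fun s => rfl }
  rw [← Equiv.sum_comp e, Fintype.sum_prod_type]
  refine Finset.sum_congr rfl fun s _ => ?_
  rw [Finset.prod_univ_sum, Fintype.piFinset_univ]
  refine Finset.sum_congr rfl fun v _ => ?_
  rw [Fintype.prod_prod_type, Finset.prod_comm]
  rfl

theorem spin_WB_bounds {S : Type} [Fintype S] {q : ℕ}
    (B : S → S → S → S → Matrix (Fin (q + 1)) (Fin (q + 1)) ℕ) (φ : Fin (q + 1) → ℝ)
    (hφ : ∀ a, 0 < φ a) (lam : S → S → S → S → ℝ) (hlam : ∀ a b c d, 0 < lam a b c d)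
    (hB : ∀ a b c d i, ∑ j, (B a b c d i j : ℝ) * φ j = lam a b c d * φ i)
    (hB1 : ∀ a b c d i j, 1 ≤ B a b c d i j) :
    ∃ c : ℝ, 0 < c ∧ ∀ k : ℕ,
      spin (cyc (k + 1)) (fun a b c d => (WB B a b c d : ℝ)) ≤
        ((q : ℝ) + 1) ^ (k + 1) * spin (cyc (k + 1)) lam ∧
      (c * ((q : ℝ) + 1)) ^ (k + 1) * spin (cyc (k + 1)) lam ≤
        spin (cyc (k + 1)) (fun a b c d => (WB B a b c d : ℝ)) := by
  obtain ⟨c, hc0, hc⟩ : ∃ c : ℝ, 0 < c ∧ ∀ a b c' d i j, c * (lam a b c' d * φ i) ≤ φ j := by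
    rcases isEmpty_or_nonempty S with hS | hS
    · exact ⟨1, one_pos, fun a => hS.elim a⟩
    obtain ⟨t1, ht1⟩ := Finite.exists_max fun t : (S × S × S × S) × Fin (q + 1) =>
      lam t.1.1 t.1.2.1 t.1.2.2.1 t.1.2.2.2 * φ t.2
    obtain ⟨j1, hj1⟩ := Finite.exists_min φ
    set m2 := lam t1.1.1 t1.1.2.1 t1.1.2.2.1 t1.1.2.2.2 * φ t1.2 with hm2
    have hm2p : 0 < m2 := mul_pos (hlam _ _ _ _) (hφ _)
    refine ⟨φ j1 / m2, div_pos (hφ _) hm2p, fun a b c' d i j => ?_⟩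
    have h1 := ht1 ((a, b, c', d), i)
    simp only at h1
    calc φ j1 / m2 * (lam a b c' d * φ i) ≤ φ j1 / m2 * m2 :=
        mul_le_mul_of_nonneg_left h1 (div_pos (hφ _) hm2p).le
      _ = φ j1 := by field_simp
      _ ≤ φ j := hj1 j
  refine ⟨c, hc0, fun k => ?_⟩
  rw [spin_WB]
  unfold spin
  rw [Finset.mul_sum, Finset.mul_sum]
  have hq : (0 : ℝ) < (q : ℝ) + 1 := by positivity
  have hrow : ∀ (s : Fin (k + 1) → Fin (k + 1) → S) (j : Fin (k + 1)), _ := fun s j =>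
    chain_cyc φ hφ k
      (fun i => B (s i j) (s (cyc (k + 1) i) j) (s i (cyc (k + 1) j))
        (s (cyc (k + 1) i) (cyc (k + 1) j)))
      (fun i => lam (s i j) (s (cyc (k + 1) i) j) (s i (cyc (k + 1) j))
        (s (cyc (k + 1) i) (cyc (k + 1) j)))
      (fun i a => hB _ _ _ _ a) (fun i a b => hB1 _ _ _ _ a b) c (fun i a b => hc _ _ _ _ a b)
  have hl : ∀ s : Fin (k + 1) → Fin (k + 1) → S,
      ∏ p : Fin (k + 1) × Fin (k + 1), lam (s p.1 p.2) (s (cyc (k + 1) p.1) p.2)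
        (s p.1 (cyc (k + 1) p.2)) (s (cyc (k + 1) p.1) (cyc (k + 1) p.2)) =
      ∏ j, ∏ i, lam (s i j) (s (cyc (k + 1) i) j) (s i (cyc (k + 1) j))
        (s (cyc (k + 1) i) (cyc (k + 1) j)) := fun s => by
    rw [Fintype.prod_prod_type, Finset.prod_comm]
  constructor
  · refine Finset.sum_le_sum fun s _ => ?_
    rw [hl]
    have h1 : ((q : ℝ) + 1) ^ (k + 1) * ∏ j, ∏ i, lam (s i j) (s (cyc (k + 1) i) j)
        (s i (cyc (k + 1) j)) (s (cyc (k + 1) i) (cyc (k + 1) j)) =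
        ∏ j, (((q : ℝ) + 1) * ∏ i, lam (s i j) (s (cyc (k + 1) i) j)
        (s i (cyc (k + 1) j)) (s (cyc (k + 1) i) (cyc (k + 1) j))) := by
      rw [Finset.prod_mul_distrib]
      simp
    rw [h1]
    exact Finset.prod_le_prod (fun j _ => Finset.sum_nonneg fun u _ =>
      Finset.prod_nonneg fun i _ => Nat.cast_nonneg _) (fun j _ => (hrow s j).1)
  · refine Finset.sum_le_sum fun s _ => ?_
    rw [hl]
    have h1 : (c * ((q : ℝ) + 1)) ^ (k + 1) * ∏ j, ∏ i, lam (s i j) (s (cyc (k + 1) i) j)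
        (s i (cyc (k + 1) j)) (s (cyc (k + 1) i) (cyc (k + 1) j)) =
        ∏ j, (c * (((q : ℝ) + 1) * ∏ i, lam (s i j) (s (cyc (k + 1) i) j)
        (s i (cyc (k + 1) j)) (s (cyc (k + 1) i) (cyc (k + 1) j)))) := by
      rw [Finset.prod_mul_distrib, Finset.prod_mul_distrib]
      simp [mul_pow]
      ring
    rw [h1]
    refine Finset.prod_le_prod (fun j _ => ?_) (fun j _ => (hrow s j).2)
    have : 0 ≤ ∏ i, lam (s i j) (s (cyc (k + 1) i) j)
        (s i (cyc (k + 1) j)) (s (cyc (k + 1) i) (cyc (k + 1) j)) :=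
      Finset.prod_nonneg fun i _ => (hlam _ _ _ _).le
    positivity

end SVR
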