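import Mathlib

/-!
# Positive elements of a real number field as eigenvalues of positive integer matrices
(MP_7034eb_an)

For finitely many positive elements `w a` of a real number field there are a positive element
`T` of the field, a positive vector `φ` and matrices `M a` of positive integers with
`M a φ = T (w a) φ`.
-/

set_option autoImplicit false

namespace SVR

open Finset Filter Topology

theorem common_denom {I : Type} [Fintype I] (f : I → ℚ) (hf : ∀ i, 0 < f i) :
    ∃ D : ℕ, 0 < D ∧ ∀ i, ∃ m : ℕ, 1 ≤ m ∧ (m : ℚ) = D * f i := by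
  classical
  refine ⟨∏ i, (f i).den, Finset.prod_pos fun i _ => (f i).pos, fun i => ?_⟩
  obtain ⟨D', hD'⟩ := Finset.dvd_prod_of_mem (fun i => (f i).den) (mem_univ i)
  have hpos : 0 < ∏ i, (f i).den := Finset.prod_pos fun i _ => (f i).pos
  have hD0 : 0 < D' := by
    rcases Nat.eq_zero_or_pos D' with h | h
    · rw [h, mul_zero] at hD'; omega
    · exact h
  have hnum : 0 < (f i).num := Rat.num_pos.2 (hf i)
  refine ⟨D' * (f i).num.toNat, ?_, ?_⟩
  · exact Nat.mul_pos hD0 (by omega)
  · rw [hD']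
    have h1 : (((f i).num.toNat : ℕ) : ℚ) = ((f i).num : ℚ) := by
      have : (((f i).num.toNat : ℕ) : ℤ) = (f i).num := Int.toNat_of_nonneg hnum.le
      exact_mod_cast this
    have h2 : ((f i).den : ℚ) * f i = ((f i).num : ℚ) := Rat.den_mul_eq_num (f i)
    push_cast
    rw [h1, ← h2]
    ring

/-- rational points near a real vector, for a continuous strict condition -/
theorem exists_rat {n : ℕ} (U : Set (Fin n → ℝ)) (hU : IsOpen U) (e : Fin n → ℝ) (he : e ∈ U) :
    ∃ t : Fin n → ℚ, (fun l => (t l : ℝ)) ∈ U := by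
  have hd : DenseRange (fun t : Fin n → ℚ => fun l => ((t l : ℚ) : ℝ)) :=
    DenseRange.piMap fun _ => Rat.denseRange_cast
  obtain ⟨y, hy, t, rfl⟩ := hd.inter_open_nonempty U hU ⟨e, he⟩
  exact ⟨t, hy⟩

section

variable {K : IntermediateField ℚ ℝ} [FiniteDimensional ℚ K] {n : ℕ}
  (b : Module.Basis (Fin n) ℚ K)

theorem repr_eq_trace (y : K) (j : Fin n) :
    b.repr y j = Algebra.trace ℚ K (y * b.traceDual j) := by
  have h := b.traceDual.traceDual_repr_apply y j
  rw [b.traceDual_traceDual] at h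
  rw [h]
  rfl

theorem dual_eig (k : K) (j : Fin n) :
    ∑ l, (b.repr (b l * k) j) • b.traceDual l = k * b.traceDual j := by
  have h1 : ∀ l, b.repr (b l * k) j = b.traceDual.repr (k * b.traceDual j) l := by
    intro l
    rw [repr_eq_trace, Module.Basis.traceDual_repr_apply, Algebra.traceForm_apply]
    congr 1
    ring
  simp only [h1]
  exact b.traceDual.sum_repr _

theorem dual_sum : ∑ l, b l * b.traceDual l = 1 := by
  have hnd := traceForm_nondegenerate ℚ K
  have h1 : ∀ k : K, Algebra.trace ℚ K k = Algebra.trace ℚ K (k * ∑ l, b l * b.traceDual l) := by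
    intro k
    rw [Algebra.trace_eq_matrix_trace b, Matrix.trace, Finset.mul_sum, map_sum]
    refine Finset.sum_congr rfl fun l _ => ?_
    rw [Matrix.diag_apply, Algebra.leftMulMatrix_eq_repr_mul, repr_eq_trace, mul_assoc]
  have h2 : ∀ k : K, Algebra.traceForm ℚ K k (∑ l, b l * b.traceDual l - 1) = 0 := by
    intro k
    rw [Algebra.traceForm_apply, mul_sub, map_sub, mul_one, ← h1, sub_self]
  have h3 := hnd.2 _ h2
  exact sub_eq_zero.1 h3

end

theorem field_matrices {A : Type} [Finite A] (K : IntermediateField ℚ ℝ) [FiniteDimensional ℚ K]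
    (w : A → K) (hw : ∀ a, 0 < ((w a : K) : ℝ)) :
    ∃ (q : ℕ) (φ : Fin (q + 1) → ℝ) (T : K) (M : A → Matrix (Fin (q + 1)) (Fin (q + 1)) ℕ),
      (∀ i, 0 < φ i) ∧ 0 < (T : ℝ) ∧ (∀ a i j, 1 ≤ M a i j) ∧
      ∀ a i, ∑ j, (M a i j : ℝ) * φ j = (T : ℝ) * (w a : ℝ) * φ i := by
  have := Fintype.ofFinite A
  set n := Module.finrank ℚ K with hn
  set b : Module.Basis (Fin n) ℚ K := Module.finBasis ℚ K with hb
  set e : Fin n → ℝ := fun l => ((b.traceDual l : K) : ℝ) with he
  set β : Fin n → ℝ := fun l => ((b l : K) : ℝ) with hβ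
  have hS : ∑ l, e l * β l = 1 := by
    have h := congrArg (fun t : K => (t : ℝ)) (dual_sum b)
    simp only [AddSubmonoidClass.coe_finsetSum, MulMemClass.coe_mul, OneMemClass.coe_one] at h
    rw [← h]
    exact Finset.sum_congr rfl fun l _ => mul_comm _ _
  have heig : ∀ (k : K) (j : Fin n),
      ∑ l, e l * ((b.repr (b l * k) j : ℚ) : ℝ) = (k : ℝ) * e j := by
    intro k j
    have h := congrArg (fun t : K => (t : ℝ)) (dual_eig b k j)
    simp only [AddSubmonoidClass.coe_finsetSum, MulMemClass.coe_mul] at h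
    rw [← h]
    refine Finset.sum_congr rfl fun l _ => ?_
    rw [IntermediateField.coe_smul, Rat.smul_def, mul_comm]
  -- the width of the cone
  obtain ⟨δ, hδ0, hδ⟩ : ∃ δ : ℚ, 0 < δ ∧ (δ : ℝ) * ∑ l, |β l| < 1 / 4 := by
    have hpos : (0 : ℝ) < 1 / (4 * (1 + ∑ l, |β l|)) := by positivity
    obtain ⟨δ, h1, h2⟩ := exists_rat_btwn hpos
    refine ⟨δ, by exact_mod_cast h1, ?_⟩
    have h3 : 0 ≤ ∑ l, |β l| := Finset.sum_nonneg fun l _ => abs_nonneg _
    have h4 : (δ : ℝ) * (1 + ∑ l, |β l|) < 1 / 4 := by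
      rw [lt_div_iff₀ (by positivity)] at h2
      linarith
    have h5 : (0 : ℝ) < δ := h1
    linarith [mul_add (δ : ℝ) 1 (∑ l, |β l|)]
  have hδ0' : (0 : ℝ) < (δ : ℝ) := by exact_mod_cast hδ0
  set κ : ℚ := δ / (2 * (n + 1)) with hκ
  have hκ0 : 0 < κ := by positivity
  have hκ0' : (0 : ℝ) < (κ : ℝ) := by exact_mod_cast hκ0
  -- the centre
  obtain ⟨E, hE⟩ := exists_rat {t : Fin n → ℝ | (∀ l, |e l - t l| < κ) ∧ 1 / 2 < ∑ l, t l * β l}
    (by
      refine IsOpen.inter ?_ ?_
      · have : {t : Fin n → ℝ | ∀ l, |e l - t l| < κ} = ⋂ l, {t | |e l - t l| < κ} := by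
          ext t; simp
        rw [show (fun t : Fin n → ℝ => ∀ l, |e l - t l| < κ) =
          {t : Fin n → ℝ | ∀ l, |e l - t l| < κ} from rfl, this]
        exact isOpen_iInter_of_finite fun l =>
          isOpen_lt (by fun_prop) continuous_const
      · exact isOpen_lt (f := fun _ : Fin n → ℝ => (1 / 2 : ℝ))
          (g := fun t : Fin n → ℝ => ∑ l, t l * β l) continuous_const (by fun_prop)) e
    ⟨fun l => by simpa using hκ0', by rw [hS]; norm_num⟩
  obtain ⟨hE1, hE2⟩ := hE
  simp only at hE1 hE2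
  set EK : K := ∑ l, E l • b l with hEK
  have hEKr : ((EK : K) : ℝ) = ∑ l, (E l : ℝ) * β l := by
    rw [hEK]
    simp only [AddSubmonoidClass.coe_finsetSum]
    refine Finset.sum_congr rfl fun l _ => ?_
    rw [IntermediateField.coe_smul, Rat.smul_def]
  set Φ : Fin (n + 1) → K := Fin.cons (EK - δ • ∑ l, b l) (fun l => EK + δ • b l) with hΦ
  have hΦpos : ∀ i, 0 < ((Φ i : K) : ℝ) := by
    intro i
    refine Fin.cases ?_ (fun l => ?_) i
    · rw [hΦ, Fin.cons_zero]
      have h1 : (((EK - δ • ∑ l, b l : K)) : ℝ) = (EK : ℝ) - δ * ∑ l, β l := by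
        rw [AddSubgroupClass.coe_sub, IntermediateField.coe_smul, Rat.smul_def]
        simp only [AddSubmonoidClass.coe_finsetSum]
        rfl
      rw [h1, hEKr]
      have h2 : ∑ l, β l ≤ ∑ l, |β l| := Finset.sum_le_sum fun l _ => le_abs_self _
      have h3 := mul_le_mul_of_nonneg_left h2 hδ0'.le
      linarith
    · rw [hΦ, Fin.cons_succ]
      have h1 : (((EK + δ • b l : K)) : ℝ) = (EK : ℝ) + δ * β l := by
        rw [AddMemClass.coe_add, IntermediateField.coe_smul, Rat.smul_def]
      rw [h1, hEKr]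
      have h2 : |β l| ≤ ∑ l, |β l| :=
        Finset.single_le_sum (f := fun l => |β l|) (fun _ _ => abs_nonneg _) (mem_univ l)
      have h3 := mul_le_mul_of_nonneg_left h2 hδ0'.le
      have h4 := mul_le_mul_of_nonneg_left (neg_abs_le (β l)) hδ0'.le
      linarith
  -- the multiplier
  obtain ⟨t, ht⟩ := exists_rat {t : Fin n → ℝ | (∀ (a : A) (i : Fin (n + 1)) (j : Fin n),
      |∑ l, t l * ((b.repr (b l * (w a * Φ i)) j : ℚ) : ℝ) -
        ((w a : ℝ) * (Φ i : ℝ)) * E j| < ((w a : ℝ) * (Φ i : ℝ)) * κ) ∧ 0 < ∑ l, t l * β l}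
    (by
      refine IsOpen.inter ?_ ?_
      · have : {t : Fin n → ℝ | ∀ (a : A) (i : Fin (n + 1)) (j : Fin n),
          |∑ l, t l * ((b.repr (b l * (w a * Φ i)) j : ℚ) : ℝ) -
          ((w a : ℝ) * (Φ i : ℝ)) * E j| < ((w a : ℝ) * (Φ i : ℝ)) * κ} =
            ⋂ a, ⋂ i, ⋂ j, {t : Fin n → ℝ |
          |∑ l, t l * ((b.repr (b l * (w a * Φ i)) j : ℚ) : ℝ) -
          ((w a : ℝ) * (Φ i : ℝ)) * E j| < ((w a : ℝ) * (Φ i : ℝ)) * κ} := by
          ext t; simp
        rw [show (fun t : Fin n → ℝ => ∀ (a : A) (i : Fin (n + 1)) (j : Fin n),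
          |∑ l, t l * ((b.repr (b l * (w a * Φ i)) j : ℚ) : ℝ) -
          ((w a : ℝ) * (Φ i : ℝ)) * E j| < ((w a : ℝ) * (Φ i : ℝ)) * κ) =
          {t : Fin n → ℝ | ∀ (a : A) (i : Fin (n + 1)) (j : Fin n),
          |∑ l, t l * ((b.repr (b l * (w a * Φ i)) j : ℚ) : ℝ) -
          ((w a : ℝ) * (Φ i : ℝ)) * E j| < ((w a : ℝ) * (Φ i : ℝ)) * κ} from rfl, this]
        exact isOpen_iInter_of_finite fun a => isOpen_iInter_of_finite fun i =>
          isOpen_iInter_of_finite fun j => isOpen_lt (by fun_prop) continuous_const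
      · exact isOpen_lt (f := fun _ : Fin n → ℝ => (0 : ℝ))
          (g := fun t : Fin n → ℝ => ∑ l, t l * β l) continuous_const (by fun_prop)) e
    ⟨fun a i j => by
      rw [heig, MulMemClass.coe_mul, ← mul_sub, abs_mul,
        abs_of_pos (mul_pos (hw a) (hΦpos i))]
      exact mul_lt_mul_of_pos_left (hE1 j) (mul_pos (hw a) (hΦpos i)), by rw [hS]; norm_num⟩
  obtain ⟨ht1, ht2⟩ := ht
  simp only at ht1 ht2
  set T : K := ∑ l, t l • b l with hT
  have hTr : ((T : K) : ℝ) = ∑ l, (t l : ℝ) * β l := by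
    rw [hT]
    simp only [AddSubmonoidClass.coe_finsetSum]
    refine Finset.sum_congr rfl fun l _ => ?_
    rw [IntermediateField.coe_smul, Rat.smul_def]
  -- the coordinates of the products
  set y : A → Fin (n + 1) → Fin n → ℚ := fun a i j => b.repr (T * (w a * Φ i)) j with hy
  have hyr : ∀ a i j, y a i j = ∑ l, t l * (b.repr (b l * (w a * Φ i)) j) := by
    intro a i j
    simp only [hy, hT]
    rw [Finset.sum_mul, map_sum, Finsupp.finsetSum_apply]
    refine Finset.sum_congr rfl fun l _ => ?_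
    rw [smul_mul_assoc, map_smul, Finsupp.smul_apply, smul_eq_mul]
  -- the scale factors
  have hs : ∀ (a : A) (i : Fin (n + 1)), ∃ s : ℚ, 0 < s ∧ ∀ j, |y a i j - s * E j| < s * κ := by
    intro a i
    have hr : (0 : ℝ) < (w a : ℝ) * (Φ i : ℝ) := mul_pos (hw a) (hΦpos i)
    have hopen : IsOpen {s : ℝ | (0 < s) ∧ ∀ j, |(y a i j : ℝ) - s * E j| < s * κ} := by
      refine IsOpen.inter (isOpen_lt continuous_const continuous_id) ?_
      have : {s : ℝ | ∀ j, |(y a i j : ℝ) - s * E j| < s * κ} =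
          ⋂ j, {s : ℝ | |(y a i j : ℝ) - s * E j| < s * κ} := by
        ext s; simp
      rw [show (fun s : ℝ => ∀ j, |(y a i j : ℝ) - s * E j| < s * κ) =
        {s : ℝ | ∀ j, |(y a i j : ℝ) - s * E j| < s * κ} from rfl, this]
      exact isOpen_iInter_of_finite fun j => isOpen_lt (by fun_prop) (by fun_prop)
    obtain ⟨s, hs, s', rfl⟩ := (Rat.denseRange_cast (𝕜 := ℝ)).inter_open_nonempty _ hopen
      ⟨_, hr, fun j => by
        have := ht1 a i j
        rw [hyr]
        push_cast
        exact this⟩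
    obtain ⟨hs1, hs2⟩ := hs
    refine ⟨s', by exact_mod_cast hs1, fun j => ?_⟩
    have := hs2 j
    exact_mod_cast this
  choose s hs0 hs1 using hs
  -- the rational coefficients
  set lam0 : A → Fin (n + 1) → ℚ := fun a i =>
    (s a i - ∑ j, (y a i j - s a i * E j) / δ) / (n + 1) with hlam0
  set lam : A → Fin (n + 1) → Fin (n + 1) → ℚ := fun a i =>
    Fin.cons (lam0 a i) (fun j => lam0 a i + (y a i j - s a i * E j) / δ) with hlam
  have hn1 : (0 : ℚ) < (n : ℚ) + 1 := by positivity
  have hsum : ∀ a i, |∑ j, (y a i j - s a i * E j) / δ| ≤ n * (s a i / (2 * (n + 1))) := by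
    intro a i
    refine (Finset.abs_sum_le_sum_abs _ _).trans ?_
    calc ∑ j, |(y a i j - s a i * E j) / δ| ≤ ∑ _j : Fin n, s a i / (2 * (n + 1)) := by
          refine Finset.sum_le_sum fun j _ => ?_
          rw [abs_div, abs_of_pos hδ0, div_le_iff₀ hδ0]
          refine (hs1 a i j).le.trans (le_of_eq ?_)
          rw [hκ]
          ring
      _ = _ := by simp
  have hlam0pos : ∀ a i, s a i / (2 * (n + 1)) < lam0 a i := by
    intro a i
    have h1 := (abs_le.1 (hsum a i)).2
    have h2 := hs0 a i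
    rw [hlam0]
    simp only
    rw [lt_div_iff₀ hn1]
    have h3 : s a i / (2 * (n + 1)) * (n + 1) = s a i / 2 := by
      field_simp
    have h4 : (n : ℚ) * (s a i / (2 * (n + 1))) < s a i / 2 := by
      rw [← h3, mul_comm]
      exact mul_lt_mul_of_pos_left (by linarith) (by positivity)
    rw [h3]
    linarith
  have hlampos : ∀ a i j, 0 < lam a i j := by
    intro a i j
    have h0 := hlam0pos a i
    have h2 := hs0 a i
    have h5 : 0 < s a i / (2 * ((n : ℚ) + 1)) := by positivity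
    refine Fin.cases ?_ (fun l => ?_) j
    · simp only [hlam, Fin.cons_zero]
      linarith
    · simp only [hlam, Fin.cons_succ]
      have h3 : |(y a i l - s a i * E l) / δ| < s a i / (2 * (n + 1)) := by
        rw [abs_div, abs_of_pos hδ0, div_lt_iff₀ hδ0]
        refine (hs1 a i l).trans_le (le_of_eq ?_)
        rw [hκ]
        ring
      have h4 := (abs_lt.1 h3).1
      linarith
  have hcomb : ∀ a i, ∑ j, lam a i j • Φ j = T * (w a * Φ i) := by
    intro a i
    rw [Fin.sum_univ_succ]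
    simp only [hlam, hΦ, Fin.cons_zero, Fin.cons_succ]
    rw [← hΦ]
    have h1 : T * (w a * Φ i) = ∑ j, y a i j • b j := (b.sum_repr _).symm
    rw [h1]
    have h2 : ∀ j : Fin n, (lam0 a i + (y a i j - s a i * E j) / δ) • (EK + δ • b j) =
        (lam0 a i + (y a i j - s a i * E j) / δ) • EK + (lam0 a i * δ) • b j +
          (y a i j) • b j - (s a i) • (E j • b j) := by
      intro j
      rw [smul_add, smul_smul, smul_smul]
      have h3 : (lam0 a i + (y a i j - s a i * E j) / δ) * δ =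
          lam0 a i * δ + y a i j - s a i * E j := by
        field_simp
        ring
      rw [h3, sub_smul, add_smul (lam0 a i * δ)]
      abel
    simp only [h2]
    rw [Finset.sum_sub_distrib, Finset.sum_add_distrib, Finset.sum_add_distrib,
      ← Finset.sum_smul, ← Finset.smul_sum, ← Finset.smul_sum, ← hEK, Finset.sum_add_distrib]
    have h4 : lam0 a i * (n + 1) = s a i - ∑ j, (y a i j - s a i * E j) / δ := by
      rw [hlam0]
      field_simp
    have h5 : (∑ _j : Fin n, lam0 a i + ∑ j, (y a i j - s a i * E j) / δ) =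
        s a i - lam0 a i := by
      rw [Finset.sum_const, Finset.card_univ, Fintype.card_fin, nsmul_eq_mul]
      linarith
    rw [h5, smul_sub, smul_smul, sub_smul]
    abel
  -- the common denominator
  obtain ⟨Dn, hDn, hden⟩ := common_denom (fun p : A × Fin (n + 1) × Fin (n + 1) =>
    lam p.1 p.2.1 p.2.2) (fun p => hlampos _ _ _)
  choose m hm1 hm using hden
  refine ⟨n, fun i => ((Φ i : K) : ℝ), (Dn : K) * T, fun a i j => m (a, i, j), hΦpos, ?_,
    fun a i j => hm1 _, fun a i => ?_⟩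
  · rw [MulMemClass.coe_mul, hTr]
    have : (0 : ℝ) < (((Dn : K)) : ℝ) := by
      have : (((Dn : K)) : ℝ) = (Dn : ℝ) := by simp
      rw [this]
      exact_mod_cast hDn
    positivity
  · have h1 := congrArg (fun t : K => (t : ℝ)) (hcomb a i)
    simp only [AddSubmonoidClass.coe_finsetSum, MulMemClass.coe_mul] at h1
    have h2 : ∀ j, ((m (a, i, j) : ℕ) : ℝ) * ((Φ j : K) : ℝ) =
        (Dn : ℝ) * (((lam a i j • Φ j : K)) : ℝ) := by
      intro j
      have h3 : ((m (a, i, j) : ℕ) : ℝ) = (Dn : ℝ) * (lam a i j : ℝ) := by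
        have := hm (a, i, j)
        simp only at this
        exact_mod_cast this
      rw [h3, IntermediateField.coe_smul, Rat.smul_def]
      ring
    simp only [h2]
    rw [← Finset.mul_sum, h1, MulMemClass.coe_mul]
    have : (((Dn : K)) : ℝ) = (Dn : ℝ) := by simp
    rw [this]
    ring

end SVR
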