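import Mathlib

/-!
# Positive matrices for the positive elements of `ℤ[θ]` (MP_7034eb_an)

`θ` is the eigenvalue of a positive eigenvector `φ` of a primitive matrix `C` over `ℕ`.
-/

set_option autoImplicit false

namespace SVR

open Filter Topology Finset

/-- `θ` is the eigenvalue of a positive eigenvector of a primitive matrix over `ℕ` -/
def IsPerron (θ : ℝ) : Prop :=
  ∃ (q : ℕ) (C : Matrix (Fin (q + 1)) (Fin (q + 1)) ℕ) (φ : Fin (q + 1) → ℝ),
    (∃ r : ℕ, 1 ≤ r ∧ ∀ i j, 0 < (C ^ r) i j) ∧ (∀ i, 0 < φ i) ∧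
      ∀ i, ∑ j, (C i j : ℝ) * φ j = θ * φ i

/-- the values at `θ` of the polynomials with integer coefficients -/
def ZRing (θ : ℝ) : Set ℝ := {t | ∃ f : Polynomial ℤ, Polynomial.aeval θ f = t}

theorem ZRing_eq (θ t : ℝ) : t ∈ ZRing θ ↔ t ∈ Algebra.adjoin ℤ ({θ} : Set ℝ) := by
  rw [Algebra.adjoin_singleton_eq_range_aeval]
  exact Iff.rfl

section

variable {q : ℕ} (C : Matrix (Fin (q + 1)) (Fin (q + 1)) ℕ) (φ : Fin (q + 1) → ℝ) (θ : ℝ)

theorem eig_pow (hC : ∀ i, ∑ j, (C i j : ℝ) * φ j = θ * φ i) (n : ℕ) (i : Fin (q + 1)) :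
    ∑ j, ((C ^ n) i j : ℝ) * φ j = θ ^ n * φ i := by
  induction n generalizing i with
  | zero => simp [Matrix.one_apply]
  | succ n ih =>
    have h1 : ∀ j, (((C ^ (n + 1)) i j : ℕ) : ℝ) * φ j =
        ∑ l, (C i l : ℝ) * (((C ^ n) l j : ℝ) * φ j) := by
      intro j
      rw [pow_succ', Matrix.mul_apply]
      push_cast
      rw [Finset.sum_mul]
      exact Finset.sum_congr rfl fun l _ => by ring
    simp only [h1]
    rw [Finset.sum_comm]
    have h2 : ∀ l, ∑ j, (C i l : ℝ) * (((C ^ n) l j : ℝ) * φ j) =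
        θ ^ n * ((C i l : ℝ) * φ l) := by
      intro l
      rw [← Finset.mul_sum, ih l]
      ring
    simp only [h2]
    rw [← Finset.mul_sum, hC i]
    ring

theorem theta_pos (hC : ∀ i, ∑ j, (C i j : ℝ) * φ j = θ * φ i) (hφ : ∀ i, 0 < φ i)
    (hp : ∃ r : ℕ, 1 ≤ r ∧ ∀ i j, 0 < (C ^ r) i j) : 0 < θ := by
  obtain ⟨r, hr, hp⟩ := hp
  have h0 : 0 ≤ θ := by
    have h1 : 0 ≤ θ * φ 0 := by
      rw [← hC 0]
      exact Finset.sum_nonneg fun j _ => mul_nonneg (Nat.cast_nonneg _) (hφ j).le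
    exact nonneg_of_mul_nonneg_left h1 (hφ 0)
  rcases h0.eq_or_lt with h | h
  · exfalso
    have h2 := eig_pow C φ θ hC r 0
    rw [← h, zero_pow (by omega), zero_mul] at h2
    have h3 : 0 < ∑ j, ((C ^ r) 0 j : ℝ) * φ j :=
      Finset.sum_pos (fun j _ => mul_pos (by exact_mod_cast hp 0 j) (hφ j)) ⟨0, mem_univ _⟩
    linarith
  · exact h

/-- the normalised entries of the powers -/
noncomputable def y (N : ℕ) (i j : Fin (q + 1)) : ℝ := ((C ^ N) i j : ℝ) / (θ ^ N * φ i)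

/-- the normalised transition probabilities of `r` steps -/
noncomputable def tp (r : ℕ) (i l : Fin (q + 1)) : ℝ := ((C ^ r) i l : ℝ) * φ l / (θ ^ r * φ i)

theorem tp_sum (hC : ∀ i, ∑ j, (C i j : ℝ) * φ j = θ * φ i) (hφ : ∀ i, 0 < φ i) (hθ : 0 < θ)
    (r : ℕ) (i : Fin (q + 1)) : ∑ l, tp C φ θ r i l = 1 := by
  unfold tp
  rw [← Finset.sum_div, eig_pow C φ θ hC]
  have := hφ i
  field_simp

theorem y_add (hφ : ∀ i, 0 < φ i) (hθ : 0 < θ) (r N : ℕ) (i j : Fin (q + 1)) :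
    y C φ θ (r + N) i j = ∑ l, tp C φ θ r i l * y C φ θ N l j := by
  unfold y tp
  rw [pow_add, Matrix.mul_apply]
  push_cast
  rw [Finset.sum_div]
  refine Finset.sum_congr rfl fun l _ => ?_
  have := hφ i
  have := hφ l
  rw [pow_add]
  field_simp

/-- the maximum of column `j` -/
noncomputable def mx (j : Fin (q + 1)) (N : ℕ) : ℝ :=
  Finset.univ.sup' ⟨0, mem_univ _⟩ (fun i => y C φ θ N i j)

/-- the minimum of column `j` -/
noncomputable def mn (j : Fin (q + 1)) (N : ℕ) : ℝ :=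
  Finset.univ.inf' ⟨0, mem_univ _⟩ (fun i => y C φ θ N i j)

theorem le_mx (j : Fin (q + 1)) (N : ℕ) (i : Fin (q + 1)) : y C φ θ N i j ≤ mx C φ θ j N :=
  Finset.le_sup' (fun i => y C φ θ N i j) (mem_univ i)

theorem mn_le (j : Fin (q + 1)) (N : ℕ) (i : Fin (q + 1)) : mn C φ θ j N ≤ y C φ θ N i j :=
  Finset.inf'_le (fun i => y C φ θ N i j) (mem_univ i)

theorem tp_nonneg (hφ : ∀ i, 0 < φ i) (hθ : 0 < θ) (r : ℕ) (i l : Fin (q + 1)) :
    0 ≤ tp C φ θ r i l := by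
  unfold tp
  have := hφ i
  have := hφ l
  positivity

theorem bounds (hC : ∀ i, ∑ j, (C i j : ℝ) * φ j = θ * φ i) (hφ : ∀ i, 0 < φ i) (hθ : 0 < θ)
    (r : ℕ) (δ : ℝ) (hδ : ∀ i l, δ ≤ tp C φ θ r i l) (j : Fin (q + 1)) (N : ℕ) :
    mx C φ θ j (r + N) ≤ mx C φ θ j N - δ * (mx C φ θ j N - mn C φ θ j N) ∧
    mn C φ θ j N + δ * (mx C φ θ j N - mn C φ θ j N) ≤ mn C φ θ j (r + N) := by
  have hD : 0 ≤ mx C φ θ j N - mn C φ θ j N :=
    sub_nonneg.2 ((mn_le C φ θ j N 0).trans (le_mx C φ θ j N 0))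
  constructor
  · refine Finset.sup'_le _ _ fun i _ => ?_
    obtain ⟨l0, -, hl0⟩ := Finset.exists_mem_eq_inf' (s := (univ : Finset (Fin (q + 1))))
      ⟨0, mem_univ _⟩ (fun i => y C φ θ N i j)
    have h1 : ∑ l, tp C φ θ r i l * (mx C φ θ j N - y C φ θ N l j) =
        mx C φ θ j N - y C φ θ (r + N) i j := by
      rw [y_add C φ θ hφ hθ]
      simp only [mul_sub]
      rw [Finset.sum_sub_distrib, ← Finset.sum_mul, tp_sum C φ θ hC hφ hθ, one_mul]
    have h2 : tp C φ θ r i l0 * (mx C φ θ j N - y C φ θ N l0 j) ≤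
        ∑ l, tp C φ θ r i l * (mx C φ θ j N - y C φ θ N l j) :=
      Finset.single_le_sum (f := fun l => tp C φ θ r i l * (mx C φ θ j N - y C φ θ N l j))
        (fun l _ => mul_nonneg (tp_nonneg C φ θ hφ hθ r i l)
        (sub_nonneg.2 (le_mx C φ θ j N l))) (mem_univ l0)
    have h3 : y C φ θ N l0 j = mn C φ θ j N := hl0.symm
    rw [h3] at h2
    have h4 : δ * (mx C φ θ j N - mn C φ θ j N) ≤
        tp C φ θ r i l0 * (mx C φ θ j N - mn C φ θ j N) :=
      mul_le_mul_of_nonneg_right (hδ i l0) hD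
    linarith
  · refine Finset.le_inf' _ _ fun i _ => ?_
    obtain ⟨l0, -, hl0⟩ := Finset.exists_mem_eq_sup' (s := (univ : Finset (Fin (q + 1))))
      ⟨0, mem_univ _⟩ (fun i => y C φ θ N i j)
    have h1 : ∑ l, tp C φ θ r i l * (y C φ θ N l j - mn C φ θ j N) =
        y C φ θ (r + N) i j - mn C φ θ j N := by
      rw [y_add C φ θ hφ hθ]
      simp only [mul_sub]
      rw [Finset.sum_sub_distrib, ← Finset.sum_mul, tp_sum C φ θ hC hφ hθ, one_mul]
    have h2 : tp C φ θ r i l0 * (y C φ θ N l0 j - mn C φ θ j N) ≤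
        ∑ l, tp C φ θ r i l * (y C φ θ N l j - mn C φ θ j N) :=
      Finset.single_le_sum (f := fun l => tp C φ θ r i l * (y C φ θ N l j - mn C φ θ j N))
        (fun l _ => mul_nonneg (tp_nonneg C φ θ hφ hθ r i l)
        (sub_nonneg.2 (mn_le C φ θ j N l))) (mem_univ l0)
    have h3 : y C φ θ N l0 j = mx C φ θ j N := hl0.symm
    rw [h3] at h2
    have h4 : δ * (mx C φ θ j N - mn C φ θ j N) ≤
        tp C φ θ r i l0 * (mx C φ θ j N - mn C φ θ j N) :=
      mul_le_mul_of_nonneg_right (hδ i l0) hD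
    linarith

/-- the powers of a primitive matrix, normalised, converge to a positive matrix of rank one -/
theorem pf (hC : ∀ i, ∑ j, (C i j : ℝ) * φ j = θ * φ i) (hφ : ∀ i, 0 < φ i)
    (hp : ∃ r : ℕ, 1 ≤ r ∧ ∀ i j, 0 < (C ^ r) i j) :
    ∃ ψ : Fin (q + 1) → ℝ, (∀ j, 0 < ψ j) ∧
      ∀ i j, Tendsto (fun N : ℕ => ((C ^ N) i j : ℝ) / θ ^ N) atTop (𝓝 (φ i * ψ j)) := by
  have hθ := theta_pos C φ θ hC hφ hp
  obtain ⟨r, hr, hp⟩ := hp
  -- monotonicity
  have mono : ∀ j N, mx C φ θ j (N + 1) ≤ mx C φ θ j N ∧ mn C φ θ j N ≤ mn C φ θ j (N + 1) := by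
    intro j N
    have := bounds C φ θ hC hφ hθ 1 0 (fun i l => tp_nonneg C φ θ hφ hθ 1 i l) j N
    rw [add_comm 1 N] at this
    constructor <;> linarith [this.1, this.2]
  have hanti : ∀ j, Antitone (mx C φ θ j) := fun j => antitone_nat_of_succ_le fun N => (mono j N).1
  have hmono : ∀ j, Monotone (mn C φ θ j) := fun j => monotone_nat_of_le_succ fun N => (mono j N).2
  have hmm : ∀ j N, mn C φ θ j N ≤ mx C φ θ j N := fun j N =>
    (mn_le C φ θ j N 0).trans (le_mx C φ θ j N 0)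
  -- a lower bound of the transition probabilities
  obtain ⟨δ, hδ0, hδ⟩ : ∃ δ : ℝ, 0 < δ ∧ ∀ i l, δ ≤ tp C φ θ r i l := by
    have hpos : ∀ p : Fin (q + 1) × Fin (q + 1), 0 < tp C φ θ r p.1 p.2 := by
      intro p
      unfold tp
      have h1 := hφ p.1
      have h2 := hφ p.2
      have h3 : (0 : ℝ) < ((C ^ r) p.1 p.2 : ℝ) := by exact_mod_cast hp p.1 p.2
      positivity
    obtain ⟨p0, hp0⟩ := Finite.exists_min fun p : Fin (q + 1) × Fin (q + 1) =>
      tp C φ θ r p.1 p.2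
    exact ⟨_, hpos p0, fun i l => hp0 (i, l)⟩
  have hδ1 : δ ≤ 1 := by
    refine (hδ 0 0).trans ?_
    rw [← tp_sum C φ θ hC hφ hθ r 0]
    exact Finset.single_le_sum (f := fun l => tp C φ θ r 0 l)
      (fun l _ => tp_nonneg C φ θ hφ hθ r 0 l) (mem_univ 0)
  have hD : ∀ j (m : ℕ), mx C φ θ j (m * r) - mn C φ θ j (m * r) ≤
      (1 - δ) ^ m * (mx C φ θ j 0 - mn C φ θ j 0) := by
    intro j m
    induction m with
    | zero => simp
    | succ m ih =>
      have h1 := bounds C φ θ hC hφ hθ r δ hδ j (m * r)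
      have e : (m + 1) * r = r + m * r := by ring
      rw [e, pow_succ]
      have h2 : 0 ≤ mx C φ θ j (m * r) - mn C φ θ j (m * r) := sub_nonneg.2 (hmm j _)
      have h3 : (1 - δ) * (mx C φ θ j (m * r) - mn C φ θ j (m * r)) ≤
          (1 - δ) * ((1 - δ) ^ m * (mx C φ θ j 0 - mn C φ θ j 0)) :=
        mul_le_mul_of_nonneg_left ih (by linarith)
      nlinarith [h1.1, h1.2, mul_nonneg hδ0.le h2]
  have hbdd : ∀ j, BddAbove (Set.range (mn C φ θ j)) := fun j =>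
    ⟨mx C φ θ j 0, by rintro _ ⟨N, rfl⟩; exact (hmm j N).trans (hanti j (Nat.zero_le N))⟩
  set ψ : Fin (q + 1) → ℝ := fun j => ⨆ N, mn C φ θ j N with hψ
  have hlim : ∀ j, Tendsto (mn C φ θ j) atTop (𝓝 (ψ j)) := fun j =>
    tendsto_atTop_ciSup (hmono j) (hbdd j)
  have hDlim : ∀ j, Tendsto (fun N => mx C φ θ j N - mn C φ θ j N) atTop (𝓝 0) := by
    intro j
    have h1 : Tendsto (fun m : ℕ => (1 - δ) ^ m * (mx C φ θ j 0 - mn C φ θ j 0)) atTop (𝓝 0) := by
      have := (tendsto_pow_atTop_nhds_zero_of_lt_one (show 0 ≤ 1 - δ by linarith)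
        (show 1 - δ < 1 by linarith)).mul_const (mx C φ θ j 0 - mn C φ θ j 0)
      rwa [zero_mul] at this
    have h2 : Tendsto (fun N : ℕ => N / r) atTop atTop :=
      Nat.tendsto_div_const_atTop (by omega)
    refine squeeze_zero (fun N => sub_nonneg.2 (hmm j N)) (fun N => ?_) (h1.comp h2)
    have h3 : N / r * r ≤ N := Nat.div_mul_le_self N r
    have h4 := hanti j h3
    have h5 := hmono j h3
    have h6 := hD j (N / r)
    simp only [Function.comp]
    linarith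
  have hy : ∀ i j, Tendsto (fun N => y C φ θ N i j) atTop (𝓝 (ψ j)) := by
    intro i j
    refine tendsto_of_tendsto_of_tendsto_of_le_of_le (hlim j)
      (h := fun N => mn C φ θ j N + (mx C φ θ j N - mn C φ θ j N)) ?_
      (fun N => mn_le C φ θ j N i) (fun N => ?_)
    · have := (hlim j).add (hDlim j)
      rwa [add_zero] at this
    · have := le_mx C φ θ j N i
      simp only
      linarith
  refine ⟨ψ, fun j => ?_, fun i j => ?_⟩
  · have h1 : 0 < mn C φ θ j r := by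
      refine (Finset.lt_inf'_iff _).2 fun i _ => ?_
      unfold y
      have h3 : (0 : ℝ) < ((C ^ r) i j : ℝ) := by exact_mod_cast hp i j
      have := hφ i
      positivity
    exact h1.trans_le (le_ciSup (hbdd j) r)
  · have h1 := (hy i j).const_mul (φ i)
    refine h1.congr fun N => ?_
    unfold y
    have := hφ i
    field_simp

/-- every positive element of `ℤ[θ]` times a large power of `θ` is an eigenvalue, for the
eigenvector `φ`, of a matrix of positive integers -/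
theorem posmat (hC : ∀ i, ∑ j, (C i j : ℝ) * φ j = θ * φ i) (hφ : ∀ i, 0 < φ i)
    (hp : ∃ r : ℕ, 1 ≤ r ∧ ∀ i j, 0 < (C ^ r) i j) (α : ℝ)
    (hα : α ∈ Algebra.adjoin ℤ ({θ} : Set ℝ)) (hα0 : 0 < α) :
    ∃ N0 : ℕ, ∀ N, N0 ≤ N → ∃ B : Matrix (Fin (q + 1)) (Fin (q + 1)) ℕ,
      (∀ i j, 1 ≤ B i j) ∧ ∀ i, ∑ j, (B i j : ℝ) * φ j = θ ^ N * α * φ i := by
  have hθ := theta_pos C φ θ hC hφ hp
  obtain ⟨ψ, hψ, hlim⟩ := pf C φ θ hC hφ hp
  rw [Algebra.adjoin_singleton_eq_range_aeval] at hα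
  obtain ⟨f, hf⟩ := hα
  have hf' : ∑ m ∈ range (f.natDegree + 1), (f.coeff m : ℝ) * θ ^ m = α := by
    rw [← hf]
    show _ = Polynomial.aeval θ f
    rw [Polynomial.aeval_eq_sum_range]
    exact Finset.sum_congr rfl fun m _ => by rw [zsmul_eq_mul]
  have h1 : ∀ i j, Tendsto (fun N : ℕ => (∑ m ∈ range (f.natDegree + 1),
      (f.coeff m : ℝ) * ((C ^ (N + m)) i j : ℝ)) / θ ^ N) atTop (𝓝 (α * (φ i * ψ j))) := by
    intro i j
    rw [← hf', Finset.sum_mul]
    have h2 : ∀ N : ℕ, (∑ m ∈ range (f.natDegree + 1),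
        (f.coeff m : ℝ) * ((C ^ (N + m)) i j : ℝ)) / θ ^ N =
        ∑ m ∈ range (f.natDegree + 1), (f.coeff m : ℝ) * θ ^ m *
          (((C ^ (N + m)) i j : ℝ) / θ ^ (N + m)) := by
      intro N
      rw [Finset.sum_div]
      refine Finset.sum_congr rfl fun m _ => ?_
      rw [show θ ^ (N + m) = θ ^ N * θ ^ m from pow_add _ _ _]
      field_simp
    simp_rw [h2]
    refine tendsto_finsetSum _ fun m _ => ?_
    exact ((hlim i j).comp (tendsto_add_atTop_nat m)).const_mul _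
  have h3 : ∀ᶠ N : ℕ in atTop, ∀ i j, 0 < (∑ m ∈ range (f.natDegree + 1),
      (f.coeff m : ℝ) * ((C ^ (N + m)) i j : ℝ)) / θ ^ N :=
    eventually_all.2 fun i => eventually_all.2 fun j =>
      (h1 i j).eventually (lt_mem_nhds (mul_pos hα0 (mul_pos (hφ i) (hψ j))))
  obtain ⟨N0, hN0⟩ := eventually_atTop.1 h3
  refine ⟨N0, fun N hN => ?_⟩
  have hpos : ∀ i j, 0 < ∑ m ∈ range (f.natDegree + 1), f.coeff m * ((C ^ (N + m)) i j : ℤ) := by
    intro i j
    have h4 := hN0 N hN i j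
    have h5 : (0 : ℝ) < ∑ m ∈ range (f.natDegree + 1),
        (f.coeff m : ℝ) * ((C ^ (N + m)) i j : ℝ) := by
      rwa [lt_div_iff₀ (by positivity), zero_mul] at h4
    exact_mod_cast h5
  refine ⟨fun i j => (∑ m ∈ range (f.natDegree + 1), f.coeff m * ((C ^ (N + m)) i j : ℤ)).toNat,
    fun i j => ?_, fun i => ?_⟩
  · have := hpos i j
    show 1 ≤ (∑ m ∈ range (f.natDegree + 1), f.coeff m * ((C ^ (N + m)) i j : ℤ)).toNat
    omega
  · have h6 : ∀ j, (((∑ m ∈ range (f.natDegree + 1),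
        f.coeff m * ((C ^ (N + m)) i j : ℤ)).toNat : ℕ) : ℝ) =
        ∑ m ∈ range (f.natDegree + 1), (f.coeff m : ℝ) * ((C ^ (N + m)) i j : ℝ) := by
      intro j
      have h7 : ((((∑ m ∈ range (f.natDegree + 1),
        f.coeff m * ((C ^ (N + m)) i j : ℤ)).toNat : ℕ) : ℤ) : ℝ) = _ :=
        congrArg (fun t : ℤ => (t : ℝ)) (Int.toNat_of_nonneg (hpos i j).le)
      rw [Int.cast_natCast] at h7
      rw [h7]
      push_cast
      rfl
    simp only [h6]
    simp only [Finset.sum_mul]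
    rw [Finset.sum_comm]
    have h8 : ∀ m, ∑ j, (f.coeff m : ℝ) * ((C ^ (N + m)) i j : ℝ) * φ j =
        (f.coeff m : ℝ) * θ ^ m * (θ ^ N * φ i) := by
      intro m
      have h9 := eig_pow C φ θ hC (N + m) i
      simp only [mul_assoc]
      rw [← Finset.mul_sum, h9, pow_add]
      ring
    simp only [h8]
    rw [← Finset.sum_mul, hf']
    ring

end

end SVR
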