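import Pool.Agent.SVR.Box
import Pool.Agent.SVR.Chain
import Pool.Agent.SVR.Perron

/-!
# Free energies of face models with weights in `ℤ[θ]` (MP_7034eb_an)
-/

set_option autoImplicit false

namespace SVR

open Filter Topology

theorem mem_E {S : Type} [Fintype S] [DecidableEq S] [Nonempty S] (W : S → S → S → S → ℕ) (M : ℕ)
    (hW : ∀ a b c d, W a b c d ≤ M) (hW' : ∀ a b c d, 1 ≤ W a b c d) (H K : ℝ)
    (hH : ∀ n : ℕ, 1 ≤ n →
      |Real.log (spin (cyc n) (fun a b c d => (W a b c d : ℝ))) - (n : ℝ) ^ 2 * H| ≤ n * K)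
    (d : ℕ) : H ∈ SIE.E (d + 2) := by
  obtain ⟨s0⟩ := ‹Nonempty S›
  have hne : (SIE.Sys2 (RH (W := W) (M := M)) RV).Nonempty :=
    ⟨_, sys_of hW' hW (fun _ _ => s0) (fun _ _ => 0)⟩
  obtain ⟨x0, hx0⟩ := hne
  have hK : 1 ≤ Fintype.card (Sy W M) := Fintype.card_pos_iff.2 ⟨x0 0 0⟩
  have hK' : (1 : ℝ) ≤ Fintype.card (Sy W M) := by exact_mod_cast hK
  have hK0 : 0 ≤ K := by
    have := hH 1 le_rfl
    have h0 := (abs_nonneg _).trans this
    push_cast at h0
    linarith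
  have hexp : (1 : ℝ) ≤ Real.exp K := Real.one_le_exp hK0
  have key := SIE.transfer d (RH (W := W) (M := M)) RV ⟨x0, hx0⟩ (sys_si hW' hW) (Real.exp H)
    (Real.exp_pos H) ((Fintype.card (Sy W M) : ℝ) ^ 2 * Real.exp K)
    (by nlinarith [one_le_pow₀ (n := 2) hK']) ?_
  · rwa [Real.log_exp] at key
  intro N
  rcases Nat.eq_zero_or_pos N with h0 | h0
  · subst h0
    have hb : SIE.boxCount (RH (W := W) (M := M)) RV 0 = 1 := by
      rw [boxCount_eq]
      have : Unique (BS W M 0) :=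
        { default := ⟨fun i => i.elim0, x0, hx0, fun i => i.elim0⟩
          uniq := fun p => Subtype.ext (funext fun i => i.elim0) }
      exact Nat.card_unique
    rw [hb]
    simp
  obtain ⟨k, rfl⟩ : ∃ k, N = k + 1 := ⟨N - 1, by omega⟩
  have b1 := box_ge (W := W) (M := M) hW' hW (N := k + 1) (by omega)
  have b2 := box_le (W := W) (M := M) hW' hW k
  have p1 : (0 : ℝ) < spin (cyc (k + 1)) (fun a b c d => (W a b c d : ℝ)) :=
    spin_pos _ _ fun a b c d => by exact_mod_cast hW' a b c d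
  have hh := abs_le.1 (hH (k + 1) (by omega))
  have e1 : Real.exp H ^ ((k + 1) * (k + 1)) = Real.exp ((((k + 1 : ℕ) : ℝ)) ^ 2 * H) := by
    rw [← Real.exp_nat_mul]
    congr 1
    push_cast
    ring
  have e2 : Real.exp (((k + 1 : ℕ) : ℝ) * K) = Real.exp K ^ (k + 1) := by
    rw [← Real.exp_nat_mul]
  have c1 : Real.exp H ^ ((k + 1) * (k + 1)) ≤ Real.exp K ^ (k + 1) *
      spin (cyc (k + 1)) (fun a b c d => (W a b c d : ℝ)) := by
    rw [e1, ← e2]
    nth_rw 1 [← Real.exp_log p1]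
    rw [← Real.exp_add]
    exact Real.exp_le_exp.2 (by linarith [hh.1])
  have c2 : spin (cyc (k + 1)) (fun a b c d => (W a b c d : ℝ)) ≤ Real.exp K ^ (k + 1) *
      Real.exp H ^ ((k + 1) * (k + 1)) := by
    rw [e1, ← e2]
    nth_rw 1 [← Real.exp_log p1]
    rw [← Real.exp_add]
    exact Real.exp_le_exp.2 (by linarith [hh.2])
  have q1 : (1 : ℝ) ≤ ((Fintype.card (Sy W M) : ℝ) ^ 2) ^ (k + 1) :=
    one_le_pow₀ (one_le_pow₀ hK')
  rw [mul_pow]
  constructor
  · calc Real.exp H ^ ((k + 1) * (k + 1)) ≤ Real.exp K ^ (k + 1) *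
        spin (cyc (k + 1)) (fun a b c d => (W a b c d : ℝ)) := c1
      _ ≤ Real.exp K ^ (k + 1) * (SIE.boxCount (RH (W := W) (M := M)) RV (k + 1) : ℝ) := by
        gcongr
      _ = 1 * (Real.exp K ^ (k + 1) *
          (SIE.boxCount (RH (W := W) (M := M)) RV (k + 1) : ℝ)) := by ring
      _ ≤ ((Fintype.card (Sy W M) : ℝ) ^ 2) ^ (k + 1) * (Real.exp K ^ (k + 1) *
          (SIE.boxCount (RH (W := W) (M := M)) RV (k + 1) : ℝ)) := by gcongr
      _ = _ := by ring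
  · calc (SIE.boxCount (RH (W := W) (M := M)) RV (k + 1) : ℝ) ≤
        ((Fintype.card (Sy W M) : ℝ) ^ 2) ^ (k + 1) *
          spin (cyc (k + 1)) (fun a b c d => (W a b c d : ℝ)) := b2
      _ ≤ ((Fintype.card (Sy W M) : ℝ) ^ 2) ^ (k + 1) * (Real.exp K ^ (k + 1) *
          Real.exp H ^ ((k + 1) * (k + 1))) := by gcongr
      _ = _ := by ring

theorem face_mem {S : Type} [Fintype S] [DecidableEq S] [Nonempty S] {q : ℕ}
    (B : S → S → S → S → Matrix (Fin (q + 1)) (Fin (q + 1)) ℕ) (φ : Fin (q + 1) → ℝ)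
    (hφ : ∀ a, 0 < φ a) (lam : S → S → S → S → ℝ) (hlam : ∀ a b c d, 0 < lam a b c d)
    (hB : ∀ a b c d i, ∑ j, (B a b c d i j : ℝ) * φ j = lam a b c d * φ i)
    (hB1 : ∀ a b c d i j, 1 ≤ B a b c d i j) (H K : ℝ)
    (hH : ∀ n : ℕ, 1 ≤ n → |Real.log (spin (cyc n) lam) - (n : ℝ) ^ 2 * H| ≤ n * K) (d : ℕ) :
    H ∈ SIE.E (d + 2) := by
  obtain ⟨c, hc, hb⟩ := spin_WB_bounds B φ hφ lam hlam hB hB1
  obtain ⟨t, ht⟩ := Finite.exists_max fun t : (S × Fin (q + 1)) × (S × Fin (q + 1)) ×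
    (S × Fin (q + 1)) × (S × Fin (q + 1)) => WB B t.1 t.2.1 t.2.2.1 t.2.2.2
  refine mem_E (WB B) _ (fun a b c d => ht (a, b, c, d)) (fun a b c d => hB1 _ _ _ _ _ _) H
    (K + |Real.log ((q : ℝ) + 1)| + |Real.log (c * ((q : ℝ) + 1))|) (fun n hn => ?_) d
  obtain ⟨k, rfl⟩ : ∃ k, n = k + 1 := ⟨n - 1, by omega⟩
  obtain ⟨h1, h2⟩ := hb k
  have p1 : 0 < spin (cyc (k + 1)) lam := spin_pos _ _ hlam
  have p2 : (0 : ℝ) < spin (cyc (k + 1)) (fun a b c d => (WB B a b c d : ℝ)) :=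
    spin_pos _ _ fun a b c d => by exact_mod_cast hB1 _ _ _ _ _ _
  have hq : (0 : ℝ) < (q : ℝ) + 1 := by positivity
  have l1 := Real.log_le_log p2 h1
  have l2 := Real.log_le_log (by positivity) h2
  rw [Real.log_mul (by positivity) (by positivity), Real.log_pow] at l1 l2
  have hh := abs_le.1 (hH (k + 1) (by omega))
  have a1 := le_abs_self (Real.log ((q : ℝ) + 1))
  have a2 := neg_abs_le (Real.log (c * ((q : ℝ) + 1)))
  have a3 := abs_nonneg (Real.log ((q : ℝ) + 1))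
  have a4 := abs_nonneg (Real.log (c * ((q : ℝ) + 1)))
  have hn0 : (0 : ℝ) < ((k + 1 : ℕ) : ℝ) := by positivity
  rw [abs_le]
  constructor
  · nlinarith [mul_le_mul_of_nonneg_left a2 hn0.le, mul_nonneg hn0.le a3, hh.1]
  · nlinarith [mul_le_mul_of_nonneg_left a1 hn0.le, mul_nonneg hn0.le a4, hh.2]

theorem spin_scale {I S : Type} [Fintype I] [DecidableEq I] [Fintype S] (σ : I → I)
    (W : S → S → S → S → ℝ) (t : ℝ) :
    spin σ (fun a b c d => t * W a b c d) =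
      t ^ (Fintype.card I * Fintype.card I) * spin σ W := by
  unfold spin
  rw [Finset.mul_sum]
  refine Finset.sum_congr rfl fun s _ => ?_
  rw [Finset.prod_mul_distrib]
  simp

/-- **Free energies of face models.**  For positive face weights in `ℤ[θ]` and large `N` the free
energy plus `N log θ` is the entropy of a strongly irreducible shift of finite type. -/
theorem alg_mem {S : Type} [Fintype S] [DecidableEq S] [Nonempty S] (θ : ℝ) (hθ : IsPerron θ)
    (lam : S → S → S → S → ℝ) (hlam : ∀ a b c d, 0 < lam a b c d)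
    (hmem : ∀ a b c d, lam a b c d ∈ Algebra.adjoin ℤ ({θ} : Set ℝ)) (H K : ℝ)
    (hH : ∀ n : ℕ, 1 ≤ n → |Real.log (spin (cyc n) lam) - (n : ℝ) ^ 2 * H| ≤ n * K) :
    ∃ N0 : ℕ, ∀ N : ℕ, N0 ≤ N → ∀ d : ℕ, N * Real.log θ + H ∈ SIE.E (d + 2) := by
  obtain ⟨q, C, φ, hp, hφ, hC⟩ := hθ
  have hθ0 := theta_pos C φ θ hC hφ hp
  choose N0 hN0 using fun a b c d => posmat C φ θ hC hφ hp (lam a b c d) (hmem a b c d)
    (hlam a b c d)
  refine ⟨∑ a, ∑ b, ∑ c, ∑ d, N0 a b c d, fun N hN d => ?_⟩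
  have hle : ∀ a b c d, N0 a b c d ≤ N := by
    intro a b c d
    refine le_trans ?_ hN
    calc N0 a b c d ≤ ∑ d, N0 a b c d :=
        Finset.single_le_sum (f := fun d => N0 a b c d) (fun _ _ => Nat.zero_le _)
          (Finset.mem_univ d)
      _ ≤ ∑ c, ∑ d, N0 a b c d :=
        Finset.single_le_sum (f := fun c => ∑ d, N0 a b c d) (fun _ _ => Nat.zero_le _)
          (Finset.mem_univ c)
      _ ≤ ∑ b, ∑ c, ∑ d, N0 a b c d :=
        Finset.single_le_sum (f := fun b => ∑ c, ∑ d, N0 a b c d) (fun _ _ => Nat.zero_le _)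
          (Finset.mem_univ b)
      _ ≤ _ :=
        Finset.single_le_sum (f := fun a => ∑ b, ∑ c, ∑ d, N0 a b c d) (fun _ _ => Nat.zero_le _)
          (Finset.mem_univ a)
  choose B hB1 hB using fun a b c d => hN0 a b c d N (hle a b c d)
  refine face_mem B φ hφ (fun a b c d => θ ^ N * lam a b c d)
    (fun a b c d => mul_pos (pow_pos hθ0 N) (hlam a b c d)) hB hB1 _ K (fun n hn => ?_) d
  rw [spin_scale, Fintype.card_fin, Real.log_mul (by positivity) (spin_pos _ _ hlam).ne',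
    Real.log_pow, Real.log_pow]
  have := hH n hn
  have e : ((n * n : ℕ) : ℝ) * (N * Real.log θ) + Real.log (spin (cyc n) lam) -
      (n : ℝ) ^ 2 * (N * Real.log θ + H) = Real.log (spin (cyc n) lam) - (n : ℝ) ^ 2 * H := by
    push_cast
    ring
  rw [e]
  exact this

end SVR
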