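import Pool.Agent.SVR.Torus
import Pool.Agent.SVR.Mem

/-!
# The free energy of the six-vertex model with weights in `ℤ[θ]` (MP_7034eb_an)
-/

set_option autoImplicit false

namespace SVR

open Filter Topology

/-- the free energy per vertex along the tori of even side, with weights `x+y, x+z, y+z` -/
theorem core (θ : ℝ) (hθ : IsPerron θ) (x y z : ℝ) (hx : x ≠ 0) (hy : y ≠ 0) (hz : z ≠ 0)
    (hA : 0 < x + y + z) (hxm : x ∈ Algebra.adjoin ℤ ({θ} : Set ℝ))
    (hym : y ∈ Algebra.adjoin ℤ ({θ} : Set ℝ)) (hzm : z ∈ Algebra.adjoin ℤ ({θ} : Set ℝ)) :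
    ∃ P : ℝ, Tendsto (fun k : ℕ => Real.log (sixZ (x + y) (x + z) (y + z) (2 * k + 1)) /
      (2 * (k : ℝ) + 2) ^ 2) atTop (𝓝 P) ∧
      ∃ N0 : ℕ, ∀ N : ℕ, N0 ≤ N → ∀ d : ℕ, N * Real.log θ + P ∈ SIE.E (d + 2) := by
  have hx' := abs_pos.2 hx
  have hy' := abs_pos.2 hy
  have hz' := abs_pos.2 hz
  have habs : ∀ t : ℝ, t ∈ Algebra.adjoin ℤ ({θ} : Set ℝ) →
      |t| ∈ Algebra.adjoin ℤ ({θ} : Set ℝ) := by
    intro t ht
    rcases abs_choice t with h | h <;> rw [h]
    · exact ht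
    · exact neg_mem ht
  have hf := faceW_pos (x + y + z) |x| |y| |z| hA hx' hy' hz'
  obtain ⟨H, K, hH⟩ := spin_quad (faceW (x + y + z) |x| |y| |z|) hf
  obtain ⟨L, hL, hT⟩ := torus_le (x + y + z) |x| |y| |z| hA hx' hy' hz'
  refine ⟨H, ?_, alg_mem θ hθ _ hf (faceW_mem (x + y + z) |x| |y| |z|
    (Algebra.adjoin ℤ ({θ} : Set ℝ) : Set ℝ) (add_mem (add_mem hxm hym) hzm) (habs x hxm)
    (habs y hym) (habs z hzm)) H K hH⟩
  have key : ∀ k : ℕ, |Real.log (sixZ (x + y) (x + z) (y + z) (2 * k + 1)) /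
      (2 * (k : ℝ) + 2) ^ 2 - H| ≤ (K + Real.log L + Real.log 2) * (1 / ((k : ℝ) + 1)) := by
    intro k
    have hev : Even (2 * k + 1 + 1) := ⟨k + 1, by ring⟩
    have hS : sixZ (x + y) (x + z) (y + z) (2 * k + 1) =
        torus (cyc (2 * k + 1 + 1)) (dualW (x + y + z) |x| |y| |z|) := by
      rw [sixZ_dual, torus_abs _ _ _ _ hev]
    rw [hS]
    have t1 := hT (2 * k + 1)
    have t2 := spin_le (k := 2 * k + 1) (x + y + z) |x| |y| |z| hA hx' hy' hz'
    have p1 : 0 < spin (cyc (2 * k + 1 + 1)) (faceW (x + y + z) |x| |y| |z|) := spin_pos _ _ hf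
    have p2 : 0 < torus (cyc (2 * k + 1 + 1)) (dualW (x + y + z) |x| |y| |z|) := by
      by_contra hcon
      have := mul_nonpos_of_nonneg_of_nonpos
        (show (0 : ℝ) ≤ 2 ^ (2 * k + 1 + 1) by positivity) (not_lt.1 hcon)
      linarith
    have p3 : 0 < L := by linarith
    have l1 := Real.log_le_log p2 t1
    have l2 := Real.log_le_log p1 t2
    rw [Real.log_mul (by positivity) (by positivity), Real.log_pow] at l1 l2
    have hh := abs_le.1 (hH (2 * k + 1 + 1) (by omega))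
    have hlogL : 0 ≤ Real.log L := Real.log_nonneg hL
    have hlog2 : 0 ≤ Real.log 2 := Real.log_nonneg (by norm_num)
    have hK0 : 0 ≤ K := by
      have := (abs_nonneg _).trans (hH 1 le_rfl)
      push_cast at this
      linarith
    push_cast at l1 l2 hh
    set T := Real.log (torus (cyc (2 * k + 1 + 1)) (dualW (x + y + z) |x| |y| |z|)) with hTdef
    set G := Real.log (spin (cyc (2 * k + 1 + 1)) (faceW (x + y + z) |x| |y| |z|)) with hGdef
    have hk0 : (0 : ℝ) ≤ k := Nat.cast_nonneg k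
    have e : T / (2 * (k : ℝ) + 2) ^ 2 - H =
        (T - (2 * (k : ℝ) + 2) ^ 2 * H) / (2 * (k : ℝ) + 2) ^ 2 := by
      field_simp
    rw [e, abs_div, abs_of_pos (show (0 : ℝ) < (2 * (k : ℝ) + 2) ^ 2 by positivity),
      div_le_iff₀ (by positivity)]
    have e3 : (K + Real.log L + Real.log 2) * (1 / ((k : ℝ) + 1)) * (2 * (k : ℝ) + 2) ^ 2 =
        2 * ((K + Real.log L + Real.log 2) * (2 * (k : ℝ) + 2)) := by
      field_simp
    have e4 : (2 * (k : ℝ) + 1 + 1) = 2 * (k : ℝ) + 2 := by ring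
    rw [e4] at l1 l2 hh
    rw [e3, abs_le]
    have m1 : 0 ≤ (2 * (k : ℝ) + 2) * K := by positivity
    have m2 : 0 ≤ (2 * (k : ℝ) + 2) * Real.log L := by positivity
    have m3 : 0 ≤ (2 * (k : ℝ) + 2) * Real.log 2 := by positivity
    constructor <;> nlinarith [hh.1, hh.2]
  rw [tendsto_iff_dist_tendsto_zero]
  refine squeeze_zero (fun _ => dist_nonneg) (fun k => ?_)
    (g := fun k : ℕ => (K + Real.log L + Real.log 2) * (1 / ((k : ℝ) + 1))) ?_
  · rw [Real.dist_eq]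
    exact key k
  · have := (tendsto_one_div_add_atTop_nhds_zero_nat (𝕜 := ℝ)).const_mul
      (K + Real.log L + Real.log 2)
    rwa [mul_zero] at this

theorem sixWeight_two (a b c : ℝ) (w s e n : Bool) :
    sixWeight (2 * a) (2 * b) (2 * c) w s e n = 2 * sixWeight a b c w s e n := by
  unfold sixWeight
  split_ifs <;> simp

theorem sixZ_two (a b c : ℝ) (k : ℕ) : sixZ (2 * a) (2 * b) (2 * c) k =
    2 ^ ((k + 1) * (k + 1)) * sixZ a b c k := by
  unfold sixZ
  simp_rw [sixWeight_two, Finset.prod_mul_distrib, Finset.mul_sum]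
  refine Finset.sum_congr rfl fun h _ => Finset.sum_congr rfl fun v _ => ?_
  simp [pow_mul]

/-- **Main theorem.** -/
theorem main (θ : ℝ) (hθ : IsPerron θ) (a b c : ℝ) (ha : 0 ≤ a) (hb : 0 ≤ b) (hc : 0 ≤ c)
    (ham : a ∈ Algebra.adjoin ℤ ({θ} : Set ℝ)) (hbm : b ∈ Algebra.adjoin ℤ ({θ} : Set ℝ))
    (hcm : c ∈ Algebra.adjoin ℤ ({θ} : Set ℝ)) (h1 : a ≠ b + c) (h2 : b ≠ a + c)
    (h3 : c ≠ a + b) :
    ∃ P : ℝ, Tendsto (fun k : ℕ => Real.log (sixZ a b c (2 * k + 1)) / (2 * (k : ℝ) + 2) ^ 2)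
        atTop (𝓝 P) ∧
      (∃ N0 : ℕ, ∀ N : ℕ, N0 ≤ N → ∀ d : ℕ, 2 ≤ d →
        Real.log 2 + (N * Real.log θ + P) ∈ SIE.E d) ∧
      ((a + b + c) / 2 ∈ Algebra.adjoin ℤ ({θ} : Set ℝ) →
        ∃ N0 : ℕ, ∀ N : ℕ, N0 ≤ N → ∀ d : ℕ, 2 ≤ d → N * Real.log θ + P ∈ SIE.E d) := by
  have hsum : 0 < a + b + c := by
    rcases (show 0 ≤ a + b + c by linarith).eq_or_lt with h | h
    · exfalso
      apply h1
      linarith
    · exact h
  obtain ⟨Q, hQ, N0, hN0⟩ := core θ hθ (a + b - c) (a + c - b) (b + c - a)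
    (fun h => h3 (by linarith)) (fun h => h2 (by linarith)) (fun h => h1 (by linarith))
    (by linarith) (sub_mem (add_mem ham hbm) hcm) (sub_mem (add_mem ham hcm) hbm)
    (sub_mem (add_mem hbm hcm) ham)
  have e1 : a + b - c + (a + c - b) = 2 * a := by ring
  have e2 : a + b - c + (b + c - a) = 2 * b := by ring
  have e3 : a + c - b + (b + c - a) = 2 * c := by ring
  rw [e1, e2, e3] at hQ
  have hZ : ∀ k : ℕ, 0 < sixZ a b c (2 * k + 1) := by
    intro k
    have f1 : (a + b - c) / 2 + (a + c - b) / 2 = a := by ring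
    have f2 : (a + b - c) / 2 + (b + c - a) / 2 = b := by ring
    have f3 : (a + c - b) / 2 + (b + c - a) / 2 = c := by ring
    have f4 : a + (b + c - a) / 2 = (a + b + c) / 2 := by ring
    have hev : Even (2 * k + 1 + 1) := ⟨k + 1, by ring⟩
    have := sixZ_dual ((a + b - c) / 2) ((a + c - b) / 2) ((b + c - a) / 2) (2 * k + 1)
    rw [f1, f2, f3, f4, torus_abs _ _ _ _ hev] at this
    rw [this]
    have g1 : 0 < |(a + b - c) / 2| := abs_pos.2 fun h => h3 (by linarith)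
    have g2 : 0 < |(a + c - b) / 2| := abs_pos.2 fun h => h2 (by linarith)
    have g3 : 0 < |(b + c - a) / 2| := abs_pos.2 fun h => h1 (by linarith)
    have t2 := spin_le (k := 2 * k + 1) ((a + b + c) / 2) _ _ _ (by linarith) g1 g2 g3
    have p1 : 0 < spin (cyc (2 * k + 1 + 1)) (faceW ((a + b + c) / 2) |(a + b - c) / 2|
      |(a + c - b) / 2| |(b + c - a) / 2|) :=
      spin_pos _ _ (faceW_pos _ _ _ _ (by linarith) g1 g2 g3)
    by_contra hcon
    have := mul_nonpos_of_nonneg_of_nonpos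
      (show (0 : ℝ) ≤ 2 ^ (2 * k + 1 + 1) by positivity) (not_lt.1 hcon)
    linarith
  have hP : Tendsto (fun k : ℕ => Real.log (sixZ a b c (2 * k + 1)) / (2 * (k : ℝ) + 2) ^ 2) atTop
      (𝓝 (Q - Real.log 2)) := by
    refine (hQ.sub_const (Real.log 2)).congr fun k => ?_
    have hz := hZ k
    rw [sixZ_two, Real.log_mul (by positivity) (by positivity), Real.log_pow]
    push_cast
    field_simp
    ring
  refine ⟨Q - Real.log 2, hP, ⟨N0, fun N hN d hd => ?_⟩, fun hm => ?_⟩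
  · obtain ⟨d, rfl⟩ : ∃ d', d = d' + 2 := ⟨d - 2, by omega⟩
    have := hN0 N hN d
    convert this using 1
    ring
  · obtain ⟨P', hP', N1, hN1⟩ := core θ hθ ((a + b + c) / 2 - c) ((a + b + c) / 2 - b)
      ((a + b + c) / 2 - a) (fun h => h3 (by linarith)) (fun h => h2 (by linarith))
      (fun h => h1 (by linarith)) (by linarith) (sub_mem hm hcm) (sub_mem hm hbm) (sub_mem hm ham)
    have f1 : (a + b + c) / 2 - c + ((a + b + c) / 2 - b) = a := by ring
    have f2 : (a + b + c) / 2 - c + ((a + b + c) / 2 - a) = b := by ring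
    have f3 : (a + b + c) / 2 - b + ((a + b + c) / 2 - a) = c := by ring
    rw [f1, f2, f3] at hP'
    rw [tendsto_nhds_unique hP hP']
    refine ⟨N1, fun N hN d hd => ?_⟩
    obtain ⟨d, rfl⟩ : ∃ d', d = d' + 2 := ⟨d - 2, by omega⟩
    exact hN1 N hN d

end SVR
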