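import Pool.Agent.SVR.PrMain
import Pool.Agent.SVR.Field

/-!
# Pressures with algebraic weights (MP_7034eb_an)
-/

set_option autoImplicit false

namespace SVR

open SIE Finset Filter Topology

variable {D q : ℕ} {A : Type}

/-- if the weights times `T` are eigenvalues of positive integer matrices with a common positive
eigenvector, then `log T + P` is the entropy of a strongly irreducible SFT -/
theorem pr_core [Fintype A] (X : Set (Conf (D + 1) A)) (hX : IsSFT X) (hne : X.Nonempty)
    (hSI : StronglyIrreducible X) (w : A → ℝ) (hw : ∀ a, 0 < w a) (P : ℝ)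
    (hP : HasPressure X w P) (φ : Fin (q + 1) → ℝ) (hφ : ∀ i, 0 < φ i)
    (M : A → Matrix (Fin (q + 1)) (Fin (q + 1)) ℕ) (hM1 : ∀ a i j, 1 ≤ M a i j) (T : ℝ)
    (hT : 0 < T) (hB : ∀ a i, ∑ j, (M a i j : ℝ) * φ j = T * w a * φ i) :
    Real.log T + P ∈ E (D + 1) := by
  have hLex : ∃ L, ∀ a i j, M a i j ≤ L := by
    refine ⟨∑ a, ∑ i, ∑ j, M a i j, fun a i j => ?_⟩
    calc M a i j ≤ ∑ j, M a i j :=
        Finset.single_le_sum (f := fun j => M a i j) (fun _ _ => Nat.zero_le _) (mem_univ j)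
      _ ≤ ∑ i, ∑ j, M a i j :=
        Finset.single_le_sum (f := fun i => ∑ j, M a i j) (fun _ _ => Nat.zero_le _) (mem_univ i)
      _ ≤ _ :=
        Finset.single_le_sum (f := fun a => ∑ i, ∑ j, M a i j) (fun _ _ => Nat.zero_le _)
          (mem_univ a)
  obtain ⟨L, hL⟩ := hLex
  have hw' : ∀ a, 0 < T * w a := fun a => mul_pos hT (hw a)
  obtain ⟨C1, hC1, hcount⟩ := count_YY X M L hL hM1 φ hφ (fun a => T * w a) hw' hB
  refine ⟨Bt M L, inferInstance, YY X, YY_sft X hX, YY_nonempty hM1 hL X hne,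
    YY_si hM1 hL X hSI, ?_⟩
  unfold HasEntropy
  have hlow : Tendsto (fun k : ℕ => Real.log T +
      Real.log (partSum X w k) / (k : ℝ) ^ (D + 1)) atTop (𝓝 (Real.log T + P)) :=
    tendsto_const_nhds.add hP
  have hupp : Tendsto (fun k : ℕ => Real.log T +
      Real.log (partSum X w k) / (k : ℝ) ^ (D + 1) + Real.log C1 / k) atTop
      (𝓝 (Real.log T + P)) := by
    have := hlow.add (tendsto_const_div_atTop_nhds_zero_nat (Real.log C1))
    rwa [add_zero] at this
  have key : ∀ k : ℕ, 1 ≤ k →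
      Real.log T + Real.log (partSum X w k) / (k : ℝ) ^ (D + 1) ≤
        Real.log (numPatterns (YY (M := M) (L := L) X) k) / (k : ℝ) ^ (D + 1) ∧
      Real.log (numPatterns (YY (M := M) (L := L) X) k) / (k : ℝ) ^ (D + 1) ≤
        Real.log T + Real.log (partSum X w k) / (k : ℝ) ^ (D + 1) + Real.log C1 / k := by
    intro k hk
    obtain ⟨K, rfl⟩ : ∃ K, k = K + 1 := ⟨k - 1, by omega⟩
    obtain ⟨c1, c2⟩ := hcount K
    rw [partSum_scale] at c1 c2
    have p0 : 0 < partSum X w (K + 1) := partSum_pos X hne w hw (K + 1)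
    have p1 : 0 < T ^ ((K + 1) ^ (D + 1)) * partSum X w (K + 1) := by positivity
    have p2 : (0 : ℝ) < (numPatterns (YY (M := M) (L := L) X) (K + 1) : ℝ) := p1.trans_le c1
    have l1 := Real.log_le_log p1 c1
    have l2 := Real.log_le_log p2 c2
    rw [Real.log_mul (by positivity) (by positivity), Real.log_pow] at l1
    rw [Real.log_mul (by positivity) (by positivity), Real.log_mul (by positivity) (by positivity),
      Real.log_pow, Real.log_pow] at l2
    have hk0 : (0 : ℝ) < ((K + 1 : ℕ) : ℝ) := by positivity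
    have e1 : ((((K + 1) ^ (D + 1) : ℕ)) : ℝ) = ((K + 1 : ℕ) : ℝ) ^ (D + 1) := by push_cast; rfl
    have e2 : ((((K + 1) ^ D : ℕ)) : ℝ) = ((K + 1 : ℕ) : ℝ) ^ D := by push_cast; rfl
    rw [e1] at l1 l2
    rw [e2] at l2
    have hkD : (0 : ℝ) < ((K + 1 : ℕ) : ℝ) ^ (D + 1) := by positivity
    constructor
    · rw [le_div_iff₀ hkD]
      refine le_trans (le_of_eq ?_) l1
      field_simp
    · rw [div_le_iff₀ hkD]
      refine l2.trans (le_of_eq ?_)
      rw [pow_succ]
      field_simp
      ring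
  refine tendsto_of_tendsto_of_tendsto_of_le_of_le' hlow hupp ?_ ?_
  · filter_upwards [eventually_ge_atTop 1] with k hk
    exact (key k hk).1
  · filter_upwards [eventually_ge_atTop 1] with k hk
    exact (key k hk).2

theorem partSum_one [Fintype A] {d : ℕ} (X : Set (Conf d A)) (k : ℕ) :
    partSum X (fun _ => 1) k = (numPatterns X k : ℝ) := by
  classical
  unfold partSum
  rw [numPatterns_eq, Nat.card_eq_fintype_card, Fintype.card_subtype,
    Finset.natCast_card_filter]
  refine Finset.sum_congr rfl fun p _ => ?_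
  simp

/-- the pressure for constant weights -/
theorem pressure_const [Fintype A] {d : ℕ} (X : Set (Conf d A)) (hne : X.Nonempty) (h : ℝ)
    (hh : HasEntropy X h) (t : ℝ) (ht : 0 < t) : HasPressure X (fun _ => t) (h + Real.log t) := by
  unfold HasPressure
  have h1 : Tendsto (fun k : ℕ => Real.log (numPatterns X k) / (k : ℝ) ^ d + Real.log t) atTop
      (𝓝 (h + Real.log t)) := hh.add_const _
  refine h1.congr' ?_
  filter_upwards [eventually_ge_atTop 1] with k hk
  have e : partSum X (fun _ => t) k = t ^ (k ^ d) * (numPatterns X k : ℝ) := by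
    rw [← partSum_one, ← partSum_scale]
    simp
  have p : (0 : ℝ) < (numPatterns X k : ℝ) := by
    rw [← partSum_one]
    exact partSum_pos X hne _ (fun _ => one_pos) k
  have hk0 : (0 : ℝ) < (k : ℝ) ^ d := by positivity
  rw [e, Real.log_mul (by positivity) (by positivity), Real.log_pow]
  push_cast
  field_simp
  ring

/-- **Pressures with algebraic weights.** -/
theorem pr_alg (d : ℕ) (hd : 1 ≤ d) (P : ℝ) :
    (∃ (A : Type) (_ : Fintype A) (X : Set (Conf d A)) (w : A → ℝ),
      IsSFT X ∧ X.Nonempty ∧ StronglyIrreducible X ∧ (∀ a, 0 < w a ∧ IsAlgebraic ℚ (w a)) ∧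
      HasPressure X w P) ↔
    ∃ h ∈ E d, ∃ t : ℝ, 0 < t ∧ IsAlgebraic ℚ t ∧ P = h + Real.log t := by
  obtain ⟨D, rfl⟩ : ∃ D, d = D + 1 := ⟨d - 1, by omega⟩
  constructor
  · rintro ⟨A, _, X, w, hX, hne, hSI, hw, hP⟩
    set K : IntermediateField ℚ ℝ := IntermediateField.adjoin ℚ (Set.range w) with hK
    have : Finite (Set.range w) := Set.finite_range w
    have hfd : FiniteDimensional ℚ K := IntermediateField.finiteDimensional_adjoin (by
      rintro _ ⟨a, rfl⟩
      exact (hw a).2.isIntegral)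
    have hmem : ∀ a, w a ∈ K := fun a => IntermediateField.subset_adjoin _ _ ⟨a, rfl⟩
    obtain ⟨q, φ, T, M, hφ, hT, hM1, hB⟩ := field_matrices K (fun a => (⟨w a, hmem a⟩ : K))
      (fun a => (hw a).1)
    have key := pr_core X hX hne hSI w (fun a => (hw a).1) P hP φ hφ M hM1 (T : ℝ) hT hB
    have hTalg : IsAlgebraic ℚ ((T : K) : ℝ) :=
      (IsAlgebraic.of_finite ℚ T).algebraMap
    refine ⟨_, key, ((T : K) : ℝ)⁻¹, inv_pos.2 hT, hTalg.inv, ?_⟩
    rw [Real.log_inv]
    ring
  · rintro ⟨h, ⟨A, hA, X, hX, hne, hSI, hh⟩, t, ht, hta, rfl⟩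
    have := Fintype.ofFinite A
    exact ⟨A, this, X, fun _ => t, hX, hne, hSI, fun _ => ⟨ht, hta⟩,
      pressure_const X hne h hh t ht⟩

end SVR
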