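import Pool.Agent.SVR.PrSft
import Pool.Agent.SVR.Chain

/-!
# Counting the patterns of the system with row states and labels (MP_7034eb_an)
-/

set_option autoImplicit false

namespace SVR

open SIE Finset

/-- the sites of the cube as integer points -/
def toZ {d k : ℕ} (s : Fin d → Fin k) : Site d := fun i => ((s i : ℕ) : ℤ)

theorem PatX_iff {d : ℕ} {A : Type} (X : Set (Conf d A)) (k : ℕ) (p : (Fin d → Fin k) → A) :
    PatX X k p ↔ ∃ x ∈ X, ∀ s, p s = x (toZ s) := Iff.rfl

/-- the sites of the cube -/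
def cubeE (d k : ℕ) : (Fin d → Fin k) ≃ cube d k where
  toFun s := ⟨toZ s, fun i => ⟨Int.natCast_nonneg _, by
    show ((s i : ℕ) : ℤ) < k
    exact_mod_cast (s i).2⟩⟩
  invFun s := fun i => ⟨(s.1 i).toNat, by
    have h1 := (s.2 i).1
    have h2 := (s.2 i).2
    omega⟩
  left_inv s := by
    funext i
    apply Fin.ext
    exact Int.toNat_natCast _
  right_inv s := by
    apply Subtype.ext
    funext i
    exact Int.toNat_of_nonneg (s.2 i).1

theorem numPatterns_eq {d : ℕ} {A : Type} (X : Set (Conf d A)) (k : ℕ) :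
    numPatterns X k = Nat.card {r : (Fin d → Fin k) → A // PatX X k r} := by
  unfold numPatterns
  have h1 : {r : (Fin d → Fin k) → A | PatX X k r} =
      (fun f : cube d k → A => f ∘ cubeE d k) ''
        ((fun (x : Conf d A) (s : cube d k) => x s) '' X) := by
    ext r
    constructor
    · rintro ⟨x, hx, h⟩
      exact ⟨_, ⟨x, hx, rfl⟩, funext fun s => (h s).symm⟩
    · rintro ⟨_, ⟨x, hx, rfl⟩, rfl⟩
      exact ⟨x, hx, fun s => rfl⟩
  have h2 : Function.Injective (fun f : cube d k → A => f ∘ cubeE d k) :=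
    (cubeE d k).surjective.injective_comp_right
  have h3 := Set.ncard_image_of_injective ((fun (x : Conf d A) (s : cube d k) => x s) '' X) h2
  rw [← h3, ← h1, ← Nat.card_coe_set_eq]
  rfl

/-- reduction of an integer modulo `N` -/
def icc (N : ℕ) (m : ℤ) : Fin (N + 1) := ⟨(m % ((N + 1 : ℕ) : ℤ)).toNat, by
  have h1 := Int.emod_nonneg m (show ((N + 1 : ℕ) : ℤ) ≠ 0 by omega)
  have h2 := Int.emod_lt_of_pos m (show (0 : ℤ) < ((N + 1 : ℕ) : ℤ) by omega)
  omega⟩

theorem icc_val (N : ℕ) (i : Fin (N + 1)) (m : ℤ) (h : m = ((i : ℕ) : ℤ)) : icc N m = i := by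
  subst h
  apply Fin.ext
  show (((i : ℕ) : ℤ) % ((N + 1 : ℕ) : ℤ)).toNat = i
  rw [Int.emod_eq_of_lt (by omega) (by exact_mod_cast i.2), Int.toNat_natCast]

variable {D q K : ℕ} {A : Type} {M : A → Matrix (Fin (q + 1)) (Fin (q + 1)) ℕ} {L : ℕ}

/-- patterns of `X` with row states and labels -/
abbrev TT (X : Set (Conf (D + 1) A)) (M : A → Matrix (Fin (q + 1)) (Fin (q + 1)) ℕ) (L K : ℕ) :
    Type :=
  {t : ((Fin (D + 1) → Fin (K + 1)) → A) ×
      ((Fin D → Fin (K + 1)) → Fin (K + 1 + 1) → Fin (q + 1)) ×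
      ((Fin D → Fin (K + 1)) → Fin (K + 1) → Fin L) //
    PatX X (K + 1) t.1 ∧ ∀ u i, (t.2.2 u i).1 <
      M (t.1 (Fin.cons i u)) (t.2.1 u i.castSucc) (t.2.1 u i.succ)}

theorem toZ_cons (i : Fin (K + 1)) (u : Fin D → Fin (K + 1)) :
    toZ (Fin.cons i u : Fin (D + 1) → Fin (K + 1)) = Fin.cons ((i : ℕ) : ℤ) (toZ u) := by
  funext j
  refine Fin.cases ?_ (fun j => ?_) j
  · rfl
  · rfl

theorem cons_add_e0 (m : ℤ) (u : Site D) :
    (Fin.cons m u : Site (D + 1)) + e0 = Fin.cons (m + 1) u := by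
  funext j
  refine Fin.cases ?_ (fun j => ?_) j
  · simp [e0]
  · simp [e0]

/-- from patterns with states and labels to patterns of the system -/
def psi {X : Set (Conf (D + 1) A)} (t : TT X M L K) (s : Fin (D + 1) → Fin (K + 1)) : Bt M L :=
  ⟨((t.1.1 s, t.1.2.1 (Fin.tail s) (s 0).castSucc, t.1.2.1 (Fin.tail s) (s 0).succ),
    t.1.2.2 (Fin.tail s) (s 0)), by
      have := t.2.2 (Fin.tail s) (s 0)
      rwa [Fin.cons_self_tail] at this⟩

theorem psi_mem (hM1 : ∀ a i j, 1 ≤ M a i j) (hL : ∀ a i j, M a i j ≤ L)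
    (X : Set (Conf (D + 1) A)) (t : TT X M L K) : PatX (YY (M := M) (L := L) X) (K + 1) (psi t) := by
  obtain ⟨x, hx, hp⟩ := t.2.1
  refine ⟨_, mkB_mem hM1 hL X x hx
    (fun s => t.1.2.1 (fun i => icc K (s i.succ)) (icc (K + 1) (s 0)))
    (fun s => (t.1.2.2 (fun i => icc K (s i.succ)) (icc K (s 0))).1), fun s => ?_⟩
  have h1 : (fun i : Fin D => icc K (((s i.succ : Fin (K + 1)) : ℕ) : ℤ)) = Fin.tail s :=
    funext fun i => icc_val K _ _ rfl
  have h2 : icc K (((s 0 : Fin (K + 1)) : ℕ) : ℤ) = s 0 := icc_val K _ _ rfl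
  have h3 : icc (K + 1) (((s 0 : Fin (K + 1)) : ℕ) : ℤ) = (s 0).castSucc :=
    icc_val (K + 1) _ _ rfl
  have h4 : icc (K + 1) ((((s 0 : Fin (K + 1)) : ℕ) : ℤ) + 1) = (s 0).succ :=
    icc_val (K + 1) _ _ (by simp)
  have h5 : ∀ i : Fin D, (fun i => (((s i : Fin (K + 1)) : ℕ) : ℤ) : Site (D + 1)) i.succ +
      (e0 : Site (D + 1)) i.succ = (((s i.succ : Fin (K + 1)) : ℕ) : ℤ) := by
    intro i
    simp [e0]
  have h6 : (fun i => (((s i : Fin (K + 1)) : ℕ) : ℤ) : Site (D + 1)) 0 +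
      (e0 : Site (D + 1)) 0 = (((s 0 : Fin (K + 1)) : ℕ) : ℤ) + 1 := by
    simp [e0]
  simp only [Pi.add_apply]
  simp only [h5, h6, h1, h2, h3, h4]
  have h7 := hp s
  rw [← h7]
  exact (mkB_self hM1 hL (psi t s)).symm

theorem psi_inj (X : Set (Conf (D + 1) A)) : Function.Injective (psi (X := X) (M := M) (L := L)
    (D := D) (K := K)) := by
  intro t t' h
  have h1 : t.1.1 = t'.1.1 := funext fun s =>
    congrArg (fun b : Bt M L => b.1.1.1) (congrFun h s)
  have h2 : ∀ (u : Fin D → Fin (K + 1)) (i : Fin (K + 1)),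
      t.1.2.1 u i.castSucc = t'.1.2.1 u i.castSucc := by
    intro u i
    have := congrArg (fun b : Bt M L => b.1.1.2.1) (congrFun h (Fin.cons i u))
    simpa [psi] using this
  have h3 : ∀ (u : Fin D → Fin (K + 1)) (i : Fin (K + 1)),
      t.1.2.1 u i.succ = t'.1.2.1 u i.succ := by
    intro u i
    have := congrArg (fun b : Bt M L => b.1.1.2.2) (congrFun h (Fin.cons i u))
    simpa [psi] using this
  have h4 : ∀ (u : Fin D → Fin (K + 1)) (i : Fin (K + 1)),
      t.1.2.2 u i = t'.1.2.2 u i := by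
    intro u i
    have := congrArg (fun b : Bt M L => b.1.2) (congrFun h (Fin.cons i u))
    simpa [psi] using this
  apply Subtype.ext
  refine Prod.ext h1 (Prod.ext ?_ ?_)
  · funext u i
    refine Fin.cases ?_ (fun i => h3 u i) i
    have := h2 u 0
    rwa [Fin.castSucc_zero] at this
  · funext u i
    exact h4 u i

/-- from patterns of the system to patterns with states and labels -/
def phi (X : Set (Conf (D + 1) A)) (r : {r : (Fin (D + 1) → Fin (K + 1)) → Bt M L //
    PatX (YY (M := M) (L := L) X) (K + 1) r}) : TT X M L K :=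
  ⟨(fun s => (r.1 s).1.1.1,
    fun u => Fin.cons (r.1 (Fin.cons 0 u)).1.1.2.1 (fun i => (r.1 (Fin.cons i u)).1.1.2.2),
    fun u i => (r.1 (Fin.cons i u)).1.2), by
      obtain ⟨r, y, hy, h⟩ := r
      constructor
      · exact ⟨_, hy.1, fun s => by simp only [h s]⟩
      · intro u i
        have h1 : (r (Fin.cons i u)).1.1.2.1 = (Fin.cons (r (Fin.cons 0 u)).1.1.2.1
            (fun i => (r (Fin.cons i u)).1.1.2.2) : Fin (K + 1 + 1) → Fin (q + 1))
            i.castSucc := by
          refine Fin.cases ?_ (fun j => ?_) i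
          · rw [Fin.castSucc_zero, Fin.cons_zero]
          · rw [← Fin.succ_castSucc, Fin.cons_succ]
            have e1 := h (Fin.cons j.succ u)
            have e2 := h (Fin.cons j.castSucc u)
            rw [e1, e2]
            have e3 := hy.2 (toZ (Fin.cons j.castSucc u : Fin (D + 1) → Fin (K + 1)))
            have e4 : toZ (Fin.cons j.castSucc u : Fin (D + 1) → Fin (K + 1)) + e0 =
                toZ (Fin.cons j.succ u : Fin (D + 1) → Fin (K + 1)) := by
              rw [toZ_cons, toZ_cons, cons_add_e0]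
              simp
            rw [e4] at e3
            exact e3.symm
        have h2 := (r (Fin.cons i u)).2
        rw [h1] at h2
        simpa only [Fin.cons_succ] using h2⟩

theorem phi_inj (X : Set (Conf (D + 1) A)) : Function.Injective (phi (M := M) (L := L)
    (K := K) X) := by
  intro r r' h
  have h1 : ∀ s, (r.1 s).1.1.1 = (r'.1 s).1.1.1 := fun s =>
    congrFun (congrArg (fun t : TT X M L K => t.1.1) h) s
  have h2 : ∀ (u : Fin D → Fin (K + 1)) (i : Fin (K + 1 + 1)),
      (phi X r).1.2.1 u i = (phi X r').1.2.1 u i := fun u i =>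
    congrFun (congrFun (congrArg (fun t : TT X M L K => t.1.2.1) h) u) i
  have h3 : ∀ (u : Fin D → Fin (K + 1)) (i : Fin (K + 1)),
      (r.1 (Fin.cons i u)).1.2 = (r'.1 (Fin.cons i u)).1.2 := fun u i =>
    congrFun (congrFun (congrArg (fun t : TT X M L K => t.1.2.2) h) u) i
  have hr : ∀ (r : {r : (Fin (D + 1) → Fin (K + 1)) → Bt M L //
      PatX (YY (M := M) (L := L) X) (K + 1) r}) (u : Fin D → Fin (K + 1)) (i : Fin (K + 1)),
      (r.1 (Fin.cons i u)).1.1.2.1 = (phi X r).1.2.1 u i.castSucc := by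
    intro r u i
    obtain ⟨r, y, hy, h⟩ := r
    show _ = (Fin.cons (r (Fin.cons 0 u)).1.1.2.1
      (fun i => (r (Fin.cons i u)).1.1.2.2) : Fin (K + 1 + 1) → Fin (q + 1)) i.castSucc
    refine Fin.cases ?_ (fun j => ?_) i
    · rw [Fin.castSucc_zero, Fin.cons_zero]
    · rw [← Fin.succ_castSucc, Fin.cons_succ]
      have e1 := h (Fin.cons j.succ u)
      have e2 := h (Fin.cons j.castSucc u)
      show (r (Fin.cons j.succ u)).1.1.2.1 = (r (Fin.cons j.castSucc u)).1.1.2.2
      rw [e1, e2]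
      have e3 := hy.2 (toZ (Fin.cons j.castSucc u : Fin (D + 1) → Fin (K + 1)))
      have e4 : toZ (Fin.cons j.castSucc u : Fin (D + 1) → Fin (K + 1)) + e0 =
          toZ (Fin.cons j.succ u : Fin (D + 1) → Fin (K + 1)) := by
        rw [toZ_cons, toZ_cons, cons_add_e0]
        simp
      rw [e4] at e3
      exact e3.symm
  apply Subtype.ext
  funext s
  rw [← Fin.cons_self_tail s]
  apply Subtype.ext
  refine Prod.ext (Prod.ext (h1 _) (Prod.ext ?_ ?_)) (h3 _ _)
  · rw [hr, hr]
    exact h2 _ _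
  · have := h2 (Fin.tail s) (s 0).succ
    simpa [phi] using this

end SVR
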