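import Pool.Agent.SIE.Defs
import Pool.Agent.SVR.Perron

/-!
# Pressures of shifts of finite type (MP_7034eb_an): the definitions
-/

set_option autoImplicit false

namespace SVR

open SIE Filter Topology

/-- `p` is an admissible pattern of `X` on the cube `{0, …, k-1}^d` -/
def PatX {d : ℕ} {A : Type} (X : Set (Conf d A)) (k : ℕ) (p : (Fin d → Fin k) → A) : Prop :=
  ∃ x ∈ X, ∀ s : Fin d → Fin k, p s = x (fun i => ((s i : ℕ) : ℤ))

open Classical in
/-- the sum of the products of the weights `w` of the symbols, over all admissible patterns of `X`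
on the cube `{0, …, k-1}^d` -/
noncomputable def partSum {d : ℕ} {A : Type} [Fintype A] (X : Set (Conf d A)) (w : A → ℝ)
    (k : ℕ) : ℝ :=
  ∑ p : (Fin d → Fin k) → A, if PatX X k p then ∏ s, w (p s) else 0

/-- `P` is the pressure of `X` for the weights `w` -/
def HasPressure {d : ℕ} {A : Type} [Fintype A] (X : Set (Conf d A)) (w : A → ℝ) (P : ℝ) : Prop :=
  Tendsto (fun k : ℕ => Real.log (partSum X w k) / (k : ℝ) ^ d) atTop (𝓝 P)

end SVR
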