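import Pool.Agent.SVR.PrCount

/-!
# Pressures of strongly irreducible SFTs with weights in `ℤ[θ]` (MP_7034eb_an)
-/

set_option autoImplicit false

namespace SVR

open SIE Finset Filter Topology

variable {D q K : ℕ} {A : Type}

theorem sum_prod_two {U I B : Type} [Fintype U] [DecidableEq U] [Fintype I] [DecidableEq I]
    [Fintype B] (f : U → I → B → ℝ) :
    ∑ l : U → I → B, ∏ u, ∏ i, f u i (l u i) = ∏ u, ∏ i, ∑ b, f u i b := by
  have h1 : ∀ u, ∏ i, ∑ b, f u i b = ∑ g : I → B, ∏ i, f u i (g i) := fun u => by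
    rw [Finset.prod_univ_sum, Fintype.piFinset_univ]
  simp only [h1]
  rw [Finset.prod_univ_sum, Fintype.piFinset_univ]

theorem sum_prod_one {U G : Type} [Fintype U] [DecidableEq U] [Fintype G] (f : U → G → ℝ) :
    ∑ v : U → G, ∏ u, f u (v u) = ∏ u, ∑ g, f u g := by
  rw [Finset.prod_univ_sum, Fintype.piFinset_univ]

open Classical in
theorem card_TT [Fintype A] (X : Set (Conf (D + 1) A))
    (M : A → Matrix (Fin (q + 1)) (Fin (q + 1)) ℕ) (L : ℕ) (hL : ∀ a i j, M a i j ≤ L) :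
    (Nat.card (TT X M L K) : ℝ) = ∑ p : (Fin (D + 1) → Fin (K + 1)) → A,
      if PatX X (K + 1) p then ∏ u : Fin D → Fin (K + 1),
        ∑ v : Fin (K + 1 + 1) → Fin (q + 1), ∏ i : Fin (K + 1),
          (M (p (Fin.cons i u)) (v i.castSucc) (v i.succ) : ℝ) else 0 := by
  rw [Nat.card_eq_fintype_card, Fintype.card_subtype, Finset.natCast_card_filter,
    Fintype.sum_prod_type]
  refine Finset.sum_congr rfl fun p _ => ?_
  rw [Fintype.sum_prod_type]
  by_cases hp : PatX X (K + 1) p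
  · rw [if_pos hp]
    rw [← sum_prod_one (fun (u : Fin D → Fin (K + 1)) (v : Fin (K + 1 + 1) → Fin (q + 1)) =>
      ∏ i : Fin (K + 1), (M (p (Fin.cons i u)) (v i.castSucc) (v i.succ) : ℝ))]
    refine Finset.sum_congr rfl fun v _ => ?_
    have h1 : ∀ l : (Fin D → Fin (K + 1)) → Fin (K + 1) → Fin L,
        (if PatX X (K + 1) p ∧ ∀ u i, (l u i).1 <
          M (p (Fin.cons i u)) (v u i.castSucc) (v u i.succ) then (1 : ℝ) else 0) =
        ∏ u, ∏ i, (if (l u i).1 < M (p (Fin.cons i u)) (v u i.castSucc) (v u i.succ) then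
          (1 : ℝ) else 0) := by
      intro l
      by_cases h : ∀ u i, (l u i).1 < M (p (Fin.cons i u)) (v u i.castSucc) (v u i.succ)
      · rw [if_pos ⟨hp, h⟩]
        symm
        exact Finset.prod_eq_one fun u _ => Finset.prod_eq_one fun i _ => if_pos (h u i)
      · rw [if_neg fun h' => h h'.2]
        push Not at h
        obtain ⟨u, i, hui⟩ := h
        symm
        exact Finset.prod_eq_zero (mem_univ u) (Finset.prod_eq_zero (mem_univ i)
          (if_neg (not_lt.2 hui)))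
    simp only [h1]
    rw [sum_prod_two (fun u i (b : Fin L) => if b.1 <
      M (p (Fin.cons i u)) (v u i.castSucc) (v u i.succ) then (1 : ℝ) else 0)]
    refine Finset.prod_congr rfl fun u _ => Finset.prod_congr rfl fun i _ => ?_
    rw [← Finset.natCast_card_filter]
    have := hL (p (Fin.cons i u)) (v u i.castSucc) (v u i.succ)
    simp [Fin.card_filter_val_lt, this]
  · rw [if_neg hp]
    refine Finset.sum_eq_zero fun v _ => Finset.sum_eq_zero fun l _ => ?_
    exact if_neg fun h => hp h.1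

theorem row_bounds (M : A → Matrix (Fin (q + 1)) (Fin (q + 1)) ℕ) (φ : Fin (q + 1) → ℝ)
    (hφ : ∀ i, 0 < φ i) (w : A → ℝ)
    (hB : ∀ a i, ∑ j, (M a i j : ℝ) * φ j = w a * φ i) :
    ∃ C : ℝ, 1 ≤ C ∧ ∀ (k : ℕ) (b : Fin k → A), (∀ i, 0 ≤ w (b i)) →
      (∏ i, w (b i) ≤ ∑ v : Fin (k + 1) → Fin (q + 1), ∏ i : Fin k,
        (M (b i) (v i.castSucc) (v i.succ) : ℝ)) ∧
      ∑ v : Fin (k + 1) → Fin (q + 1), ∏ i : Fin k,
        (M (b i) (v i.castSucc) (v i.succ) : ℝ) ≤ C * ∏ i, w (b i) := by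
  obtain ⟨j1, hj1⟩ := Finite.exists_min φ
  obtain ⟨j2, hj2⟩ := Finite.exists_max φ
  have hS : φ j2 ≤ ∑ a, φ a := Finset.single_le_sum (f := φ) (fun a _ => (hφ a).le) (mem_univ j2)
  refine ⟨(∑ a, φ a) / φ j1, (one_le_div (hφ j1)).2 ((hj1 j2).trans hS), fun k b hb => ?_⟩
  have key := chain_open φ k (fun i => M (b i)) (fun i => w (b i)) (fun i a => hB (b i) a)
    (fun _ => 1)
  simp only [one_mul] at key
  have hpos : ∀ v : Fin (k + 1) → Fin (q + 1),
      0 ≤ ∏ i : Fin k, (M (b i) (v i.castSucc) (v i.succ) : ℝ) := fun v =>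
    Finset.prod_nonneg fun i _ => Nat.cast_nonneg _
  have hw0 : 0 ≤ ∏ i, w (b i) := Finset.prod_nonneg fun i _ => hb i
  have u1 : ∑ v : Fin (k + 1) → Fin (q + 1), (∏ i : Fin k,
      (M (b i) (v i.castSucc) (v i.succ) : ℝ)) * φ (v (Fin.last k)) ≤
      (∑ v : Fin (k + 1) → Fin (q + 1), ∏ i : Fin k,
      (M (b i) (v i.castSucc) (v i.succ) : ℝ)) * φ j2 := by
    rw [Finset.sum_mul]
    exact Finset.sum_le_sum fun v _ => mul_le_mul_of_nonneg_left (hj2 _) (hpos v)
  have u2 : (∑ v : Fin (k + 1) → Fin (q + 1), ∏ i : Fin k,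
      (M (b i) (v i.castSucc) (v i.succ) : ℝ)) * φ j1 ≤
      ∑ v : Fin (k + 1) → Fin (q + 1), (∏ i : Fin k,
      (M (b i) (v i.castSucc) (v i.succ) : ℝ)) * φ (v (Fin.last k)) := by
    rw [Finset.sum_mul]
    exact Finset.sum_le_sum fun v _ => mul_le_mul_of_nonneg_left (hj1 _) (hpos v)
  rw [key] at u1 u2
  constructor
  · have h1 : (∏ i, w (b i)) * φ j2 ≤ (∏ i, w (b i)) * ∑ a, φ a :=
      mul_le_mul_of_nonneg_left hS hw0
    exact le_of_mul_le_mul_right (h1.trans u1) (hφ j2)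
  · rw [div_mul_eq_mul_div, le_div_iff₀ (hφ j1), mul_comm (∑ a, φ a)]
    exact u2

theorem prod_sites (f : (Fin (D + 1) → Fin (K + 1)) → ℝ) :
    ∏ s, f s = ∏ u : Fin D → Fin (K + 1), ∏ i : Fin (K + 1), f (Fin.cons i u) := by
  rw [← Equiv.prod_comp (Fin.consEquiv (fun _ : Fin (D + 1) => Fin (K + 1))),
    Fintype.prod_prod_type, Finset.prod_comm]
  rfl

theorem partSum_pos [Fintype A] {d : ℕ} (X : Set (Conf d A)) (hne : X.Nonempty) (w : A → ℝ)
    (hw : ∀ a, 0 < w a) (k : ℕ) : 0 < partSum X w k := by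
  classical
  unfold partSum
  obtain ⟨x, hx⟩ := hne
  refine Finset.sum_pos' (fun p _ => ?_) ⟨fun s => x (toZ s), mem_univ _, ?_⟩
  · split_ifs
    · exact Finset.prod_nonneg fun s _ => (hw _).le
    · exact le_rfl
  · rw [if_pos ⟨x, hx, fun s => rfl⟩]
    exact Finset.prod_pos fun s _ => hw _

theorem partSum_scale [Fintype A] {d : ℕ} (X : Set (Conf d A)) (w : A → ℝ) (t : ℝ) (k : ℕ) :
    partSum X (fun a => t * w a) k = t ^ (k ^ d) * partSum X w k := by
  classical
  unfold partSum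
  rw [Finset.mul_sum]
  refine Finset.sum_congr rfl fun p _ => ?_
  split_ifs
  · rw [Finset.prod_mul_distrib]
    simp
  · simp

/-- the number of patterns of the system -/
theorem count_YY [Fintype A] (X : Set (Conf (D + 1) A))
    (M : A → Matrix (Fin (q + 1)) (Fin (q + 1)) ℕ) (L : ℕ) (hL : ∀ a i j, M a i j ≤ L)
    (hM1 : ∀ a i j, 1 ≤ M a i j) (φ : Fin (q + 1) → ℝ)
    (hφ : ∀ i, 0 < φ i) (w : A → ℝ) (hw : ∀ a, 0 < w a)
    (hB : ∀ a i, ∑ j, (M a i j : ℝ) * φ j = w a * φ i) :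
    ∃ C : ℝ, 1 ≤ C ∧ ∀ K : ℕ,
      partSum X w (K + 1) ≤ (numPatterns (YY (M := M) (L := L) X) (K + 1) : ℝ) ∧
      (numPatterns (YY (M := M) (L := L) X) (K + 1) : ℝ) ≤
        C ^ ((K + 1) ^ D) * partSum X w (K + 1) := by
  classical
  obtain ⟨C, hC, hb⟩ := row_bounds M φ hφ w hB
  refine ⟨C, hC, fun K => ?_⟩
  have hcard : numPatterns (YY (M := M) (L := L) X) (K + 1) = Nat.card (TT X M L K) := by
    rw [numPatterns_eq]
    refine le_antisymm ?_ ?_
    · exact Nat.card_le_card_of_injective _ (phi_inj (M := M) (L := L) (K := K) X)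
    · exact Nat.card_le_card_of_injective (fun t : TT X M L K =>
        (⟨psi t, psi_mem hM1 hL X t⟩ : {r : (Fin (D + 1) → Fin (K + 1)) → Bt M L //
          PatX (YY (M := M) (L := L) X) (K + 1) r}))
        fun t t' h => psi_inj X (congrArg Subtype.val h)
  rw [hcard, card_TT X M L hL]
  unfold partSum
  constructor
  · refine Finset.sum_le_sum fun p _ => ?_
    split_ifs with hp
    · rw [prod_sites (fun s => w (p s))]
      exact Finset.prod_le_prod (fun u _ => Finset.prod_nonneg fun i _ => (hw _).le)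
        fun u _ => (hb (K + 1) (fun i => p (Fin.cons i u)) fun i => (hw _).le).1
    · exact le_rfl
  · rw [Finset.mul_sum]
    refine Finset.sum_le_sum fun p _ => ?_
    split_ifs with hp
    · rw [prod_sites (fun s => w (p s))]
      have h1 : C ^ ((K + 1) ^ D) * ∏ u : Fin D → Fin (K + 1), ∏ i : Fin (K + 1),
          w (p (Fin.cons i u)) = ∏ u : Fin D → Fin (K + 1), (C * ∏ i : Fin (K + 1),
          w (p (Fin.cons i u))) := by
        rw [Finset.prod_mul_distrib]
        simp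
      rw [h1]
      exact Finset.prod_le_prod (fun u _ => Finset.sum_nonneg fun v _ =>
        Finset.prod_nonneg fun i _ => Nat.cast_nonneg _)
        fun u _ => (hb (K + 1) (fun i => p (Fin.cons i u)) fun i => (hw _).le).2
    · simp

/-- **Pressures.** -/
theorem pr_main [Fintype A] (X : Set (Conf (D + 1) A)) (hX : IsSFT X) (hne : X.Nonempty)
    (hSI : StronglyIrreducible X) (θ : ℝ) (hθ : IsPerron θ) (w : A → ℝ) (hw : ∀ a, 0 < w a)
    (hwm : ∀ a, w a ∈ ZRing θ) (P : ℝ) (hP : HasPressure X w P) :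
    ∃ N0 : ℕ, ∀ N : ℕ, N0 ≤ N → N * Real.log θ + P ∈ E (D + 1) := by
  obtain ⟨q, C, φ, hp, hφ, hC⟩ := hθ
  have hθ0 := theta_pos C φ θ hC hφ hp
  choose N0 hN0 using fun a => posmat C φ θ hC hφ hp (w a) ((ZRing_eq _ _).1 (hwm a)) (hw a)
  refine ⟨∑ a, N0 a, fun N hN => ?_⟩
  have hle : ∀ a, N0 a ≤ N := fun a => le_trans
    (Finset.single_le_sum (f := N0) (fun _ _ => Nat.zero_le _) (mem_univ a)) hN
  choose M hM1 hB using fun a => hN0 a N (hle a)
  have hLex : ∃ L, ∀ a i j, M a i j ≤ L := by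
    refine ⟨∑ a, ∑ i, ∑ j, M a i j, fun a i j => ?_⟩
    calc M a i j ≤ ∑ j, M a i j :=
        Finset.single_le_sum (f := fun j => M a i j) (fun _ _ => Nat.zero_le _) (mem_univ j)
      _ ≤ ∑ i, ∑ j, M a i j :=
        Finset.single_le_sum (f := fun i => ∑ j, M a i j) (fun _ _ => Nat.zero_le _) (mem_univ i)
      _ ≤ _ :=
        Finset.single_le_sum (f := fun a => ∑ i, ∑ j, M a i j) (fun _ _ => Nat.zero_le _)
          (mem_univ a)
  obtain ⟨L, hL⟩ := hLex
  have hw' : ∀ a, 0 < θ ^ N * w a := fun a => mul_pos (pow_pos hθ0 N) (hw a)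
  obtain ⟨C1, hC1, hcount⟩ := count_YY X M L hL hM1 φ hφ (fun a => θ ^ N * w a) hw' hB
  refine ⟨Bt M L, inferInstance, YY X, YY_sft X hX, YY_nonempty hM1 hL X hne,
    YY_si hM1 hL X hSI, ?_⟩
  unfold HasEntropy
  have hlow : Tendsto (fun k : ℕ => N * Real.log θ +
      Real.log (partSum X w k) / (k : ℝ) ^ (D + 1)) atTop (𝓝 (N * Real.log θ + P)) :=
    tendsto_const_nhds.add hP
  have hupp : Tendsto (fun k : ℕ => N * Real.log θ +
      Real.log (partSum X w k) / (k : ℝ) ^ (D + 1) + Real.log C1 / k) atTop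
      (𝓝 (N * Real.log θ + P)) := by
    have := hlow.add (tendsto_const_div_atTop_nhds_zero_nat (Real.log C1))
    rwa [add_zero] at this
  have key : ∀ k : ℕ, 1 ≤ k →
      N * Real.log θ + Real.log (partSum X w k) / (k : ℝ) ^ (D + 1) ≤
        Real.log (numPatterns (YY (M := M) (L := L) X) k) / (k : ℝ) ^ (D + 1) ∧
      Real.log (numPatterns (YY (M := M) (L := L) X) k) / (k : ℝ) ^ (D + 1) ≤
        N * Real.log θ + Real.log (partSum X w k) / (k : ℝ) ^ (D + 1) + Real.log C1 / k := by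
    intro k hk
    obtain ⟨K, rfl⟩ : ∃ K, k = K + 1 := ⟨k - 1, by omega⟩
    obtain ⟨c1, c2⟩ := hcount K
    rw [partSum_scale] at c1 c2
    have p0 : 0 < partSum X w (K + 1) := partSum_pos X hne w hw (K + 1)
    have p1 : 0 < (θ ^ N) ^ ((K + 1) ^ (D + 1)) * partSum X w (K + 1) := by positivity
    have p2 : (0 : ℝ) < (numPatterns (YY (M := M) (L := L) X) (K + 1) : ℝ) := p1.trans_le c1
    have l1 := Real.log_le_log p1 c1
    have l2 := Real.log_le_log p2 c2
    rw [Real.log_mul (by positivity) (by positivity), Real.log_pow, Real.log_pow] at l1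
    rw [Real.log_mul (by positivity) (by positivity), Real.log_mul (by positivity) (by positivity),
      Real.log_pow, Real.log_pow, Real.log_pow] at l2
    have hk0 : (0 : ℝ) < ((K + 1 : ℕ) : ℝ) := by positivity
    have e1 : ((((K + 1) ^ (D + 1) : ℕ)) : ℝ) = ((K + 1 : ℕ) : ℝ) ^ (D + 1) := by push_cast; rfl
    have e2 : ((((K + 1) ^ D : ℕ)) : ℝ) = ((K + 1 : ℕ) : ℝ) ^ D := by push_cast; rfl
    rw [e1] at l1 l2
    rw [e2] at l2
    have hkD : (0 : ℝ) < ((K + 1 : ℕ) : ℝ) ^ (D + 1) := by positivity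
    constructor
    · rw [le_div_iff₀ hkD]
      refine le_trans (le_of_eq ?_) l1
      field_simp
    · rw [div_le_iff₀ hkD]
      refine l2.trans (le_of_eq ?_)
      rw [pow_succ]
      field_simp
      ring
  refine tendsto_of_tendsto_of_tendsto_of_le_of_le' hlow hupp ?_ ?_
  · filter_upwards [eventually_ge_atTop 1] with k hk
    exact (key k hk).1
  · filter_upwards [eventually_ge_atTop 1] with k hk
    exact (key k hk).2

end SVR
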