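import Pool.Agent.SVR.PrDefs

/-!
# The shift of finite type with row states and labels (MP_7034eb_an)
-/

set_option autoImplicit false

namespace SVR

open SIE

/-- a set of configurations given by a local condition is a shift of finite type -/
theorem sft_of_window {d : ℕ} {A : Type} [Finite A] (W : Finset (Site d)) (Q : Conf d A → Prop)
    (hQ : ∀ x x' : Conf d A, (∀ s ∈ W, x s = x' s) → Q x → Q x') :
    IsSFT {x : Conf d A | ∀ t, Q (fun s => x (t + s))} := by
  classical
  rcases isEmpty_or_nonempty A with hA | ⟨⟨a0⟩⟩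
  · refine ⟨∅, Set.finite_empty, ?_⟩
    ext x
    exact (hA.false (x 0)).elim
  · set ex : (W → A) → Conf d A := fun r s => if h : s ∈ W then r ⟨s, h⟩ else a0 with hex
    refine ⟨(fun r : W → A => (W, ex r)) '' {r | ¬ Q (ex r)}, Set.toFinite _, ?_⟩
    ext x
    constructor
    · rintro hx p ⟨r, hr, rfl⟩ t
      by_contra hcon
      push Not at hcon
      exact hr (hQ _ _ (fun s hs => hcon s hs) (hx t))
    · intro hx t
      by_contra hcon
      have hr : ¬ Q (ex fun s => x (t + s.1)) := fun h => hcon (hQ _ _ (fun s hs => by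
        simp only [hex, dif_pos hs]) h)
      obtain ⟨s, hs, hne⟩ := hx (W, ex fun s => x (t + s.1))
        ⟨fun s => x (t + s.1), hr, rfl⟩ t
      apply hne
      simp only [hex, dif_pos hs]

variable {D q : ℕ} {A : Type} (M : A → Matrix (Fin (q + 1)) (Fin (q + 1)) ℕ) (L : ℕ)

/-- symbols with the states of the two ends of an edge of the row and a label -/
abbrev Bt : Type := {t : (A × Fin (q + 1) × Fin (q + 1)) × Fin L //
  t.2.1 < M t.1.1 t.1.2.1 t.1.2.2}

/-- the unit vector of the rows -/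
def e0 : Site (D + 1) := Pi.single 0 1

variable {M L}

/-- the system -/
def YY (X : Set (Conf (D + 1) A)) : Set (Conf (D + 1) (Bt M L)) :=
  {y | (fun s => (y s).1.1.1) ∈ X ∧ ∀ s, (y s).1.1.2.2 = (y (s + e0)).1.1.2.1}

/-- the symbol with given entries, the label replaced by `0` if it is too large -/
def mkB (hM1 : ∀ a i j, 1 ≤ M a i j) (hL : ∀ a i j, M a i j ≤ L) (a : A) (i j : Fin (q + 1))
    (l : ℕ) : Bt M L :=
  ⟨((a, i, j), if h : l < M a i j then ⟨l, lt_of_lt_of_le h (hL a i j)⟩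
    else ⟨0, lt_of_lt_of_le (hM1 a i j) (hL a i j)⟩), by
      split_ifs with h
      · exact h
      · exact hM1 a i j⟩

theorem mkB_self (hM1 : ∀ a i j, 1 ≤ M a i j) (hL : ∀ a i j, M a i j ≤ L) (t : Bt M L) :
    mkB hM1 hL t.1.1.1 t.1.1.2.1 t.1.1.2.2 t.1.2.1 = t := by
  apply Subtype.ext
  unfold mkB
  simp [t.2]

theorem mkB_mem (hM1 : ∀ a i j, 1 ≤ M a i j) (hL : ∀ a i j, M a i j ≤ L)
    (X : Set (Conf (D + 1) A)) (x : Conf (D + 1) A) (hx : x ∈ X) (v : Site (D + 1) → Fin (q + 1))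
    (l : Site (D + 1) → ℕ) :
    (fun s => mkB hM1 hL (x s) (v s) (v (s + e0)) (l s)) ∈ YY (M := M) (L := L) X :=
  ⟨hx, fun _ => rfl⟩

theorem YY_sft [Finite A] (X : Set (Conf (D + 1) A)) (hX : IsSFT X) :
    IsSFT (YY (M := M) (L := L) X) := by
  classical
  obtain ⟨P, hP, rfl⟩ := hX
  have key := sft_of_window (A := Bt M L) (d := D + 1)
    (({0, e0} : Finset (Site (D + 1))) ∪ hP.toFinset.biUnion (fun p => p.1))
    (fun y => (∀ p ∈ P, ∃ s ∈ p.1, (y s).1.1.1 ≠ p.2 s) ∧ (y 0).1.1.2.2 = (y e0).1.1.2.1) ?_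
  · convert key using 1
    ext y
    constructor
    · rintro ⟨h1, h2⟩ t
      refine ⟨fun p hp => h1 p hp t, ?_⟩
      simp only [add_zero]
      exact h2 t
    · intro h
      refine ⟨fun p hp t => (h t).1 p hp, fun s => ?_⟩
      have := (h s).2
      simpa only [add_zero] using this
  · rintro y y' h ⟨h1, h2⟩
    refine ⟨fun p hp => ?_, ?_⟩
    · obtain ⟨s, hs, hne⟩ := h1 p hp
      refine ⟨s, hs, ?_⟩
      rw [← h s (Finset.mem_union_right _ (Finset.mem_biUnion.2
        ⟨p, hP.mem_toFinset.2 hp, hs⟩))]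
      exact hne
    · rw [← h 0 (Finset.mem_union_left _ (by simp)), ← h e0 (Finset.mem_union_left _ (by simp))]
      exact h2

theorem YY_nonempty (hM1 : ∀ a i j, 1 ≤ M a i j) (hL : ∀ a i j, M a i j ≤ L)
    (X : Set (Conf (D + 1) A)) (hne : X.Nonempty) : (YY (M := M) (L := L) X).Nonempty := by
  obtain ⟨x, hx⟩ := hne
  exact ⟨_, mkB_mem hM1 hL X x hx (fun _ => 0) (fun _ => 0)⟩

open Classical in
theorem YY_si (hM1 : ∀ a i j, 1 ≤ M a i j) (hL : ∀ a i j, M a i j ≤ L)
    (X : Set (Conf (D + 1) A)) (hX : StronglyIrreducible X) :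
    StronglyIrreducible (YY (M := M) (L := L) X) := by
  obtain ⟨m, hm, hX⟩ := hX
  refine ⟨max m 2, by omega, fun F G hFG y hy y' hy' => ?_⟩
  obtain ⟨z, hz, hzF, hzG⟩ := hX F G (fun s hs t ht => by
    obtain ⟨i, hi⟩ := hFG s hs t ht
    refine ⟨i, le_trans ?_ hi⟩
    push_cast
    exact le_max_left _ _) _ hy.1 _ hy'.1
  have far : ∀ s ∈ F, ∀ t ∈ G, ∃ i, (2 : ℤ) ≤ |s i - t i| := by
    intro s hs t ht
    obtain ⟨i, hi⟩ := hFG s hs t ht
    refine ⟨i, le_trans ?_ hi⟩
    push_cast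
    exact le_max_right _ _
  have he : ∀ i, |(e0 : Site (D + 1)) i| ≤ 1 := by
    intro i
    unfold e0
    by_cases h : i = 0
    · subst h; simp
    · simp [Pi.single_eq_of_ne h]
  set v : Site (D + 1) → Fin (q + 1) := fun s =>
    if s ∈ F ∨ s - e0 ∈ F then (y s).1.1.2.1 else (y' s).1.1.2.1 with hv
  set l : Site (D + 1) → ℕ := fun s => if s ∈ F then (y s).1.2.1 else (y' s).1.2.1 with hl
  refine ⟨_, mkB_mem hM1 hL X z hz v l, fun s hs => ?_, fun s hs => ?_⟩
  · have h1 : z s = (y s).1.1.1 := hzF s hs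
    have h2 : v s = (y s).1.1.2.1 := by simp only [hv, if_pos (Or.inl hs)]
    have h3 : v (s + e0) = (y s).1.1.2.2 := by
      rw [hy.2 s]
      simp only [hv]
      rw [if_pos (Or.inr (by rwa [add_sub_cancel_right]))]
    have h4 : l s = (y s).1.2.1 := by simp only [hl, if_pos hs]
    simp only [h1, h2, h3, h4]
    exact mkB_self hM1 hL _
  · have n1 : s ∉ F := fun h => by
      obtain ⟨i, hi⟩ := far s h s hs
      simp at hi
    have n2 : s - e0 ∉ F := fun h => by
      obtain ⟨i, hi⟩ := far _ h s hs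
      have h5 := he i
      have h6 : (s - (e0 : Site (D + 1))) i - s i = - (e0 : Site (D + 1)) i := by
        rw [Pi.sub_apply]; ring
      rw [h6, abs_neg] at hi
      omega
    have n3 : s + e0 ∉ F := fun h => by
      obtain ⟨i, hi⟩ := far _ h s hs
      have h5 := he i
      have h6 : (s + (e0 : Site (D + 1))) i - s i = (e0 : Site (D + 1)) i := by
        rw [Pi.add_apply]; ring
      rw [h6] at hi
      omega
    have h1 : z s = (y' s).1.1.1 := hzG s hs
    have h2 : v s = (y' s).1.1.2.1 := by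
      simp only [hv]
      rw [if_neg (by tauto)]
    have h3 : v (s + e0) = (y' s).1.1.2.2 := by
      rw [hy'.2 s]
      simp only [hv]
      rw [if_neg]
      rw [add_sub_cancel_right]
      tauto
    have h4 : l s = (y' s).1.2.1 := by simp only [hl, if_neg n1]
    simp only [h1, h2, h3, h4]
    exact mkB_self hM1 hL _

end SVR
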