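import Pool.Agent.SVR.Spin

/-!
# Existence of the free energy with an explicit error term (MP_7034eb_an)
-/

set_option autoImplicit false

namespace SVR

open Filter Topology

/-- a sequence which is almost quadratic under multiplication of the argument -/
theorem quad (a : ℕ → ℝ) (L : ℝ)
    (h : ∀ m n : ℕ, 1 ≤ m → 1 ≤ n → |a (m * n) - (m : ℝ) ^ 2 * a n| ≤ (m : ℝ) ^ 2 * n * L) :
    ∃ H : ℝ, ∀ n : ℕ, 1 ≤ n → |a n - (n : ℝ) ^ 2 * H| ≤ n * L := by
  have h1 : ∀ m n : ℕ, 1 ≤ m → 1 ≤ n → |a (m * n) / ((m : ℝ) ^ 2 * (n : ℝ) ^ 2) - a n / (n : ℝ) ^ 2| ≤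
      L / n := by
    intro m n hm hn
    have hm0 : (0 : ℝ) < m := by exact_mod_cast hm
    have hn0 : (0 : ℝ) < n := by exact_mod_cast hn
    have e : a (m * n) / ((m : ℝ) ^ 2 * (n : ℝ) ^ 2) - a n / (n : ℝ) ^ 2 =
        (a (m * n) - (m : ℝ) ^ 2 * a n) / ((m : ℝ) ^ 2 * (n : ℝ) ^ 2) := by
      field_simp
    rw [e, abs_div, abs_of_pos (show (0 : ℝ) < (m : ℝ) ^ 2 * (n : ℝ) ^ 2 by positivity),
      div_le_div_iff₀ (by positivity) hn0]
    have := h m n hm hn
    nlinarith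
  have h2 : ∀ m n : ℕ, 1 ≤ m → 1 ≤ n → |a m / (m : ℝ) ^ 2 - a n / (n : ℝ) ^ 2| ≤ L / m + L / n := by
    intro m n hm hn
    have e1 := h1 m n hm hn
    have e2 := h1 n m hn hm
    rw [mul_comm n m, mul_comm ((n : ℝ) ^ 2)] at e2
    rw [abs_le] at e1 e2 ⊢
    constructor <;> linarith [e1.1, e1.2, e2.1, e2.2]
  have hL : 0 ≤ L := by
    have := h 1 1 le_rfl le_rfl
    have h0 := abs_nonneg (a (1 * 1) - ((1 : ℕ) : ℝ) ^ 2 * a 1)
    push_cast at this h0
    linarith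
  set u : ℕ → ℝ := fun k => a (k + 1) / ((k + 1 : ℕ) : ℝ) ^ 2 with hu
  have hc : CauchySeq u := by
    refine cauchySeq_of_le_tendsto_0 (fun N : ℕ => 2 * L / ((N : ℝ) + 1)) (fun n m N hn hm => ?_) ?_
    · rw [Real.dist_eq]
      refine (h2 (n + 1) (m + 1) (by omega) (by omega)).trans ?_
      have g1 : L / ((n + 1 : ℕ) : ℝ) ≤ L / ((N : ℝ) + 1) := by
        push_cast
        gcongr
      have g2 : L / ((m + 1 : ℕ) : ℝ) ≤ L / ((N : ℝ) + 1) := by
        push_cast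
        gcongr
      calc _ ≤ L / ((N : ℝ) + 1) + L / ((N : ℝ) + 1) := add_le_add g1 g2
        _ = _ := by ring
    · have := tendsto_one_div_add_atTop_nhds_zero_nat (𝕜 := ℝ)
      have h3 := this.const_mul (2 * L)
      rw [mul_zero] at h3
      refine h3.congr fun N => ?_
      ring
  obtain ⟨H, hH⟩ := cauchySeq_tendsto_of_complete hc
  refine ⟨H, fun n hn => ?_⟩
  have hn0 : (0 : ℝ) < n := by exact_mod_cast hn
  have h4 : Tendsto (fun k => |a n / (n : ℝ) ^ 2 - u k|) atTop (𝓝 |a n / (n : ℝ) ^ 2 - H|) :=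
    (tendsto_const_nhds.sub hH).abs
  have h5 : Tendsto (fun k : ℕ => L / n + L * (1 / ((k : ℝ) + 1))) atTop (𝓝 (L / n + L * 0)) :=
    tendsto_const_nhds.add ((tendsto_one_div_add_atTop_nhds_zero_nat (𝕜 := ℝ)).const_mul L)
  rw [mul_zero, add_zero] at h5
  have h6 : |a n / (n : ℝ) ^ 2 - H| ≤ L / n := by
    refine le_of_tendsto_of_tendsto' h4 h5 fun k => ?_
    refine (h2 n (k + 1) hn (by omega)).trans (le_of_eq ?_)
    push_cast
    ring
  have e : a n - (n : ℝ) ^ 2 * H = (n : ℝ) ^ 2 * (a n / (n : ℝ) ^ 2 - H) := by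
    field_simp
  rw [e, abs_mul, abs_of_pos (by positivity : (0 : ℝ) < (n : ℝ) ^ 2)]
  calc (n : ℝ) ^ 2 * |a n / (n : ℝ) ^ 2 - H| ≤ (n : ℝ) ^ 2 * (L / n) := by gcongr
    _ = n * L := by field_simp

/-- the free energy of a face model with positive weights exists -/
theorem spin_quad {S : Type} [Fintype S] [Nonempty S] (W : S → S → S → S → ℝ)
    (hW : ∀ a b c d, 0 < W a b c d) :
    ∃ (H K : ℝ), ∀ n : ℕ, 1 ≤ n → |Real.log (spin (cyc n) W) - (n : ℝ) ^ 2 * H| ≤ n * K := by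
  obtain ⟨t1, ht1⟩ := Finite.exists_min fun t : S × S × S × S => W t.1 t.2.1 t.2.2.1 t.2.2.2
  obtain ⟨t2, ht2⟩ := Finite.exists_max fun t : S × S × S × S => W t.1 t.2.1 t.2.2.1 t.2.2.2
  set m1 := W t1.1 t1.2.1 t1.2.2.1 t1.2.2.2 with hm1
  set m2 := W t2.1 t2.2.1 t2.2.2.1 t2.2.2.2 with hm2
  have hm1p : 0 < m1 := hW _ _ _ _
  set L : ℝ := m2 / m1 with hLdef
  have hL : 1 ≤ L := (one_le_div hm1p).2 (ht1 t2)
  have hWL : ∀ a b c d a' b' c' d', W a b c d ≤ L * W a' b' c' d' := by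
    intro a b c d a' b' c' d'
    have h1 := ht2 (a, b, c, d)
    have h2 := ht1 (a', b', c', d')
    simp only at h1 h2
    have h3 : m2 = L * m1 := by rw [hLdef]; field_simp
    calc W a b c d ≤ m2 := h1
      _ = L * m1 := h3
      _ ≤ L * W a' b' c' d' := mul_le_mul_of_nonneg_left h2 (by linarith)
  obtain ⟨H, hH⟩ := quad (fun n => Real.log (spin (cyc n) W)) (2 * Real.log L) fun m n hm hn => by
    obtain ⟨t1, t2⟩ := tile m n W L hL (fun a b c d => (hW a b c d).le) hWL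
    have p1 : 0 < spin (cyc n) W := spin_pos _ W hW
    have p2 : 0 < spin (cyc (m * n)) W := spin_pos _ W hW
    have p3 : 0 < L := by linarith
    have l1 := Real.log_le_log p2 t1
    have l2 := Real.log_le_log (by positivity) t2
    rw [Real.log_mul (by positivity) (by positivity), Real.log_pow, Real.log_pow] at l1
    rw [Real.log_mul (by positivity) (by positivity), Real.log_pow, Real.log_pow] at l2
    push_cast at l1 l2
    rw [abs_le]
    constructor <;> nlinarith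
  exact ⟨H, _, hH⟩

end SVR
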