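import Pool.Agent.SIE.Transfer
import Pool.Agent.SVR.Quad

/-!
# The strongly irreducible system of face spins with labels (MP_7034eb_an)
-/

set_option autoImplicit false

namespace SVR

open Finset

variable {S : Type} (W : S → S → S → S → ℕ) (M : ℕ)

/-- the alphabet: the spins of the faces south west, south east, north west, north east of the
site, and a label smaller than the weight -/
abbrev Sy : Type := {p : (S × S × S × S) × Fin M //
  p.2.1 < W p.1.1 p.1.2.1 p.1.2.2.1 p.1.2.2.2}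

variable {W M}

/-- the horizontal relation -/
def RH (p q : Sy W M) : Prop := p.1.1.2.1 = q.1.1.1 ∧ p.1.1.2.2.2 = q.1.1.2.2.1

/-- the vertical relation -/
def RV (p q : Sy W M) : Prop := p.1.1.2.2.1 = q.1.1.1 ∧ p.1.1.2.2.2 = q.1.1.2.1

/-- the symbol with given spins and label (the label is replaced by `0` if it is too large) -/
def mk (hW' : ∀ a b c d, 1 ≤ W a b c d) (hM : ∀ a b c d, W a b c d ≤ M) (a b c d : S) (l : ℕ) :
    Sy W M :=
  ⟨((a, b, c, d), if h : l < W a b c d then ⟨l, lt_of_lt_of_le h (hM a b c d)⟩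
    else ⟨0, lt_of_lt_of_le (hW' a b c d) (hM a b c d)⟩), by
      split_ifs with h
      · exact h
      · exact hW' a b c d⟩

theorem mk_self (hW' : ∀ a b c d, 1 ≤ W a b c d) (hM : ∀ a b c d, W a b c d ≤ M) (p : Sy W M) :
    mk hW' hM p.1.1.1 p.1.1.2.1 p.1.1.2.2.1 p.1.1.2.2.2 p.1.2.1 = p := by
  apply Subtype.ext
  unfold mk
  simp [p.2]

theorem sys_spins {x : ℤ → ℤ → Sy W M} (hx : x ∈ SIE.Sys2 (RH (W := W) (M := M)) RV) (m n : ℤ) :
    (x m n).1.1.2.1 = (x (m + 1) n).1.1.1 ∧ (x m n).1.1.2.2.1 = (x m (n + 1)).1.1.1 ∧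
      (x m n).1.1.2.2.2 = (x (m + 1) (n + 1)).1.1.1 :=
  ⟨(hx m n).1.1, (hx m n).2.1, (hx m n).1.2.trans (hx (m + 1) n).2.1⟩

theorem sys_of (hW' : ∀ a b c d, 1 ≤ W a b c d) (hM : ∀ a b c d, W a b c d ≤ M)
    (s : ℤ → ℤ → S) (l : ℤ → ℤ → ℕ) :
    (fun m n => mk hW' hM (s m n) (s (m + 1) n) (s m (n + 1)) (s (m + 1) (n + 1)) (l m n)) ∈
      SIE.Sys2 (RH (W := W) (M := M)) RV :=
  fun _ _ => ⟨⟨rfl, rfl⟩, ⟨rfl, rfl⟩⟩

theorem sys_eq (hW' : ∀ a b c d, 1 ≤ W a b c d) (hM : ∀ a b c d, W a b c d ≤ M)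
    {x : ℤ → ℤ → Sy W M} (hx : x ∈ SIE.Sys2 (RH (W := W) (M := M)) RV) (s : ℤ → ℤ → S)
    (l : ℕ) (m n : ℤ) (h1 : s m n = (x m n).1.1.1) (h2 : s (m + 1) n = (x (m + 1) n).1.1.1)
    (h3 : s m (n + 1) = (x m (n + 1)).1.1.1) (h4 : s (m + 1) (n + 1) = (x (m + 1) (n + 1)).1.1.1)
    (hl : l = (x m n).1.2.1) :
    mk hW' hM (s m n) (s (m + 1) n) (s m (n + 1)) (s (m + 1) (n + 1)) l = x m n := by
  obtain ⟨e1, e2, e3⟩ := sys_spins hx m n
  rw [h1, h2, h3, h4, ← e1, ← e2, ← e3, hl]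
  exact mk_self hW' hM _

open Classical in
theorem sys_si (hW' : ∀ a b c d, 1 ≤ W a b c d) (hM : ∀ a b c d, W a b c d ≤ M) :
    SIE.SI2 (SIE.Sys2 (RH (W := W) (M := M)) RV) := by
  refine ⟨2, by norm_num, fun F G hFG x hx y hy => ?_⟩
  set A : Set (ℤ × ℤ) := {p | ∃ q ∈ F, (p.1 = q.1 ∨ p.1 = q.1 + 1) ∧ (p.2 = q.2 ∨ p.2 = q.2 + 1)}
    with hA
  set s : ℤ → ℤ → S := fun m n => if (m, n) ∈ A then (x m n).1.1.1 else (y m n).1.1.1 with hs
  refine ⟨_, sys_of hW' hM s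
    (fun m n => if (m, n) ∈ F then (x m n).1.2.1 else (y m n).1.2.1), ?_, ?_⟩
  · rintro ⟨m, n⟩ hmn
    have k1 : (m, n) ∈ A := ⟨(m, n), hmn, Or.inl rfl, Or.inl rfl⟩
    have k2 : (m + 1, n) ∈ A := ⟨(m, n), hmn, Or.inr rfl, Or.inl rfl⟩
    have k3 : (m, n + 1) ∈ A := ⟨(m, n), hmn, Or.inl rfl, Or.inr rfl⟩
    have k4 : (m + 1, n + 1) ∈ A := ⟨(m, n), hmn, Or.inr rfl, Or.inr rfl⟩
    exact sys_eq hW' hM hx s _ m n (by simp only [hs, if_pos k1]) (by simp only [hs, if_pos k2])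
      (by simp only [hs, if_pos k3]) (by simp only [hs, if_pos k4]) (by simp only [if_pos hmn])
  · rintro ⟨m, n⟩ hmn
    have k : ∀ m' n', (m' = m ∨ m' = m + 1) → (n' = n ∨ n' = n + 1) → (m', n') ∉ A := by
      rintro m' n' h1 h2 ⟨q, hq, h3, h4⟩
      have := hFG q hq (m, n) hmn
      simp only [Nat.cast_ofNat] at this
      rcases this with h5 | h5
      · rcases le_abs.1 h5 with h6 | h6 <;> rcases h1 with h1 | h1 <;> rcases h3 with h3 | h3 <;>
          simp only at h1 h3 h6 <;> omega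
      · rcases le_abs.1 h5 with h6 | h6 <;> rcases h2 with h2 | h2 <;> rcases h4 with h4 | h4 <;>
          simp only at h2 h4 h6 <;> omega
    have kF : (m, n) ∉ F := fun hF => by
      have := hFG _ hF _ hmn
      simp at this
    exact sys_eq hW' hM hy s _ m n
      (by simp only [hs, if_neg (k m n (Or.inl rfl) (Or.inl rfl))])
      (by simp only [hs, if_neg (k (m + 1) n (Or.inr rfl) (Or.inl rfl))])
      (by simp only [hs, if_neg (k m (n + 1) (Or.inl rfl) (Or.inr rfl))])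
      (by simp only [hs, if_neg (k (m + 1) (n + 1) (Or.inr rfl) (Or.inr rfl))])
      (by simp only [if_neg kF])

/-- spins and labels on the torus -/
abbrev T0 {S : Type} (W : S → S → S → S → ℕ) (M N : ℕ) : Type :=
  {q : (Fin N → Fin N → S) × (Fin N × Fin N → Fin M) //
    ∀ p, (q.2 p).1 < W (q.1 p.1 p.2) (q.1 (cyc N p.1) p.2) (q.1 p.1 (cyc N p.2))
      (q.1 (cyc N p.1) (cyc N p.2))}

theorem card_T0 [Fintype S] [DecidableEq S] (hM : ∀ a b c d, W a b c d ≤ M) (N : ℕ) :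
    (Fintype.card (T0 W M N) : ℝ) = spin (cyc N) (fun a b c d => (W a b c d : ℝ)) := by
  have e := Fintype.card_congr (Equiv.subtypeProdEquivSigmaSubtype
    (fun (s : Fin N → Fin N → S) (l : Fin N × Fin N → Fin M) =>
      ∀ p, (l p).1 < W (s p.1 p.2) (s (cyc N p.1) p.2) (s p.1 (cyc N p.2))
      (s (cyc N p.1) (cyc N p.2))))
  rw [e, Fintype.card_sigma]
  unfold spin
  push_cast
  refine Finset.sum_congr rfl fun s _ => ?_
  rw [Fintype.card_congr (Equiv.subtypePiEquivPi (p := fun (p : Fin N × Fin N) (y : Fin M) =>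
    y.1 < W (s p.1 p.2) (s (cyc N p.1) p.2) (s p.1 (cyc N p.2)) (s (cyc N p.1) (cyc N p.2))))]
  rw [Fintype.card_pi]
  push_cast
  refine Finset.prod_congr rfl fun p _ => ?_
  have h := hM (s p.1 p.2) (s (cyc N p.1) p.2) (s p.1 (cyc N p.2)) (s (cyc N p.1) (cyc N p.2))
  rw [Fintype.card_subtype]
  simp [Fin.card_filter_val_lt, h]

end SVR
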