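import Pool.Agent.SVR.Six

/-!
# The signs of the dual weights cancel on tori of even side (MP_7034eb_an)
-/

set_option autoImplicit false

namespace SVR

open Finset

/-- the configuration is an even subgraph -/
def Closed {n : ℕ} (h v : Fin n → Fin n → Bool) : Prop :=
  ∀ i j, xor (xor (h i j) (h (cyc n i) j)) (xor (v i j) (v i (cyc n j))) = false

instance {n : ℕ} (h v : Fin n → Fin n → Bool) : Decidable (Closed h v) := by
  unfold Closed; infer_instance

/-- indicator of the straight vertices -/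
def tB (w s e n : Bool) : ℤ := if w = e ∧ s = n ∧ w ≠ s then 1 else 0

/-- indicator of the corners west north and south east -/
def tD (w s e n : Bool) : ℤ := if w = n ∧ s = e ∧ w ≠ s then 1 else 0

/-- indicator of the corners west south and east north -/
def tC (w s e n : Bool) : ℤ := if w = s ∧ e = n ∧ w ≠ e then 1 else 0

/-- the number of a Boolean -/
def bi (b : Bool) : ℤ := if b then 1 else 0

theorem tC_eq (w s e n : Bool) (h : xor (xor w e) (xor s n) = false) :
    tC w s e n = 2 * (if w = false ∧ s = false ∧ e = true ∧ n = true then 1 else 0) +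
      (if w = true ∧ s = true ∧ e = false ∧ n = false then 1 else 0) -
      (if w = false ∧ s = false ∧ e = true ∧ n = true then 1 else 0) := by
  revert w s e n; decide

theorem tC_lin (w s e n : Bool) (h : xor (xor w e) (xor s n) = false) :
    bi w + bi s - bi e - bi n = 2 * (tC w s e n -
      2 * (if w = false ∧ s = false ∧ e = true ∧ n = true then 1 else 0)) := by
  revert w s e n; decide

theorem tD_lin (w s e n : Bool) (h : xor (xor w e) (xor s n) = false) :
    bi w - bi s - bi e + bi n = 2 * (tD w s e n -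
      2 * (if w = false ∧ s = true ∧ e = true ∧ n = false then 1 else 0)) := by
  revert w s e n; decide

theorem tB_lin (w s e n : Bool) (h : xor (xor w e) (xor s n) = false) :
    bi w + bi s + bi e + bi n = 2 * (tB w s e n + tC w s e n + tD w s e n +
      2 * (if w = true ∧ s = true ∧ e = true ∧ n = true then 1 else 0)) := by
  revert w s e n; decide

variable {k : ℕ}

theorem sum_cyc (f : Fin (k + 1) → ℤ) : ∑ i, f (cyc (k + 1) i) = ∑ i, f i := by
  rw [← Equiv.sum_comp (cycP k) f]
  exact Finset.sum_congr rfl fun i _ => by rw [cycP_eq]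

/-- the total number of edges in a column has constant parity -/
theorem col_even (c : Fin (k + 1) → ℤ) (hc : ∀ i, Even (c i + c (cyc (k + 1) i)))
    (hk : Even (k + 1)) : Even (∑ i, c i) := by
  have h1 : ∀ t : ℕ, ∀ ht : t < k + 1, Even (c 0 + c ⟨t, ht⟩) := by
    intro t
    induction t with
    | zero => intro ht; exact ⟨c 0, rfl⟩
    | succ t ih =>
      intro ht
      have h2 := ih (by omega)
      have h3 := hc ⟨t, by omega⟩
      have h4 : cyc (k + 1) ⟨t, by omega⟩ = ⟨t + 1, ht⟩ := Fin.ext (Nat.mod_eq_of_lt ht)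
      rw [h4] at h3
      rw [Int.even_add] at *
      tauto
  have h2 : Even (∑ i, (c 0 + c i)) := Finset.even_sum _ fun i _ => h1 i.1 i.2
  rw [Finset.sum_add_distrib, Finset.sum_const, Finset.card_univ, Fintype.card_fin,
    Int.even_add] at h2
  refine h2.1 ?_
  rw [nsmul_eq_mul]
  exact Even.mul_right (by exact_mod_cast hk) _

theorem parity (h v : Fin (k + 1) → Fin (k + 1) → Bool) (hc : Closed h v) (hk : Even (k + 1)) :
    Even (∑ i, ∑ j, tB (h i j) (v i j) (h (cyc (k + 1) i) j) (v i (cyc (k + 1) j))) ∧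
    Even (∑ i, ∑ j, tD (h i j) (v i j) (h (cyc (k + 1) i) j) (v i (cyc (k + 1) j))) ∧
    Even (∑ i, ∑ j, tC (h i j) (v i j) (h (cyc (k + 1) i) j) (v i (cyc (k + 1) j))) := by
  have sh : ∑ i, ∑ j, bi (h (cyc (k + 1) i) j) = ∑ i, ∑ j, bi (h i j) :=
    sum_cyc fun i => ∑ j, bi (h i j)
  have sv : ∑ i, ∑ j, bi (v i (cyc (k + 1) j)) = ∑ i, ∑ j, bi (v i j) :=
    Finset.sum_congr rfl fun i _ => sum_cyc fun j => bi (v i j)
  have hC : Even (∑ i, ∑ j, tC (h i j) (v i j) (h (cyc (k + 1) i) j) (v i (cyc (k + 1) j))) := by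
    have h1 := Finset.sum_congr rfl fun i (_ : i ∈ (univ : Finset (Fin (k + 1)))) =>
      Finset.sum_congr rfl fun j (_ : j ∈ (univ : Finset (Fin (k + 1)))) =>
        tC_lin _ _ _ _ (hc i j)
    simp only [Finset.sum_add_distrib, Finset.sum_sub_distrib, ← Finset.mul_sum] at h1
    rw [sh, sv] at h1
    refine ⟨∑ i, ∑ j, (if h i j = false ∧ v i j = false ∧ h (cyc (k + 1) i) j = true ∧
      v i (cyc (k + 1) j) = true then 1 else 0), ?_⟩
    linarith
  have hD : Even (∑ i, ∑ j, tD (h i j) (v i j) (h (cyc (k + 1) i) j) (v i (cyc (k + 1) j))) := by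
    have h1 := Finset.sum_congr rfl fun i (_ : i ∈ (univ : Finset (Fin (k + 1)))) =>
      Finset.sum_congr rfl fun j (_ : j ∈ (univ : Finset (Fin (k + 1)))) =>
        tD_lin _ _ _ _ (hc i j)
    simp only [Finset.sum_add_distrib, Finset.sum_sub_distrib, ← Finset.mul_sum] at h1
    rw [sh, sv] at h1
    refine ⟨∑ i, ∑ j, (if h i j = false ∧ v i j = true ∧ h (cyc (k + 1) i) j = true ∧
      v i (cyc (k + 1) j) = false then 1 else 0), ?_⟩
    linarith
  refine ⟨?_, hD, hC⟩
  have bx : ∀ a b c d : Bool, xor (xor a b) (xor c d) = false →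
      Even (bi a + bi b + (bi c + bi d)) := by decide
  -- the horizontal edges
  have eh : Even (∑ i, ∑ j, bi (h i j)) := by
    refine col_even (fun i => ∑ j, bi (h i j)) (fun i => ?_) hk
    have h1 : Even (∑ j, (bi (h i j) + bi (h (cyc (k + 1) i) j) +
        (bi (v i j) + bi (v i (cyc (k + 1) j))))) :=
      Finset.even_sum _ fun j _ => bx _ _ _ _ (hc i j)
    simp only [Finset.sum_add_distrib] at h1
    rw [sum_cyc fun j => bi (v i j), Int.even_add] at h1
    exact h1.2 ⟨_, rfl⟩
  have ev : Even (∑ i, ∑ j, bi (v i j)) := by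
    rw [Finset.sum_comm]
    refine col_even (fun j => ∑ i, bi (v i j)) (fun j => ?_) hk
    have h1 : Even (∑ i, (bi (h i j) + bi (h (cyc (k + 1) i) j) +
        (bi (v i j) + bi (v i (cyc (k + 1) j))))) :=
      Finset.even_sum _ fun i _ => bx _ _ _ _ (hc i j)
    simp only [Finset.sum_add_distrib] at h1
    rw [sum_cyc fun i => bi (h i j), Int.even_add] at h1
    exact h1.1 ⟨_, rfl⟩
  have h1 := Finset.sum_congr rfl fun i (_ : i ∈ (univ : Finset (Fin (k + 1)))) =>
    Finset.sum_congr rfl fun j (_ : j ∈ (univ : Finset (Fin (k + 1)))) =>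
      tB_lin _ _ _ _ (hc i j)
  simp only [Finset.sum_add_distrib, ← Finset.mul_sum] at h1
  rw [sh, sv] at h1
  obtain ⟨p1, hp1⟩ := eh
  obtain ⟨p2, hp2⟩ := ev
  obtain ⟨p3, hp3⟩ := hC
  obtain ⟨p4, hp4⟩ := hD
  refine ⟨p1 + p2 - p3 - p4 - ∑ i, ∑ j, (if h i j = true ∧ v i j = true ∧
    h (cyc (k + 1) i) j = true ∧ v i (cyc (k + 1) j) = true then 1 else 0), ?_⟩
  linarith

/-- the sign of a real number, `1` for `0` -/
noncomputable def sg (x : ℝ) : ℝ := if x < 0 then -1 else 1

theorem sg_mul (x : ℝ) : sg x * |x| = x := by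
  unfold sg
  split_ifs with h
  · rw [abs_of_neg h]; ring
  · rw [abs_of_nonneg (not_lt.1 h)]; ring

theorem sg_ne (x : ℝ) : sg x ≠ 0 := by
  unfold sg; split_ifs <;> norm_num

theorem sg_even (x : ℝ) (m : ℤ) (hm : Even m) : sg x ^ m = 1 := by
  unfold sg
  split_ifs
  · exact hm.neg_one_zpow
  · exact one_zpow _

theorem prod_zpow_sum {I : Type} [Fintype I] (x : ℝ) (hx : x ≠ 0) (f : I → ℤ) :
    ∏ i, x ^ f i = x ^ ∑ i, f i := by
  classical
  induction (univ : Finset I) using Finset.induction_on with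
  | empty => simp
  | insert a s ha ih => rw [Finset.prod_insert ha, Finset.sum_insert ha, ih, zpow_add₀ hx]

theorem dual_sign (A x y z : ℝ) (w s e n : Bool) :
    dualW A x y z w s e n = sg x ^ tB w s e n * sg y ^ tD w s e n * sg z ^ tC w s e n *
      dualW A |x| |y| |z| w s e n := by
  cases w <;> cases s <;> cases e <;> cases n <;> simp [dualW, tB, tC, tD, sg_mul]

theorem dualW_odd (A x y z : ℝ) (w s e n : Bool) (h : xor (xor w e) (xor s n) = true) :
    dualW A x y z w s e n = 0 := by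
  cases w <;> cases s <;> cases e <;> cases n <;> simp [dualW] at h ⊢

theorem torus_closed (A x y z : ℝ) : torus (cyc (k + 1)) (dualW A x y z) =
    ∑ q ∈ (univ.filter fun q : (Fin (k + 1) → Fin (k + 1) → Bool) ×
      (Fin (k + 1) → Fin (k + 1) → Bool) => Closed q.1 q.2),
      ∏ i, ∏ j, dualW A x y z (q.1 i j) (q.2 i j)
        (q.1 (cyc (k + 1) i) j) (q.2 i (cyc (k + 1) j)) := by
  unfold torus
  rw [← Fintype.sum_prod_type']
  rw [← Finset.sum_filter_add_sum_filter_not univ
    (fun q : (Fin (k + 1) → Fin (k + 1) → Bool) × (Fin (k + 1) → Fin (k + 1) → Bool) =>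
      Closed q.1 q.2)]
  have h0 : ∑ q ∈ (univ.filter fun q : (Fin (k + 1) → Fin (k + 1) → Bool) ×
      (Fin (k + 1) → Fin (k + 1) → Bool) => ¬ Closed q.1 q.2),
      ∏ i, ∏ j, dualW A x y z (q.1 i j) (q.2 i j) (q.1 (cyc (k + 1) i) j)
        (q.2 i (cyc (k + 1) j)) = 0 := by
    refine Finset.sum_eq_zero fun q hq => ?_
    have hq := (Finset.mem_filter.1 hq).2
    unfold Closed at hq
    push Not at hq
    obtain ⟨i, j, hij⟩ := hq
    refine Finset.prod_eq_zero (Finset.mem_univ i) (Finset.prod_eq_zero (Finset.mem_univ j) ?_)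
    exact dualW_odd _ _ _ _ _ _ _ _ (by simpa using hij)
  rw [h0, add_zero]

/-- on tori of even side the signs of the dual weights are irrelevant -/
theorem torus_abs (A x y z : ℝ) (hk : Even (k + 1)) :
    torus (cyc (k + 1)) (dualW A x y z) = torus (cyc (k + 1)) (dualW A |x| |y| |z|) := by
  rw [torus_closed, torus_closed]
  refine Finset.sum_congr rfl fun q hq => ?_
  have hq := (Finset.mem_filter.1 hq).2
  obtain ⟨pB, pD, pC⟩ := parity q.1 q.2 hq hk
  have h1 : ∀ i j, dualW A x y z (q.1 i j) (q.2 i j)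
        (q.1 (cyc (k + 1) i) j) (q.2 i (cyc (k + 1) j)) = _ := fun i j =>
    dual_sign A x y z _ _ _ _
  simp only [h1, Finset.prod_mul_distrib]
  rw [Finset.prod_congr rfl fun i _ => prod_zpow_sum (sg x) (sg_ne x) _,
    prod_zpow_sum (sg x) (sg_ne x), sg_even x _ pB,
    Finset.prod_congr rfl fun i _ => prod_zpow_sum (sg y) (sg_ne y) _,
    prod_zpow_sum (sg y) (sg_ne y), sg_even y _ pD,
    Finset.prod_congr rfl fun i _ => prod_zpow_sum (sg z) (sg_ne z) _,
    prod_zpow_sum (sg z) (sg_ne z), sg_even z _ pC]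
  ring

end SVR
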