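import Pool.Agent.SVR.Spin

/-!
# The six-vertex model on the torus: real weights (MP_7034eb_an)

`true` is an arrow pointing right on a horizontal edge, and up on a vertical edge.
-/

set_option autoImplicit false

namespace SVR

open Finset

/-- the weight of a vertex of the six-vertex model whose west, south, east and north edges carry
the arrows `w`, `s`, `e`, `n`: weight `a` if both lines go straight through and the two arrows
are both `right / up` or both `left / down`, weight `b` if both lines go straight through and they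
are `right / down` or `left / up`, weight `c` if the arrows turn, and weight `0` if the number of
arrows entering the vertex is not equal to the number of arrows leaving it. -/
noncomputable def sixWeight (a b c : ℝ) (w s e n : Bool) : ℝ :=
  if w = e ∧ s = n then (if w = s then a else b)
  else if w = n ∧ s = e then c
  else 0

/-- the partition function of the six-vertex model on the `(k+1) × (k+1)` torus; `h i j` is the
arrow on the horizontal edge west of the vertex `(i, j)`, `v i j` is the arrow on the vertical edge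
south of it (addition in `Fin (k + 1)` is modulo `k + 1`). -/
noncomputable def sixZ (a b c : ℝ) (k : ℕ) : ℝ :=
  ∑ h : Fin (k + 1) → Fin (k + 1) → Bool, ∑ v : Fin (k + 1) → Fin (k + 1) → Bool,
    ∏ i, ∏ j, sixWeight a b c (h i j) (v i j) (h (i + 1) j) (v i (j + 1))

/-- the weights of the dual even subgraph model -/
noncomputable def dualW (A x y z : ℝ) (w s e n : Bool) : ℝ :=
  if w = e ∧ s = n then (if w = s then A else x)
  else if w = n ∧ s = e then y
  else if w = s ∧ e = n then z
  else 0

/-- change of basis along one family of edges -/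
theorem basis {V : Type} [Fintype V] [DecidableEq V] (σ : Equiv.Perm V)
    (κ₁ κ₂ : Bool → Bool → ℂ)
    (hκ : ∀ u u', ∑ χ, κ₁ χ u * κ₂ χ u' = if u = u' then 1 else 0)
    (F : V → Bool → Bool → ℂ) :
    ∑ h : V → Bool, ∏ p, (∑ q : Bool × Bool, F p q.1 q.2 * (κ₁ (h p) q.1 * κ₂ (h (σ p)) q.2)) =
      ∑ h : V → Bool, ∏ p, F p (h p) (h (σ p)) := by
  have h1 : ∀ h : V → Bool,
      ∏ p, (∑ q : Bool × Bool, F p q.1 q.2 * (κ₁ (h p) q.1 * κ₂ (h (σ p)) q.2)) =
      ∑ g : V → Bool × Bool, (∏ p, F p (g p).1 (g p).2) *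
        ∏ p, (κ₁ (h p) (g p).1 * κ₂ (h p) (g (σ.symm p)).2) := by
    intro h
    rw [Finset.prod_univ_sum, Fintype.piFinset_univ]
    refine Finset.sum_congr rfl fun g _ => ?_
    rw [Finset.prod_mul_distrib, Finset.prod_mul_distrib, Finset.prod_mul_distrib]
    congr 2
    rw [← Equiv.prod_comp σ (fun p => κ₂ (h p) (g (σ.symm p)).2)]
    simp
  simp_rw [h1]
  rw [Finset.sum_comm]
  have h2 : ∀ g : V → Bool × Bool,
      ∑ h : V → Bool, (∏ p, F p (g p).1 (g p).2) *
        ∏ p, (κ₁ (h p) (g p).1 * κ₂ (h p) (g (σ.symm p)).2) =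
      if ∀ p, (g p).2 = (g (σ p)).1 then (∏ p, F p (g p).1 (g p).2) else 0 := by
    intro g
    rw [← Finset.mul_sum]
    have h3 : ∑ h : V → Bool, ∏ p, (κ₁ (h p) (g p).1 * κ₂ (h p) (g (σ.symm p)).2) =
        ∏ p, (∑ χ, κ₁ χ (g p).1 * κ₂ χ (g (σ.symm p)).2) := by
      rw [Finset.prod_univ_sum, Fintype.piFinset_univ]
    rw [h3]
    simp_rw [hκ]
    split_ifs with hc
    · have : ∀ p, (g p).1 = (g (σ.symm p)).2 := fun p => by
        rw [hc]; simp
      simp [← this]
    · push Not at hc
      obtain ⟨p, hp⟩ := hc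
      have h4 : ∏ q, (if (g q).1 = (g (σ.symm q)).2 then (1 : ℂ) else 0) = 0 :=
        Finset.prod_eq_zero (Finset.mem_univ (σ p)) (by simp [Ne.symm hp])
      rw [h4, mul_zero]
  simp_rw [h2]
  rw [← Finset.sum_filter]
  refine Finset.sum_nbij' (fun g p => (g p).1) (fun h p => (h p, h (σ p))) ?_ ?_ ?_ ?_ ?_
  · intro g _; exact Finset.mem_univ _
  · intro h _; simp
  · intro g hg
    funext p
    have := (Finset.mem_filter.1 hg).2 p
    ext
    · rfl
    · exact this.symm
  · intro h _; rfl
  · intro g hg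
    refine Finset.prod_congr rfl fun p _ => ?_
    rw [(Finset.mem_filter.1 hg).2 p]

/-- the two halves of the change of basis -/
noncomputable def k1 (χ u : Bool) : ℂ :=
  (if χ then Complex.I else 1) * (if χ && u then -1 else 1)

/-- the two halves of the change of basis -/
noncomputable def k2 (χ u : Bool) : ℂ :=
  (1 / 2) * (if χ then - Complex.I else 1) * (if χ && u then -1 else 1)

theorem k12 (u u' : Bool) : ∑ χ, k1 χ u * k2 χ u' = if u = u' then 1 else 0 := by
  cases u <;> cases u' <;> simp [k1, k2, Complex.ext_iff] <;> norm_num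

/-- the transform of the six-vertex weights -/
theorem weights (x y z : ℝ) (w s e n : Bool) :
    ∑ q : Bool × Bool, (∑ r : Bool × Bool,
      (sixWeight (x + y) (x + z) (y + z) q.1 r.1 q.2 r.2 : ℂ) * (k1 s r.1 * k2 n r.2)) *
        (k1 w q.1 * k2 e q.2) = (dualW (x + y + z) x y z w s e n : ℂ) := by
  cases w <;> cases s <;> cases e <;> cases n <;>
    simp [Fintype.sum_prod_type, sixWeight, dualW, k1, k2, Complex.ext_iff] <;> ring

/-- the sum over all configurations of a vertex model on the torus -/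
noncomputable def torus {I : Type} [Fintype I] [DecidableEq I] (σ : I → I)
    (W : Bool → Bool → Bool → Bool → ℝ) : ℝ :=
  ∑ h : I → I → Bool, ∑ v : I → I → Bool, ∏ i, ∏ j, W (h i j) (v i j) (h (σ i) j) (v i (σ j))

/-- the torus sum over functions on pairs -/
theorem torus_eq {I : Type} [Fintype I] [DecidableEq I] (σ : I → I)
    (W : Bool → Bool → Bool → Bool → ℝ) :
    torus σ W = ∑ h : I × I → Bool, ∑ v : I × I → Bool,
      ∏ p : I × I, W (h p) (v p) (h (σ p.1, p.2)) (v (p.1, σ p.2)) := by
  unfold torus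
  rw [← Equiv.sum_comp (Equiv.curry I I Bool)]
  refine Finset.sum_congr rfl fun h _ => ?_
  rw [← Equiv.sum_comp (Equiv.curry I I Bool)]
  refine Finset.sum_congr rfl fun v _ => ?_
  rw [Fintype.prod_prod_type]
  rfl

/-- the duality: the partition function of the six-vertex model with weights
`(x + y, x + z, y + z)` equals that of the dual model -/
theorem duality {I : Type} [Fintype I] [DecidableEq I] (σ : Equiv.Perm I) (x y z : ℝ) :
    torus σ (sixWeight (x + y) (x + z) (y + z)) = torus σ (dualW (x + y + z) x y z) := by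
  rw [torus_eq, torus_eq]
  have key : ((∑ h : I × I → Bool, ∑ v : I × I → Bool,
      ∏ p : I × I, dualW (x + y + z) x y z (h p) (v p) (h (σ p.1, p.2)) (v (p.1, σ p.2)) : ℝ) : ℂ) =
      ((∑ h : I × I → Bool, ∑ v : I × I → Bool,
      ∏ p : I × I, sixWeight (x + y) (x + z) (y + z) (h p) (v p) (h (σ p.1, p.2))
        (v (p.1, σ p.2)) : ℝ) : ℂ) := by
    push_cast
    set τ₁ : Equiv.Perm (I × I) := Equiv.prodCongr σ (Equiv.refl I) with hτ₁
    set τ₂ : Equiv.Perm (I × I) := Equiv.prodCongr (Equiv.refl I) σ with hτ₂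
    have e1 : ∀ p : I × I, (σ p.1, p.2) = τ₁ p := fun p => rfl
    have e2 : ∀ p : I × I, (p.1, σ p.2) = τ₂ p := fun p => rfl
    simp_rw [e1, e2]
    simp_rw [← weights]
    rw [Finset.sum_comm]
    have s1 : ∀ v : I × I → Bool, ∑ h : I × I → Bool, ∏ p : I × I,
        ∑ q : Bool × Bool, (∑ r : Bool × Bool,
        (sixWeight (x + y) (x + z) (y + z) q.1 r.1 q.2 r.2 : ℂ) *
          (k1 (v p) r.1 * k2 (v (τ₂ p)) r.2)) * (k1 (h p) q.1 * k2 (h (τ₁ p)) q.2) =
        ∑ h : I × I → Bool, ∏ p : I × I, ∑ r : Bool × Bool,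
        (sixWeight (x + y) (x + z) (y + z) (h p) r.1 (h (τ₁ p)) r.2 : ℂ) *
          (k1 (v p) r.1 * k2 (v (τ₂ p)) r.2) := fun v =>
      basis τ₁ k1 k2 k12 (fun p a b => ∑ r : Bool × Bool,
        (sixWeight (x + y) (x + z) (y + z) a r.1 b r.2 : ℂ) *
          (k1 (v p) r.1 * k2 (v (τ₂ p)) r.2))
    simp_rw [s1]
    rw [Finset.sum_comm]
    refine Finset.sum_congr rfl fun h _ => ?_
    exact basis τ₂ k1 k2 k12 (fun p a b =>
      (sixWeight (x + y) (x + z) (y + z) (h p) a (h (τ₁ p)) b : ℂ))
  exact (Complex.ofReal_injective key).symm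

theorem add_one_eq_cyc (k : ℕ) (i : Fin (k + 1)) : i + 1 = cyc (k + 1) i := by
  apply Fin.ext
  rw [Fin.val_add]
  show (i.1 + (1 : Fin (k + 1)).1) % (k + 1) = (i.1 + 1) % (k + 1)
  rw [Fin.val_one', Nat.add_mod_mod]

theorem sixZ_eq (a b c : ℝ) (k : ℕ) : sixZ a b c k = torus (cyc (k + 1)) (sixWeight a b c) := by
  unfold sixZ torus
  simp_rw [add_one_eq_cyc]

/-- the cyclic successor as a permutation -/
def cycP (k : ℕ) : Equiv.Perm (Fin (k + 1)) := Equiv.addRight 1

theorem cycP_eq (k : ℕ) (i : Fin (k + 1)) : cycP k i = cyc (k + 1) i := add_one_eq_cyc k i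

theorem sixZ_dual (x y z : ℝ) (k : ℕ) :
    sixZ (x + y) (x + z) (y + z) k = torus (cyc (k + 1)) (dualW (x + y + z) x y z) := by
  have e : cyc (k + 1) = cycP k := funext fun i => (cycP_eq k i).symm
  rw [sixZ_eq, e]
  exact duality (cycP k) x y z

end SVR
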