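import Mathlib

/-!
# Spin sums on tori, general spins and real weights (MP_7034eb_an)
-/

set_option autoImplicit false

namespace SVR

open Finset

/-- the cyclic successor -/
def cyc (n : ℕ) (i : Fin n) : Fin n := ⟨(i.1 + 1) % n, Nat.mod_lt _ (by have := i.2; omega)⟩

/-- the spin sum of the face weights `W` for the successor function `σ` -/
def spin {I S : Type} [Fintype I] [DecidableEq I] [Fintype S] (σ : I → I)
    (W : S → S → S → S → ℝ) : ℝ :=
  ∑ s : I → I → S, ∏ p : I × I,
    W (s p.1 p.2) (s (σ p.1) p.2) (s p.1 (σ p.2)) (s (σ p.1) (σ p.2))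

theorem prod_cmp {C : Type} [Fintype C] [DecidableEq C] (bad : Finset C) (f g : C → ℝ) (L : ℝ)
    (hL : 1 ≤ L) (hf : ∀ c, 0 ≤ f c) (hg : ∀ c, 0 ≤ g c) (hb : ∀ c ∈ bad, f c ≤ L * g c)
    (h : ∀ c, c ∉ bad → f c ≤ g c) (K : ℕ) (hK : bad.card ≤ K) :
    ∏ c, f c ≤ L ^ K * ∏ c, g c := by
  have h1 : ∏ c, f c ≤ ∏ c, ((if c ∈ bad then L else 1) * g c) := by
    refine Finset.prod_le_prod (fun c _ => hf c) fun c _ => ?_
    split_ifs with hc
    · exact hb c hc
    · rw [one_mul]
      exact h c hc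
  refine h1.trans ?_
  rw [Finset.prod_mul_distrib]
  refine mul_le_mul_of_nonneg_right ?_ (Finset.prod_nonneg fun c _ => hg c)
  rw [Finset.prod_ite_mem, Finset.univ_inter, Finset.prod_const]
  exact pow_le_pow_right₀ hL hK

theorem bad_card {I : Type} [Fintype I] [DecidableEq I] (D : Finset I) :
    (univ.filter fun p : I × I => p.1 ∈ D ∨ p.2 ∈ D).card ≤ 2 * D.card * Fintype.card I := by
  rw [Finset.filter_or]
  refine (Finset.card_union_le _ _).trans ?_
  have h1 : (univ.filter fun p : I × I => p.1 ∈ D) = D ×ˢ univ := by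
    ext p; simp
  have h2 : (univ.filter fun p : I × I => p.2 ∈ D) = univ ×ˢ D := by
    ext p; simp
  rw [h1, h2, Finset.card_product, Finset.card_product, Finset.card_univ]
  exact le_of_eq (by ring)

theorem spin_cmp {I S : Type} [Fintype I] [DecidableEq I] [Fintype S] (σ τ : I → I) (D : Finset I)
    (W : S → S → S → S → ℝ) (L : ℝ) (hL : 1 ≤ L) (hW : ∀ a b c d, 0 ≤ W a b c d)
    (hWL : ∀ a b c d a' b' c' d', W a b c d ≤ L * W a' b' c' d')
    (h : ∀ i, i ∉ D → σ i = τ i) :
    spin σ W ≤ L ^ (2 * D.card * Fintype.card I) * spin τ W := by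
  unfold spin
  rw [Finset.mul_sum]
  refine Finset.sum_le_sum fun s _ => ?_
  refine prod_cmp (univ.filter fun p : I × I => p.1 ∈ D ∨ p.2 ∈ D) _ _ L hL
    (fun _ => hW _ _ _ _) (fun _ => hW _ _ _ _) (fun _ _ => hWL _ _ _ _ _ _ _ _) ?_ _
    (bad_card D)
  intro p hp
  simp only [Finset.mem_filter, Finset.mem_univ, true_and, not_or] at hp
  rw [h p.1 hp.1, h p.2 hp.2]

theorem spin_equiv {I J S : Type} [Fintype I] [DecidableEq I] [Fintype J] [DecidableEq J]
    [Fintype S] (e : I ≃ J) (σ : I → I) (τ : J → J) (h : ∀ i, e (σ i) = τ (e i))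
    (W : S → S → S → S → ℝ) : spin σ W = spin τ W := by
  unfold spin
  rw [← Equiv.sum_comp (Equiv.arrowCongr e (Equiv.arrowCongr e (Equiv.refl S)))]
  refine Finset.sum_congr rfl fun s _ => ?_
  rw [← Equiv.prod_comp (Equiv.prodCongr e e)]
  refine Finset.prod_congr rfl fun p _ => ?_
  simp [Equiv.arrowCongr, ← h]

theorem spin_prod {A I S : Type} [Fintype A] [DecidableEq A] [Fintype I] [DecidableEq I]
    [Fintype S] (σ : I → I) (W : S → S → S → S → ℝ) :
    spin (fun p : A × I => (p.1, σ p.2)) W = spin σ W ^ (Fintype.card A * Fintype.card A) := by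
  have h1 : spin σ W ^ (Fintype.card A * Fintype.card A) = ∏ _p : A × A, spin σ W := by
    simp
  rw [h1]
  unfold spin
  rw [Finset.prod_univ_sum, Fintype.piFinset_univ]
  let e : ((A × I) → (A × I) → S) ≃ (A × A → I → I → S) :=
    { toFun := fun s p i j => s (p.1, i) (p.2, j)
      invFun := fun t p q => t (p.1, q.1) p.2 q.2
      left_inv := fun s => rfl
      right_inv := fun t => rfl }
  rw [← Equiv.sum_comp e]
  refine Finset.sum_congr rfl fun s _ => ?_
  let e' : (A × I) × (A × I) ≃ (A × A) × (I × I) :=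
    { toFun := fun p => ((p.1.1, p.2.1), (p.1.2, p.2.2))
      invFun := fun q => ((q.1.1, q.2.1), (q.1.2, q.2.2))
      left_inv := fun p => rfl
      right_inv := fun q => rfl }
  rw [← Finset.prod_product' (s := univ) (t := univ) (f := fun (x : A × A) (p : I × I) =>
    W (e s x p.1 p.2) (e s x (σ p.1) p.2) (e s x p.1 (σ p.2)) (e s x (σ p.1) (σ p.2)))]
  rw [Finset.univ_product_univ, ← Equiv.prod_comp e']
  rfl

/-- the last elements of the blocks -/
def lasts (m n : ℕ) : Finset (Fin m × Fin n) := univ.filter fun p => p.2.1 + 1 = n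

theorem lasts_card (m n : ℕ) : (lasts m n).card ≤ m := by
  have : (lasts m n).card ≤ (univ : Finset (Fin m)).card := by
    apply Finset.card_le_card_of_injOn (fun p => p.1) (fun _ _ => Finset.mem_coe.2 (mem_univ _))
    intro p hp q hq h
    simp only [lasts, coe_filter, mem_univ, true_and, Set.mem_ofPred_eq] at hp hq
    exact Prod.ext h (Fin.ext (by omega))
  simpa using this

theorem spin_nonneg {I S : Type} [Fintype I] [DecidableEq I] [Fintype S] (σ : I → I)
    (W : S → S → S → S → ℝ) (hW : ∀ a b c d, 0 ≤ W a b c d) : 0 ≤ spin σ W :=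
  Finset.sum_nonneg fun _ _ => Finset.prod_nonneg fun _ _ => hW _ _ _ _

theorem spin_pos {I S : Type} [Fintype I] [DecidableEq I] [Fintype S] [Nonempty S] (σ : I → I)
    (W : S → S → S → S → ℝ) (hW : ∀ a b c d, 0 < W a b c d) : 0 < spin σ W :=
  Finset.sum_pos (fun _ _ => Finset.prod_pos fun _ _ => hW _ _ _ _) Finset.univ_nonempty

theorem tile {S : Type} [Fintype S] (m n : ℕ)
    (W : S → S → S → S → ℝ) (L : ℝ) (hL : 1 ≤ L) (hW : ∀ a b c d, 0 ≤ W a b c d)
    (hWL : ∀ a b c d a' b' c' d', W a b c d ≤ L * W a' b' c' d') :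
    spin (cyc (m * n)) W ≤ L ^ (2 * m * (m * n)) * spin (cyc n) W ^ (m * m) ∧
    spin (cyc n) W ^ (m * m) ≤ L ^ (2 * m * (m * n)) * spin (cyc (m * n)) W := by
  set τ : Fin m × Fin n → Fin m × Fin n := fun p =>
    finProdFinEquiv.symm (cyc (m * n) (finProdFinEquiv p)) with hτ
  have e1 : spin (cyc (m * n)) W = spin τ W := by
    exact (spin_equiv finProdFinEquiv τ (cyc (m * n))
      (fun p => finProdFinEquiv.apply_symm_apply _) W).symm
  have e2 := spin_prod (A := Fin m) (cyc n) W
  rw [Fintype.card_fin] at e2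
  rw [e1, ← e2]
  have h : ∀ p, p ∉ lasts m n → τ p = (p.1, cyc n p.2) := by
    intro p hp
    simp only [lasts, mem_filter, mem_univ, true_and] at hp
    have hp2 := p.2.2
    have hp1 := p.1.2
    have hlt : p.2.1 + 1 < n := by omega
    simp only [hτ]
    rw [Equiv.symm_apply_eq]
    apply Fin.ext
    have hb : n * p.1.1 + n ≤ m * n := by
      calc n * p.1.1 + n = (p.1.1 + 1) * n := by ring
        _ ≤ m * n := Nat.mul_le_mul_right n (by omega)
    simp only [cyc, finProdFinEquiv_apply_val]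
    rw [Nat.mod_eq_of_lt (show p.2.1 + 1 < n from hlt), Nat.mod_eq_of_lt (by omega)]
    omega
  have hc : 2 * (lasts m n).card * Fintype.card (Fin m × Fin n) ≤ 2 * m * (m * n) := by
    rw [Fintype.card_prod, Fintype.card_fin, Fintype.card_fin]
    exact Nat.mul_le_mul_right _ (Nat.mul_le_mul_left 2 (lasts_card m n))
  constructor
  · exact (spin_cmp τ _ (lasts m n) W L hL hW hWL h).trans
      (mul_le_mul_of_nonneg_right (pow_le_pow_right₀ hL hc) (spin_nonneg _ _ hW))
  · exact (spin_cmp _ τ (lasts m n) W L hL hW hWL (fun p hp => (h p hp).symm)).trans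
      (mul_le_mul_of_nonneg_right (pow_le_pow_right₀ hL hc) (spin_nonneg _ _ hW))

end SVR
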