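import Pool.Agent.SVR.Sign

/-!
# Even subgraphs of the torus and spins on its faces (MP_7034eb_an)
-/

set_option autoImplicit false

namespace SVR

open Finset

/-- the weight of a vertex as a function of the spins of the four faces around it
(south west, south east, north west, north east) -/
noncomputable def faceW (A x y z : ℝ) (a b c d : Bool) : ℝ :=
  dualW A x y z (xor a c) (xor a b) (xor b d) (xor c d)

theorem faceW_pos (A x y z : ℝ) (hA : 0 < A) (hx : 0 < x) (hy : 0 < y) (hz : 0 < z)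
    (a b c d : Bool) : 0 < faceW A x y z a b c d := by
  cases a <;> cases b <;> cases c <;> cases d <;> simp [faceW, dualW, hA, hx, hy, hz]

theorem faceW_mem (A x y z : ℝ) (R : Set ℝ) (hA : A ∈ R) (hx : x ∈ R) (hy : y ∈ R) (hz : z ∈ R)
    (a b c d : Bool) : faceW A x y z a b c d ∈ R := by
  cases a <;> cases b <;> cases c <;> cases d <;> simp [faceW, dualW, hA, hx, hy, hz]

theorem sum_inj {A B : Type} [Fintype B] [DecidableEq B] (P : Finset A) (φ : A → B)
    (hφ : Set.InjOn φ P) (f : A → ℝ) (g : B → ℝ) (hg : ∀ b, 0 ≤ g b)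
    (h : ∀ a ∈ P, f a ≤ g (φ a)) : ∑ a ∈ P, f a ≤ ∑ b, g b :=
  calc ∑ a ∈ P, f a ≤ ∑ a ∈ P, g (φ a) := Finset.sum_le_sum h
    _ = ∑ b ∈ P.image φ, g b := (Finset.sum_image hφ).symm
    _ ≤ ∑ b, g b := Finset.sum_le_sum_of_subset_of_nonneg (Finset.subset_univ _)
        fun b _ _ => hg b

variable {k : ℕ}

/-- reduction modulo `k + 1` -/
def cs (k a : ℕ) : Fin (k + 1) := ⟨a % (k + 1), Nat.mod_lt _ (Nat.succ_pos k)⟩

theorem cs_val (i : Fin (k + 1)) : cs k i.1 = i := Fin.ext (Nat.mod_eq_of_lt i.2)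

theorem cyc_cs (a : ℕ) : cyc (k + 1) (cs k a) = cs k (a + 1) := by
  apply Fin.ext
  simp [cyc, cs]

theorem cyc_val (i : Fin (k + 1)) (h : i.1 + 1 < k + 1) : (cyc (k + 1) i).1 = i.1 + 1 :=
  Nat.mod_eq_of_lt h

/-- sums along a path -/
def px (f : ℕ → Bool) : ℕ → Bool
  | 0 => false
  | (n + 1) => xor (px f n) (f n)

/-- the spins of an even subgraph -/
def spn (h v : Fin (k + 1) → Fin (k + 1) → Bool) (i j : Fin (k + 1)) : Bool :=
  xor (px (fun a => v (cs k a) (cs k 0)) i.1) (px (fun b => h i (cs k b)) j.1)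

theorem spn_h (h v : Fin (k + 1) → Fin (k + 1) → Bool) (i j : Fin (k + 1)) (hj : j.1 + 1 < k + 1) :
    xor (spn h v i j) (spn h v i (cyc (k + 1) j)) = h i j := by
  unfold spn
  rw [cyc_val j hj]
  simp only [px, cs_val]
  generalize px (fun a => v (cs k a) (cs k 0)) i.1 = A
  generalize px (fun b => h i (cs k b)) j.1 = B
  generalize h i j = C
  cases A <;> cases B <;> cases C <;> rfl

theorem px_diff (h v : Fin (k + 1) → Fin (k + 1) → Bool) (hc : Closed h v) (i : Fin (k + 1))
    (t : ℕ) : xor (px (fun b => h i (cs k b)) t) (px (fun b => h (cyc (k + 1) i) (cs k b)) t) =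
      xor (v i (cs k 0)) (v i (cs k t)) := by
  induction t with
  | zero => simp [px]
  | succ t ih =>
    have h1 := hc i (cs k t)
    rw [cyc_cs] at h1
    simp only [px]
    revert ih h1
    generalize px (fun b => h i (cs k b)) t = A
    generalize px (fun b => h (cyc (k + 1) i) (cs k b)) t = B
    generalize h i (cs k t) = C
    generalize h (cyc (k + 1) i) (cs k t) = D
    generalize v i (cs k 0) = E
    generalize v i (cs k t) = F
    generalize v i (cs k (t + 1)) = G
    revert A B C D E F G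
    decide

theorem spn_v (h v : Fin (k + 1) → Fin (k + 1) → Bool) (hc : Closed h v) (i j : Fin (k + 1))
    (hi : i.1 + 1 < k + 1) :
    xor (spn h v i j) (spn h v (cyc (k + 1) i) j) = v i j := by
  have h1 := px_diff h v hc i j.1
  unfold spn
  rw [cyc_val i hi]
  simp only [px, cs_val] at h1 ⊢
  revert h1
  generalize px (fun b => h i (cs k b)) j.1 = A
  generalize px (fun b => h (cyc (k + 1) i) (cs k b)) j.1 = B
  generalize px (fun a => v (cs k a) (cs k 0)) i.1 = C
  generalize v i (cs k 0) = D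
  generalize v i j = E
  revert A B C D E
  decide

theorem dualW_nonneg (A x y z : ℝ) (hA : 0 < A) (hx : 0 < x) (hy : 0 < y) (hz : 0 < z)
    (w s e n : Bool) : 0 ≤ dualW A x y z w s e n := by
  cases w <;> cases s <;> cases e <;> cases n <;> simp [dualW] <;> linarith

/-- the ratio of two weights is bounded -/
theorem ratio (A x y z : ℝ) (hA : 0 < A) (hx : 0 < x) (hy : 0 < y) (hz : 0 < z) :
    ∃ L : ℝ, 1 ≤ L ∧ ∀ w s e n a b c d : Bool,
      dualW A x y z w s e n ≤ L * faceW A x y z a b c d := by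
  obtain ⟨t1, ht1⟩ := Finite.exists_max fun t : Bool × Bool × Bool × Bool =>
    dualW A x y z t.1 t.2.1 t.2.2.1 t.2.2.2
  obtain ⟨t2, ht2⟩ := Finite.exists_min fun t : Bool × Bool × Bool × Bool =>
    faceW A x y z t.1 t.2.1 t.2.2.1 t.2.2.2
  set m2 := dualW A x y z t1.1 t1.2.1 t1.2.2.1 t1.2.2.2 with hm2
  set m1 := faceW A x y z t2.1 t2.2.1 t2.2.2.1 t2.2.2.2 with hm1
  have hm1p : 0 < m1 := faceW_pos A x y z hA hx hy hz _ _ _ _
  have hle : m1 ≤ m2 := ht1 (_, _, _, _)
  refine ⟨m2 / m1, (one_le_div hm1p).2 hle, fun w s e n a b c d => ?_⟩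
  have h1 := ht1 (w, s, e, n)
  have h2 := ht2 (a, b, c, d)
  simp only at h1 h2
  calc dualW A x y z w s e n ≤ m2 := h1
    _ = m2 / m1 * m1 := by field_simp
    _ ≤ m2 / m1 * faceW A x y z a b c d :=
      mul_le_mul_of_nonneg_left h2 (div_nonneg (hm1p.le.trans hle) hm1p.le)

theorem torus_le (A x y z : ℝ) (hA : 0 < A) (hx : 0 < x) (hy : 0 < y) (hz : 0 < z) :
    ∃ L : ℝ, 1 ≤ L ∧ ∀ k : ℕ, torus (cyc (k + 1)) (dualW A x y z) ≤
      L ^ (k + 1) * spin (cyc (k + 1)) (faceW A x y z) := by
  obtain ⟨L, hL, hr⟩ := ratio A x y z hA hx hy hz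
  have hL0 : 0 ≤ L := by linarith
  refine ⟨4 * L ^ 2, by nlinarith, fun k => ?_⟩
  rw [torus_closed]
  have key : ∑ q ∈ (univ.filter fun q : (Fin (k + 1) → Fin (k + 1) → Bool) ×
      (Fin (k + 1) → Fin (k + 1) → Bool) => Closed q.1 q.2),
      (∏ i, ∏ j, dualW A x y z (q.1 i j) (q.2 i j)
        (q.1 (cyc (k + 1) i) j) (q.2 i (cyc (k + 1) j))) ≤
      ∑ r : (Fin (k + 1) → Fin (k + 1) → Bool) × (Fin (k + 1) → Bool) × (Fin (k + 1) → Bool),
        L ^ (2 * (k + 1)) * ∏ p : Fin (k + 1) × Fin (k + 1),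
          faceW A x y z (r.1 p.1 p.2) (r.1 (cyc (k + 1) p.1) p.2) (r.1 p.1 (cyc (k + 1) p.2))
            (r.1 (cyc (k + 1) p.1) (cyc (k + 1) p.2)) := by
    refine sum_inj _ (fun q => (spn q.1 q.2, fun i => q.1 i (Fin.last k),
      fun j => q.2 (Fin.last k) j)) ?_ _ _ (fun r => ?_) ?_
    · intro q hq q' hq' he
      have hq := (Finset.mem_filter.1 (Finset.mem_coe.1 hq)).2
      have hq' := (Finset.mem_filter.1 (Finset.mem_coe.1 hq')).2
      simp only [Prod.mk.injEq] at he
      obtain ⟨he1, he2, he3⟩ := he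
      apply Prod.ext
      · funext i j
        by_cases hj : j.1 + 1 < k + 1
        · rw [← spn_h q.1 q.2 i j hj, ← spn_h q'.1 q'.2 i j hj, he1]
        · have : j = Fin.last k := Fin.ext (by have := j.2; simp; omega)
          rw [this]
          exact congrFun he2 i
      · funext i j
        by_cases hi : i.1 + 1 < k + 1
        · rw [← spn_v q.1 q.2 hq i j hi, ← spn_v q'.1 q'.2 hq' i j hi, he1]
        · have : i = Fin.last k := Fin.ext (by have := i.2; simp; omega)
          rw [this]
          exact congrFun he3 j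
    · exact mul_nonneg (pow_nonneg hL0 _) (Finset.prod_nonneg fun p _ =>
        (faceW_pos A x y z hA hx hy hz _ _ _ _).le)
    · intro q hq
      have hq := (Finset.mem_filter.1 hq).2
      rw [← Fintype.prod_prod_type' (f := fun i j => dualW A x y z (q.1 i j) (q.2 i j)
        (q.1 (cyc (k + 1) i) j) (q.2 i (cyc (k + 1) j)))]
      refine prod_cmp (univ.filter fun p : Fin (k + 1) × Fin (k + 1) =>
        p.1 ∈ ({Fin.last k} : Finset (Fin (k + 1))) ∨ p.2 ∈ ({Fin.last k} : Finset (Fin (k + 1))))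
        _ _ L hL (fun _ => dualW_nonneg A x y z hA hx hy hz _ _ _ _)
        (fun _ => (faceW_pos A x y z hA hx hy hz _ _ _ _).le) (fun _ _ => hr _ _ _ _ _ _ _ _)
        ?_ _ ?_
      · intro p hp
        simp only [Finset.mem_filter, Finset.mem_univ, true_and, not_or,
          Finset.mem_singleton] at hp
        have h1 : p.1.1 + 1 < k + 1 := by
          have := p.1.2
          have h2 : p.1.1 ≠ k := fun h => hp.1 (Fin.ext h)
          omega
        have h2 : p.2.1 + 1 < k + 1 := by
          have := p.2.2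
          have h2 : p.2.1 ≠ k := fun h => hp.2 (Fin.ext h)
          omega
        unfold faceW
        rw [spn_h q.1 q.2 _ _ h2, spn_h q.1 q.2 _ _ h2, spn_v q.1 q.2 hq _ _ h1,
          spn_v q.1 q.2 hq _ _ h1]
      · refine (bad_card _).trans (le_of_eq ?_)
        simp
  refine key.trans (le_of_eq ?_)
  rw [Fintype.sum_prod_type]
  simp only [Finset.sum_const, Finset.card_univ, Fintype.card_prod, Fintype.card_fun,
    Fintype.card_bool, Fintype.card_fin, nsmul_eq_mul]
  unfold spin
  rw [Finset.mul_sum]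
  refine Finset.sum_congr rfl fun s _ => ?_
  push_cast
  rw [mul_pow, ← pow_mul, show (4 : ℝ) = 2 * 2 by norm_num, mul_pow]
  ring

theorem spin_le (A x y z : ℝ) (hA : 0 < A) (hx : 0 < x) (hy : 0 < y) (hz : 0 < z) :
    spin (cyc (k + 1)) (faceW A x y z) ≤ 2 ^ (k + 1) * torus (cyc (k + 1)) (dualW A x y z) := by
  have key : spin (cyc (k + 1)) (faceW A x y z) ≤
      ∑ r : (Fin (k + 1) → Bool) × (Fin (k + 1) → Fin (k + 1) → Bool) ×
        (Fin (k + 1) → Fin (k + 1) → Bool), ∏ i, ∏ j, dualW A x y z (r.2.1 i j) (r.2.2 i j)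
        (r.2.1 (cyc (k + 1) i) j) (r.2.2 i (cyc (k + 1) j)) := by
    unfold spin
    refine sum_inj univ (fun s => (fun i => s i (cs k 0),
      fun i j => xor (s i j) (s i (cyc (k + 1) j)),
      fun i j => xor (s i j) (s (cyc (k + 1) i) j))) ?_ _ _ (fun r => ?_) ?_
    · intro s _ s' _ he
      simp only [Prod.mk.injEq] at he
      obtain ⟨he1, he2, -⟩ := he
      have h1 : ∀ (i : Fin (k + 1)) (t : ℕ), s i (cs k t) = s' i (cs k t) := by
        intro i t
        induction t with
        | zero => exact congrFun he1 i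
        | succ t ih =>
          have h2 := congrFun (congrFun he2 i) (cs k t)
          simp only [cyc_cs] at h2
          revert h2 ih
          generalize s i (cs k t) = A
          generalize s' i (cs k t) = B
          generalize s i (cs k (t + 1)) = C
          generalize s' i (cs k (t + 1)) = D
          revert A B C D
          decide
      funext i j
      have := h1 i j.1
      rwa [cs_val] at this
    · exact Finset.prod_nonneg fun i _ => Finset.prod_nonneg fun j _ =>
        dualW_nonneg A x y z hA hx hy hz _ _ _ _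
    · intro s _
      rw [Fintype.prod_prod_type]
      exact le_of_eq rfl
  refine key.trans (le_of_eq ?_)
  rw [Fintype.sum_prod_type]
  simp only [Finset.sum_const, Finset.card_univ, Fintype.card_fun,
    Fintype.card_bool, Fintype.card_fin, nsmul_eq_mul]
  unfold torus
  rw [Fintype.sum_prod_type]
  push_cast
  rfl

end SVR
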